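import Pool.Agent.Helper50.CD.Expl

set_option autoImplicit false

/-!
# CD-A: four arms

`Arms m S1 S2 S3 S4 ω`: primal out-arm at `S1`, primal in-arm at `S2`, dual out-arm at `S3`, dual in-arm at `S4`, all
outside of the square.
Symmetries of the law: (1) point reflection with reversal: cells `(i, j) ↦ (-i, -j)`, points `z ↦ (1 - z.1, 1 - z.2)`:
`PSo m (fun c => ω (-c)) u v ↔ PSo m ω (1 - v) (1 - u)` (as `PS_rot` in `Helper95/DG/Inv.lean`, shifted by `(1,1)`;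
`In m (-c) ↔ In m c`). So the law of `(Fw (PSo m ω) S).Infinite` is the law of `(Bw (PSo m ω) S').Infinite`, `S'` the
image of `S` (`Pr_comp` with an equivalence of the cells, as for `rot` in `Prob.lean`; `conn_map_rev`).
(2) `rot` (see `rot_step` in `Prob.lean`): `PSo m (fun c => ω (rot c)) u v ↔ DSo m ω (1 - u.2, u.1) (1 - v.2, v.1)`, and
`conn_map` in both directions as in `rot_up`.
Images of the sides: reflection: `sT 0 ↦ sB 0`, `sB 0 ↦ sT 0`, `sL 0 ↦ sR 0`, `sR 0 ↦ sL 0`; rot `z ↦ (1 - z.2, z.1)`: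
`sT 0 ↦ sR 1`, `sR 0 ↦ sB 1`, `sB 0 ↦ sL 1`, `sL 0 ↦ sT 1` (ext, omega).
`arms_T`: the out-arm at the top with probability `≥ 7/8` gives an in-arm at the bottom, a dual out-arm at
`rot (top) = right`, a dual in-arm at `rot (bottom) = left`, each with probability `≥ 7/8`; the intersection has
probability `≥ 1 - 4/8` (complements, `Pr_union_le`). Similarly the other three.
Measurability: infinite = complement of `meas_fin`-type sets, for `Fw` and `Bw` (the proof of `meas_fin` for `Bw`).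
-/

namespace Pool.Agent.Helper50.CD

open MeasureTheory
open scoped ENNReal NNReal
open Pool.Agent.Helper95.DG

/-- Four arms outside of the square. -/
def Arms (m : ℤ) (S1 S2 S3 S4 : Set (ℤ × ℤ)) (ω : ℤ × ℤ → Bool) : Prop :=
  (Fw (PSo m ω) S1).Infinite ∧ (Bw (PSo m ω) S2).Infinite ∧
    (Fw (DSo m ω) S3).Infinite ∧ (Bw (DSo m ω) S4).Infinite

/-- Image of a forward cluster. -/
private theorem Fw_image (r r' : ℤ × ℤ → ℤ × ℤ → Prop) (T : (ℤ × ℤ) ≃ (ℤ × ℤ))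
    (h : ∀ x y, r x y ↔ r' (T x) (T y)) (S : Set (ℤ × ℤ)) : Fw r' (T '' S) = T '' (Fw r S) := by
  ext z
  constructor
  · rintro ⟨_, ⟨a, ha, rfl⟩, hc⟩
    refine ⟨T.symm z, ⟨a, ha, ?_⟩, T.apply_symm_apply z⟩
    have h1 := conn_map r' r Set.univ Set.univ T.symm
      (fun x y hxy => (h _ _).2 (by simpa using hxy)) (fun _ _ => Set.mem_univ _) _ _ hc
    simpa using h1
  · rintro ⟨w, ⟨a, ha, hc⟩, rfl⟩
    exact ⟨T a, ⟨a, ha, rfl⟩, conn_map r r' Set.univ Set.univ T (fun x y hxy => (h x y).1 hxy)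
      (fun _ _ => Set.mem_univ _) _ _ hc⟩

/-- The backward cluster is the forward cluster of the reversed rule. -/
private theorem Bw_eq (r : ℤ × ℤ → ℤ × ℤ → Prop) (S : Set (ℤ × ℤ)) :
    Bw r S = Fw (fun x y => r y x) S := by
  ext z
  constructor
  · rintro ⟨a, ha, hc⟩
    exact ⟨a, ha, conn_reverse r Set.univ z a hc⟩
  · rintro ⟨a, ha, hc⟩
    exact ⟨a, ha, conn_reverse (fun x y => r y x) Set.univ a z hc⟩

private theorem inf_image {r r' : ℤ × ℤ → ℤ × ℤ → Prop} (T : (ℤ × ℤ) ≃ (ℤ × ℤ))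
    (h : ∀ x y, r x y ↔ r' (T x) (T y)) (S : Set (ℤ × ℤ)) :
    (Fw r S).Infinite ↔ (Fw r' (T '' S)).Infinite := by
  rw [Fw_image r r' T h S, Set.infinite_image_iff T.injective.injOn]

private theorem meas_F (r : (ℤ × ℤ → Bool) → ℤ × ℤ → ℤ × ℤ → Prop)
    (hr : ∀ x y, MeasurableSet {ω | r ω x y}) (S : Set (ℤ × ℤ)) :
    MeasurableSet {ω : ℤ × ℤ → Bool | (Fw (r ω) S).Infinite} :=
  (meas_fin r hr S).compl

private theorem meas_B (r : (ℤ × ℤ → Bool) → ℤ × ℤ → ℤ × ℤ → Prop)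
    (hr : ∀ x y, MeasurableSet {ω | r ω x y}) (S : Set (ℤ × ℤ)) :
    MeasurableSet {ω : ℤ × ℤ → Bool | (Bw (r ω) S).Infinite} := by
  have h : {ω : ℤ × ℤ → Bool | (Bw (r ω) S).Infinite} =
      {ω | (Fw ((fun ω x y => r ω y x) ω) S).Infinite} := by
    ext ω
    show (Bw (r ω) S).Infinite ↔ _
    rw [Bw_eq]
    rfl
  rw [h]
  exact meas_F (fun ω x y => r ω y x) (fun x y => hr y x) S

theorem meas_arms (m : ℤ) (S1 S2 S3 S4 : Set (ℤ × ℤ)) :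
    MeasurableSet {ω : ℤ × ℤ → Bool | Arms m S1 S2 S3 S4 ω} := by
  exact (meas_F (PSo m) (meas_PSo m) S1).inter ((meas_B (PSo m) (meas_PSo m) S2).inter
    ((meas_F (DSo m) (meas_DSo m) S3).inter (meas_B (DSo m) (meas_DSo m) S4)))

theorem dep_arms (m : ℤ) (S1 S2 S3 S4 : Set (ℤ × ℤ)) :
    Dep {ω : ℤ × ℤ → Bool | Arms m S1 S2 S3 S4 ω} {c | ¬ In m c} := by
  intro ω ω' h
  have h1 : PSo m ω = PSo m ω' := by
    funext x y
    apply propext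
    unfold PSo PS
    constructor
    · rintro ⟨⟨h2, h3⟩, h4⟩
      refine ⟨⟨h2, ?_⟩, h4⟩
      rw [← h _ h4]; exact h3
    · rintro ⟨⟨h2, h3⟩, h4⟩
      refine ⟨⟨h2, ?_⟩, h4⟩
      rw [h _ h4]; exact h3
  have h2 : DSo m ω = DSo m ω' := by
    funext x y
    apply propext
    unfold DSo DS
    constructor
    · rintro ⟨⟨h2, h3⟩, h4⟩
      refine ⟨⟨h2, ?_⟩, h4⟩
      rw [← h _ h4]; exact h3
    · rintro ⟨⟨h2, h3⟩, h4⟩
      refine ⟨⟨h2, ?_⟩, h4⟩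
      rw [h _ h4]; exact h3
  show Arms m S1 S2 S3 S4 ω ↔ Arms m S1 S2 S3 S4 ω'
  unfold Arms
  rw [h1, h2]

/-- The point reflection of the points. -/
private def rfP : (ℤ × ℤ) ≃ (ℤ × ℤ) where
  toFun z := (1 - z.1, 1 - z.2)
  invFun z := (1 - z.1, 1 - z.2)
  left_inv z := by simp
  right_inv z := by simp

/-- The rotation of the points. -/
private def rtP : (ℤ × ℤ) ≃ (ℤ × ℤ) where
  toFun z := (1 - z.2, z.1)
  invFun z := (z.2, 1 - z.1)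
  left_inv z := by simp
  right_inv z := by simp

/-- The point reflection of the cells. -/
private def ngC : (ℤ × ℤ) ≃ (ℤ × ℤ) := Equiv.neg (ℤ × ℤ)

private theorem refl_step (m : ℤ) (ω : ℤ × ℤ → Bool) (u v : ℤ × ℤ) :
    PSo m (fun c => ω (ngC c)) u v ↔ PSo m ω (rfP v) (rfP u) := by
  have e : Diag u v → cell (rfP v) (rfP u) = ngC (cell u v) := by
    rintro ⟨h1, h2⟩
    unfold cell
    ext
    · show min (1 - v.1) (1 - u.1) = -min u.1 v.1; omega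
    · show min (1 - v.2) (1 - u.2) = -min u.2 v.2; omega
  have hd : Diag u v ↔ Diag (rfP v) (rfP u) := by
    show ((v.1 = u.1 + 1 ∨ v.1 = u.1 - 1) ∧ (v.2 = u.2 + 1 ∨ v.2 = u.2 - 1)) ↔
      ((1 - u.1 = 1 - v.1 + 1 ∨ 1 - u.1 = 1 - v.1 - 1) ∧
        (1 - u.2 = 1 - v.2 + 1 ∨ 1 - u.2 = 1 - v.2 - 1))
    omega
  have hi : ∀ c, In m (ngC c) ↔ In m c := by
    intro c
    show (-m ≤ -c.1 ∧ -c.1 ≤ m ∧ -m ≤ -c.2 ∧ -c.2 ≤ m) ↔ (-m ≤ c.1 ∧ c.1 ≤ m ∧ -m ≤ c.2 ∧ c.2 ≤ m)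
    omega
  unfold PSo PS
  constructor
  · rintro ⟨⟨h1, h2⟩, h3⟩
    refine ⟨⟨hd.1 h1, ?_⟩, ?_⟩
    · rw [e h1]
      refine h2.trans ?_
      show v.1 = u.1 + 1 ↔ 1 - u.1 = 1 - v.1 + 1
      omega
    · rw [e h1, hi]; exact h3
  · rintro ⟨⟨h1, h2⟩, h3⟩
    have h1' := hd.2 h1
    rw [e h1'] at h2 h3
    refine ⟨⟨h1', h2.trans ?_⟩, ?_⟩
    · show 1 - u.1 = 1 - v.1 + 1 ↔ v.1 = u.1 + 1
      omega
    · rw [hi] at h3; exact h3

/-- Reflection: law of the in-arm. -/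
private theorem pr_refl (p : ℝ≥0) (hp : p ≤ 1) (m : ℤ) (S : Set (ℤ × ℤ)) :
    Pr p hp {ω | (Bw (PSo m ω) (rfP '' S)).Infinite} =
      Pr p hp {ω | (Fw (PSo m ω) S).Infinite} := by
  rw [← Pr_comp p hp ngC (meas_F (PSo m) (meas_PSo m) S)]
  congr 1
  ext ω
  show (Bw (PSo m ω) (rfP '' S)).Infinite ↔ (Fw (PSo m (fun c => ω (ngC c))) S).Infinite
  rw [Bw_eq, ← inf_image (r := PSo m (fun c => ω (ngC c))) rfP
    (fun x y => refl_step m ω x y) S]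

/-- Rotation: law of the dual out-arm. -/
private theorem pr_rotF (p : ℝ≥0) (hp : p ≤ 1) (m : ℤ) (S : Set (ℤ × ℤ)) :
    Pr p hp {ω | (Fw (DSo m ω) (rtP '' S)).Infinite} =
      Pr p hp {ω | (Fw (PSo m ω) S).Infinite} := by
  rw [← Pr_comp p hp rot (meas_F (PSo m) (meas_PSo m) S)]
  congr 1
  ext ω
  show (Fw (DSo m ω) (rtP '' S)).Infinite ↔ (Fw (PSo m (fun c => ω (rot c))) S).Infinite
  rw [← inf_image (r := PSo m (fun c => ω (rot c))) rtP (fun x y => rot_step m ω x y) S]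

/-- Rotation: law of the dual in-arm. -/
private theorem pr_rotB (p : ℝ≥0) (hp : p ≤ 1) (m : ℤ) (S : Set (ℤ × ℤ)) :
    Pr p hp {ω | (Bw (DSo m ω) (rtP '' S)).Infinite} =
      Pr p hp {ω | (Bw (PSo m ω) S).Infinite} := by
  rw [← Pr_comp p hp rot (meas_B (PSo m) (meas_PSo m) S)]
  congr 1
  ext ω
  show (Bw (DSo m ω) (rtP '' S)).Infinite ↔ (Bw (PSo m (fun c => ω (rot c))) S).Infinite
  rw [Bw_eq, Bw_eq, ← inf_image (r := fun x y => PSo m (fun c => ω (rot c)) y x) rtP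
    (fun x y => rot_step m ω y x) S]

/-- Four events of probability at least `7 / 8`. -/
private theorem four (p : ℝ≥0) (hp : p ≤ 1) {A B C D : Set (ℤ × ℤ → Bool)}
    (hA : MeasurableSet A) (hB : MeasurableSet B) (hC : MeasurableSet C) (hD : MeasurableSet D)
    (h1 : 7 / 8 ≤ Pr p hp A) (h2 : 7 / 8 ≤ Pr p hp B) (h3 : 7 / 8 ≤ Pr p hp C)
    (h4 : 7 / 8 ≤ Pr p hp D) : 1 / 2 ≤ Pr p hp (A ∩ (B ∩ (C ∩ D))) := by
  have k1 : Pr p hp (A ∩ (B ∩ (C ∩ D)))ᶜ ≤ Pr p hp Aᶜ + (Pr p hp Bᶜ + (Pr p hp Cᶜ + Pr p hp Dᶜ)) := by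
    rw [Set.compl_inter, Set.compl_inter, Set.compl_inter]
    refine (Pr_union_le p hp _ _).trans ?_
    gcongr
    refine (Pr_union_le p hp _ _).trans ?_
    gcongr
    exact Pr_union_le p hp _ _
  rw [Pr_compl p hp (hA.inter (hB.inter (hC.inter hD))), Pr_compl p hp hA, Pr_compl p hp hB,
    Pr_compl p hp hC, Pr_compl p hp hD] at k1
  linarith

/-- The general form. -/
private theorem arms_gen (p : ℝ≥0) (hp : p ≤ 1) (m : ℤ) (S1 S2 S3 S4 : Set (ℤ × ℤ))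
    (e2 : rfP '' S1 = S2) (e3 : rtP '' S1 = S3) (e4 : rtP '' S2 = S4)
    (h : 7 / 8 ≤ Pr p hp {ω | (Fw (PSo m ω) S1).Infinite}) :
    1 / 2 ≤ Pr p hp {ω | Arms m S1 S2 S3 S4 ω} := by
  have h2 : 7 / 8 ≤ Pr p hp {ω | (Bw (PSo m ω) S2).Infinite} := by
    rw [← e2, pr_refl]; exact h
  have h3 : 7 / 8 ≤ Pr p hp {ω | (Fw (DSo m ω) S3).Infinite} := by
    rw [← e3, pr_rotF]; exact h
  have h4 : 7 / 8 ≤ Pr p hp {ω | (Bw (DSo m ω) S4).Infinite} := by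
    rw [← e4, pr_rotB]; exact h2
  exact four p hp (meas_F (PSo m) (meas_PSo m) S1) (meas_B (PSo m) (meas_PSo m) S2)
    (meas_F (DSo m) (meas_DSo m) S3) (meas_B (DSo m) (meas_DSo m) S4) h h2 h3 h4

/-- Images under the reflection. -/
private theorem rf_img {A B : Set (ℤ × ℤ)} (h1 : ∀ z ∈ A, ((1 - z.1, 1 - z.2) : ℤ × ℤ) ∈ B)
    (h2 : ∀ z ∈ B, ((1 - z.1, 1 - z.2) : ℤ × ℤ) ∈ A) : rfP '' A = B := by
  ext z
  constructor
  · rintro ⟨w, hw, rfl⟩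
    exact h1 w hw
  · intro hz
    refine ⟨_, h2 z hz, ?_⟩
    show ((1 - (1 - z.1), 1 - (1 - z.2)) : ℤ × ℤ) = z
    simp

/-- Images under the rotation. -/
private theorem rt_img {A B : Set (ℤ × ℤ)} (h1 : ∀ z ∈ A, ((1 - z.2, z.1) : ℤ × ℤ) ∈ B)
    (h2 : ∀ z ∈ B, ((z.2, 1 - z.1) : ℤ × ℤ) ∈ A) : rtP '' A = B := by
  ext z
  constructor
  · rintro ⟨w, hw, rfl⟩
    exact h1 w hw
  · intro hz
    refine ⟨_, h2 z hz, ?_⟩
    show ((1 - (1 - z.1), z.2) : ℤ × ℤ) = z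
    simp

theorem arms_T (p : ℝ≥0) (hp : p ≤ 1) (m : ℤ)
    (h : 7 / 8 ≤ Pr p hp {ω | (Fw (PSo m ω) (sT 0 m)).Infinite}) :
    1 / 2 ≤ Pr p hp {ω | Arms m (sT 0 m) (sB 0 m) (sR 1 m) (sL 1 m) ω} := by
  refine arms_gen p hp m _ _ _ _ (rf_img ?_ ?_) (rt_img ?_ ?_) (rt_img ?_ ?_) h <;>
    rintro z ⟨h1, h2, h3, h4⟩ <;> refine ⟨?_, ?_, ?_, ?_⟩ <;> simp only <;> omega

theorem arms_B (p : ℝ≥0) (hp : p ≤ 1) (m : ℤ)
    (h : 7 / 8 ≤ Pr p hp {ω | (Fw (PSo m ω) (sB 0 m)).Infinite}) :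
    1 / 2 ≤ Pr p hp {ω | Arms m (sB 0 m) (sT 0 m) (sL 1 m) (sR 1 m) ω} := by
  refine arms_gen p hp m _ _ _ _ (rf_img ?_ ?_) (rt_img ?_ ?_) (rt_img ?_ ?_) h <;>
    rintro z ⟨h1, h2, h3, h4⟩ <;> refine ⟨?_, ?_, ?_, ?_⟩ <;> simp only <;> omega

theorem arms_R (p : ℝ≥0) (hp : p ≤ 1) (m : ℤ)
    (h : 7 / 8 ≤ Pr p hp {ω | (Fw (PSo m ω) (sR 0 m)).Infinite}) :
    1 / 2 ≤ Pr p hp {ω | Arms m (sR 0 m) (sL 0 m) (sB 1 m) (sT 1 m) ω} := by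
  refine arms_gen p hp m _ _ _ _ (rf_img ?_ ?_) (rt_img ?_ ?_) (rt_img ?_ ?_) h <;>
    rintro z ⟨h1, h2, h3, h4⟩ <;> refine ⟨?_, ?_, ?_, ?_⟩ <;> simp only <;> omega

theorem arms_L (p : ℝ≥0) (hp : p ≤ 1) (m : ℤ)
    (h : 7 / 8 ≤ Pr p hp {ω | (Fw (PSo m ω) (sL 0 m)).Infinite}) :
    1 / 2 ≤ Pr p hp {ω | Arms m (sL 0 m) (sR 0 m) (sT 1 m) (sB 1 m) ω} := by
  refine arms_gen p hp m _ _ _ _ (rf_img ?_ ?_) (rt_img ?_ ?_) (rt_img ?_ ?_) h <;>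
    rintro z ⟨h1, h2, h3, h4⟩ <;> refine ⟨?_, ?_, ?_, ?_⟩ <;> simp only <;> omega

end Pool.Agent.Helper50.CD
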