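import Pool.Agent.Helper50.CD.Pot

set_option autoImplicit false

/-!
# CD-C: circuits and dual circuits

`not_both_c`: the potential of a dual circuit through the cell `c` increases along the primal step of `c` and does
not decrease along primal steps, so there is no primal circuit through `c`. `rd_fin`: it has finite support, so
the forward cluster of the head or the backward cluster of the tail of the primal step is finite. `rc_fin`:
the same with the roles exchanged, by the rotation `z ↦ (1 - z.2, z.1)`. `pr_rc`, `pr_rd`: all edges and dual edges lie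
on circuits with the same probability `rho` (shift, mirror, rotation).
-/

namespace Pool.Agent.Helper50.CD

open MeasureTheory
open scoped ENNReal NNReal
open Pool.Agent.Helper95.DG

private lemma ev_step (ω : ℤ × ℤ → Bool) (u v : ℤ × ℤ) (h : PS ω u v) (hu : Ev u) : Ev v := by
  have h1 := h.1
  unfold Diag at h1
  unfold Ev at hu ⊢
  omega

/-- Along a walk from an even point. -/
private lemma pot_conn (ω : ℤ × ℤ → Bool) (U : ℤ × ℤ → ℤ)
    (h : ∀ u w, Ev u → PS ω u w → U u ≤ U w) (a b : ℤ × ℤ) (ha : Ev a)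
    (hc : Conn (PS ω) Set.univ a b) : Ev b ∧ U a ≤ U b := by
  obtain ⟨n, f, hf, h0, hn⟩ := hc
  have key : ∀ i ≤ n, Ev (f i) ∧ U a ≤ U (f i) := by
    intro i
    induction i with
    | zero => intro _; rw [h0]; exact ⟨ha, le_rfl⟩
    | succ i ih =>
      intro hi
      obtain ⟨h1, h2⟩ := ih (by omega)
      have h3 := hf.2 i (by omega)
      exact ⟨ev_step ω _ _ h3 h1, h2.trans (h _ _ h1 h3)⟩
  rw [← hn]
  exact key n le_rfl

/-- Backwards. -/
private lemma pot_conn' (ω : ℤ × ℤ → Bool) (U : ℤ × ℤ → ℤ)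
    (h : ∀ u w, Ev u → PS ω u w → U u ≤ U w) (a b : ℤ × ℤ) (hb : Ev b)
    (hc : Conn (PS ω) Set.univ a b) : Ev a ∧ U a ≤ U b := by
  have ha : Ev a := by
    have h1 := cls_conn 0 (PS ω) (diag_of_ps ω) Set.univ a b hc
    unfold Cls at h1
    rw [Int.even_iff, Int.even_iff] at h1
    unfold Ev at hb ⊢
    have h2 := h1.2 (by omega)
    omega
  exact ⟨ha, (pot_conn ω U h a b ha hc).2⟩

theorem not_both_c (c : ℤ × ℤ) (ω : ℤ × ℤ → Bool) : ¬ (Rc c ω ∧ Rd c ω) := by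
  rintro ⟨⟨u, v, hu, huv, hs, hc⟩, ⟨x, y, hx, hxy, hd, hcd⟩⟩
  obtain ⟨U, -, hU1, hU2⟩ := pot ω x y hx hd hcd
  have h1 := hU2 u v hu hs (huv.trans hxy.symm)
  have h2 := (pot_conn ω U hU1 v u (ev_step ω u v hs hu) hc).2
  omega

theorem rd_fin (ω : ℤ × ℤ → Bool) (u v : ℤ × ℤ) (hu : Ev u) (h : PS ω u v)
    (hR : Rd (cell u v) ω) :
    {z | Conn (PS ω) Set.univ v z}.Finite ∨ {z | Conn (PS ω) Set.univ z u}.Finite := by
  obtain ⟨x, y, hx, hxy, hd, hcd⟩ := hR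
  obtain ⟨U, hf, hU1, hU2⟩ := pot ω x y hx hd hcd
  have h1 := hU2 u v hu h hxy.symm
  by_cases h2 : 1 ≤ U v
  · left
    refine hf.subset fun z hz => ?_
    have h3 := (pot_conn ω U hU1 v z (ev_step ω u v h hu) hz).2
    show U z ≠ 0
    omega
  · right
    refine hf.subset fun z hz => ?_
    have h3 := (pot_conn' ω U hU1 z u hu hz).2
    show U z ≠ 0
    omega

/-! ### The rotation -/

private lemma cell_rot (u v : ℤ × ℤ) (h : Diag u v) :
    cell (1 - u.2, u.1) (1 - v.2, v.1) = rot (cell u v) := by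
  obtain ⟨h1, h2⟩ := h
  unfold cell rot
  ext
  · show min (1 - u.2) (1 - v.2) = -min u.2 v.2; omega
  · rfl

private lemma step_rot1 (ω : ℤ × ℤ → Bool) (u v : ℤ × ℤ) :
    PS (fun c => ω (rot c)) u v ↔ DS ω (1 - u.2, u.1) (1 - v.2, v.1) := by
  unfold PS DS
  constructor
  · rintro ⟨h1, h2⟩
    refine ⟨⟨?_, h1.1⟩, ?_⟩
    · have := h1.2
      show 1 - v.2 = 1 - u.2 + 1 ∨ 1 - v.2 = 1 - u.2 - 1; omega
    · rw [cell_rot u v h1]; exact h2
  · rintro ⟨h1, h2⟩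
    have h3 : 1 - v.2 = 1 - u.2 + 1 ∨ 1 - v.2 = 1 - u.2 - 1 := h1.1
    have h4 : Diag u v := ⟨h1.2, by omega⟩
    rw [cell_rot u v h4] at h2
    exact ⟨h4, h2⟩

private lemma step_rot2 (ω : ℤ × ℤ → Bool) (u v : ℤ × ℤ) :
    DS (fun c => ω (rot c)) u v ↔ PS ω (1 - v.2, v.1) (1 - u.2, u.1) := by
  unfold PS DS
  constructor
  · rintro ⟨h1, h2⟩
    refine ⟨⟨?_, ?_⟩, ?_⟩
    · have := h1.2
      show 1 - u.2 = 1 - v.2 + 1 ∨ 1 - u.2 = 1 - v.2 - 1; omega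
    · have := h1.1
      show u.1 = v.1 + 1 ∨ u.1 = v.1 - 1; omega
    · rw [cell_comm, cell_rot u v h1]
      refine h2.trans ?_
      show v.2 = u.2 + 1 ↔ 1 - u.2 = 1 - v.2 + 1
      omega
  · rintro ⟨h1, h2⟩
    have h3 : 1 - u.2 = 1 - v.2 + 1 ∨ 1 - u.2 = 1 - v.2 - 1 := h1.1
    have h3' : u.1 = v.1 + 1 ∨ u.1 = v.1 - 1 := h1.2
    have h4 : Diag u v := ⟨by omega, by omega⟩
    rw [cell_comm, cell_rot u v h4] at h2
    refine ⟨h4, h2.trans ?_⟩
    show 1 - u.2 = 1 - v.2 + 1 ↔ v.2 = u.2 + 1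
    omega

private lemma rr1 (z : ℤ × ℤ) : ((1 - (z.2, 1 - z.1).2, (z.2, 1 - z.1).1) : ℤ × ℤ) = z := by
  ext
  · show 1 - (1 - z.1) = z.1; omega
  · rfl

private lemma rr2 (z : ℤ × ℤ) : (((1 - z.2, z.1) : ℤ × ℤ).2, 1 - ((1 - z.2, z.1) : ℤ × ℤ).1) = z := by
  ext
  · rfl
  · show 1 - (1 - z.2) = z.2; omega

/-- `Rd` is `Rc` of the rotated configuration. -/
private lemma rc_rot (c : ℤ × ℤ) (ω : ℤ × ℤ → Bool) :
    Rc c (fun d => ω (rot d)) ↔ Rd (rot c) ω := by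
  constructor
  · rintro ⟨u, v, hu, huv, hs, hc⟩
    refine ⟨(1 - u.2, u.1), (1 - v.2, v.1), ?_, ?_, (step_rot1 ω u v).1 hs, ?_⟩
    · unfold Ev at hu
      show (1 - u.2 + u.1) % 2 = 1
      omega
    · rw [cell_rot u v hs.1, huv]
    · exact conn_map _ _ Set.univ Set.univ (fun z => (1 - z.2, z.1))
        (fun a b h => (step_rot1 ω a b).1 h) (fun _ _ => Set.mem_univ _) v u hc
  · rintro ⟨x, y, hx, hxy, hs, hc⟩
    have hs' : PS (fun d => ω (rot d)) (x.2, 1 - x.1) (y.2, 1 - y.1) := by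
      rw [step_rot1, rr1, rr1]
      exact hs
    refine ⟨(x.2, 1 - x.1), (y.2, 1 - y.1), ?_, ?_, hs', ?_⟩
    · unfold Od at hx
      show (x.2 + (1 - x.1)) % 2 = 0
      omega
    · have h1 := cell_rot (x.2, 1 - x.1) (y.2, 1 - y.1) hs'.1
      rw [rr1, rr1, hxy] at h1
      exact (rot.injective h1).symm
    · refine conn_map (DS ω) _ Set.univ Set.univ (fun z => (z.2, 1 - z.1))
        (fun a b h => ?_) (fun _ _ => Set.mem_univ _) y x hc
      rw [step_rot1, rr1, rr1]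
      exact h

/-- `Rc` is `Rd` of the rotated configuration. -/
private lemma rd_rot (c : ℤ × ℤ) (ω : ℤ × ℤ → Bool) (h : Rc (rot c) ω) :
    Rd c (fun d => ω (rot d)) := by
  obtain ⟨a, b, ha, hab, hs, hc⟩ := h
  have hs' : DS (fun d => ω (rot d)) (b.2, 1 - b.1) (a.2, 1 - a.1) := by
    rw [step_rot2, rr1, rr1]
    exact hs
  refine ⟨(b.2, 1 - b.1), (a.2, 1 - a.1), ?_, ?_, hs', ?_⟩
  · have hb := ev_step ω a b hs ha
    unfold Ev at hb
    show (b.2 + (1 - b.1)) % 2 = 1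
    omega
  · have h1 := cell_rot (b.2, 1 - b.1) (a.2, 1 - a.1) hs'.1
    rw [rr1, rr1, cell_comm, hab] at h1
    exact (rot.injective h1).symm
  · refine conn_map_rev (PS ω) _ Set.univ Set.univ (fun z => (z.2, 1 - z.1))
      (fun u v h => ?_) (fun _ _ => Set.mem_univ _) b a hc
    rw [step_rot2, rr1, rr1]
    exact h

theorem rc_fin (ω : ℤ × ℤ → Bool) (x y : ℤ × ℤ) (hx : Od x) (h : DS ω x y)
    (hR : Rc (cell x y) ω) :
    {z | Conn (DS ω) Set.univ y z}.Finite ∨ {z | Conn (DS ω) Set.univ z x}.Finite := by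
  have hs' : PS (fun d => ω (rot d)) (x.2, 1 - x.1) (y.2, 1 - y.1) := by
    rw [step_rot1, rr1, rr1]
    exact h
  have h1 := cell_rot (x.2, 1 - x.1) (y.2, 1 - y.1) hs'.1
  rw [rr1, rr1] at h1
  rw [h1] at hR
  have hev : Ev (x.2, 1 - x.1) := by
    unfold Od at hx
    show (x.2 + (1 - x.1)) % 2 = 0
    omega
  have hmap : ∀ a b, Conn (DS ω) Set.univ a b →
      Conn (PS (fun d => ω (rot d))) Set.univ (a.2, 1 - a.1) (b.2, 1 - b.1) := by
    intro a b hab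
    refine conn_map (DS ω) _ Set.univ Set.univ (fun z => (z.2, 1 - z.1))
        (fun u v huv => ?_) (fun _ _ => Set.mem_univ _) a b hab
    rw [step_rot1, rr1, rr1]
    exact huv
  rcases rd_fin (fun d => ω (rot d)) _ _ hev hs' (rd_rot _ ω hR) with h2 | h2
  · left
    refine (h2.image fun z => (1 - z.2, z.1)).subset fun z hz => ?_
    exact ⟨(z.2, 1 - z.1), hmap y z hz, rr1 z⟩
  · right
    refine (h2.image fun z => (1 - z.2, z.1)).subset fun z hz => ?_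
    exact ⟨(z.2, 1 - z.1), hmap z x hz, rr1 z⟩

theorem rc_not (c : ℤ × ℤ) (ω : ℤ × ℤ → Bool) : Rc c (fun d => !(ω d)) ↔ Rc c ω := by
  have key : ∀ o : ℤ × ℤ → Bool, Rc c (fun d => !(o d)) → Rc c o := by
    rintro o ⟨u, v, hu, huv, hs, hc⟩
    refine ⟨v, u, ev_step _ u v hs hu, by rw [cell_comm]; exact huv, (PS_not o u v).1 hs, ?_⟩
    exact conn_map_rev _ _ Set.univ Set.univ (fun z => z) (fun a b h => (PS_not o a b).1 h)
      (fun _ _ => Set.mem_univ _) v u hc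
  refine ⟨key ω, fun h => key (fun d => !(ω d)) ?_⟩
  simp only [Bool.not_not]
  exact h

theorem rd_not (c : ℤ × ℤ) (ω : ℤ × ℤ → Bool) : Rd c (fun d => !(ω d)) ↔ Rd c ω := by
  have key : ∀ o : ℤ × ℤ → Bool, Rd c (fun d => !(o d)) → Rd c o := by
    rintro o ⟨u, v, hu, huv, hs, hc⟩
    refine ⟨v, u, ?_, by rw [cell_comm]; exact huv, (DS_not o u v).1 hs, ?_⟩
    · have h1 := hs.1
      unfold Diag at h1
      unfold Od at hu ⊢
      omega
    · exact conn_map_rev _ _ Set.univ Set.univ (fun z => z) (fun a b h => (DS_not o a b).1 h)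
        (fun _ _ => Set.mem_univ _) v u hc
  refine ⟨key ω, fun h => key (fun d => !(ω d)) ?_⟩
  simp only [Bool.not_not]
  exact h

theorem meas_rc (c : ℤ × ℤ) : MeasurableSet {ω : ℤ × ℤ → Bool | Rc c ω} := by
  have e : {ω : ℤ × ℤ → Bool | Rc c ω} = ⋃ u : ℤ × ℤ, ⋃ v : ℤ × ℤ,
      ({_ω | Ev u ∧ cell u v = c} ∩ ({ω | PS ω u v} ∩ {ω | Conn (PS ω) Set.univ v u})) := by
    ext ω
    simp only [Set.mem_iUnion]
    constructor
    · rintro ⟨u, v, h1, h2, h3, h4⟩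
      exact ⟨u, v, ⟨h1, h2⟩, h3, h4⟩
    · rintro ⟨u, v, ⟨h1, h2⟩, h3, h4⟩
      exact ⟨u, v, h1, h2, h3, h4⟩
  rw [e]
  exact MeasurableSet.iUnion fun u => MeasurableSet.iUnion fun v =>
    (MeasurableSet.const _).inter ((meas_PS u v).inter (meas_conn_PS _ _ _))

theorem meas_rd (c : ℤ × ℤ) : MeasurableSet {ω : ℤ × ℤ → Bool | Rd c ω} := by
  have e : {ω : ℤ × ℤ → Bool | Rd c ω} = ⋃ u : ℤ × ℤ, ⋃ v : ℤ × ℤ,
      ({_ω | Od u ∧ cell u v = c} ∩ ({ω | DS ω u v} ∩ {ω | Conn (DS ω) Set.univ v u})) := by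
    ext ω
    simp only [Set.mem_iUnion]
    constructor
    · rintro ⟨u, v, h1, h2, h3, h4⟩
      exact ⟨u, v, ⟨h1, h2⟩, h3, h4⟩
    · rintro ⟨u, v, ⟨h1, h2⟩, h3, h4⟩
      exact ⟨u, v, h1, h2, h3, h4⟩
  rw [e]
  exact MeasurableSet.iUnion fun u => MeasurableSet.iUnion fun v =>
    (MeasurableSet.const _).inter ((meas_DS u v).inter (meas_conn_DS _ _ _))

/-- Transport of `Rc` by a symmetry of the points. -/
private lemma rc_transport (ω ω' : ℤ × ℤ → Bool) (T T' : ℤ × ℤ → ℤ × ℤ)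
    (h1 : ∀ z, T (T' z) = z) (h2 : ∀ u v, PS ω' u v ↔ PS ω (T u) (T v))
    (h3 : ∀ u, Ev (T u) ↔ Ev u) (σ : ℤ × ℤ → ℤ × ℤ) (hσ : Function.Injective σ)
    (h4 : ∀ u v, Diag u v → cell (T u) (T v) = σ (cell u v)) (c : ℤ × ℤ) :
    Rc c ω' ↔ Rc (σ c) ω := by
  constructor
  · rintro ⟨u, v, hu, huv, hs, hc⟩
    refine ⟨T u, T v, (h3 u).2 hu, by rw [h4 u v hs.1, huv], (h2 u v).1 hs, ?_⟩
    exact conn_map _ _ Set.univ Set.univ T (fun a b h => (h2 a b).1 h)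
      (fun _ _ => Set.mem_univ _) v u hc
  · rintro ⟨u, v, hu, huv, hs, hc⟩
    have hs' : PS ω' (T' u) (T' v) := by
      rw [h2, h1, h1]
      exact hs
    refine ⟨T' u, T' v, ?_, ?_, hs', ?_⟩
    · rw [← h3, h1]
      exact hu
    · have h5 := h4 _ _ hs'.1
      rw [h1, h1, huv] at h5
      exact (hσ h5).symm
    · refine conn_map _ _ Set.univ Set.univ T' (fun a b h => ?_)
        (fun _ _ => Set.mem_univ _) v u hc
      rw [h2, h1, h1]
      exact h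

private lemma rc_shift (w : ℤ × ℤ) (hw : Ev w) (c : ℤ × ℤ) (ω : ℤ × ℤ → Bool) :
    Rc c (fun d => ω (d + w)) ↔ Rc (c + w) ω := by
  refine rc_transport ω _ (fun z => z + w) (fun z => z - w) (fun z => sub_add_cancel z w)
    (fun u v => PS_shift ω w u v) (fun u => ?_) (fun z => z + w) (add_left_injective w) ?_ c
  · unfold Ev at hw ⊢
    show (u.1 + w.1 + (u.2 + w.2)) % 2 = 0 ↔ _
    omega
  · intro u v _
    unfold cell
    ext
    · show min (u.1 + w.1) (v.1 + w.1) = min u.1 v.1 + w.1; omega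
    · show min (u.2 + w.2) (v.2 + w.2) = min u.2 v.2 + w.2; omega

private lemma rc_mir (c : ℤ × ℤ) (ω : ℤ × ℤ → Bool) :
    Rc c (fun d => ω (d.1, -d.2 - 1)) ↔ Rc (c.1, -c.2 - 1) ω := by
  refine rc_transport ω _ (fun z => (z.1, -z.2)) (fun z => (z.1, -z.2)) (fun z => ?_)
    (fun u v => PS_mirror ω u v) (fun u => ?_) (fun z => (z.1, -z.2 - 1)) ?_ ?_ c
  · simp
  · unfold Ev
    show (u.1 + -u.2) % 2 = 0 ↔ _
    omega
  · rintro ⟨a, b⟩ ⟨a', b'⟩ h
    simp only [Prod.mk.injEq] at h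
    ext
    · exact h.1
    · have := h.2
      show b = b'
      omega
  · rintro u v ⟨h1, h2⟩
    unfold cell
    ext
    · rfl
    · show min (-u.2) (-v.2) = -min u.2 v.2 - 1; omega

private lemma pr_shift (p : ℝ≥0) (hp : p ≤ 1) (w : ℤ × ℤ) (hw : Ev w) (c : ℤ × ℤ) :
    Pr p hp {ω | Rc (c + w) ω} = Pr p hp {ω | Rc c ω} := by
  rw [← Pr_comp p hp (Equiv.addRight w) (meas_rc c)]
  congr 1
  ext ω
  exact (rc_shift w hw c ω).symm

theorem pr_rc (p : ℝ≥0) (hp : p ≤ 1) (c : ℤ × ℤ) : Pr p hp {ω | Rc c ω} = rho p hp := by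
  by_cases hc : (c.1 + c.2) % 2 = 0
  · have h := pr_shift p hp c hc (0, 0)
    rw [show ((0, 0) : ℤ × ℤ) + c = c from zero_add c] at h
    exact h
  · have h := pr_shift p hp (c + (0, 1)) (by unfold Ev; show (c.1 + 0 + (c.2 + 1)) % 2 = 0; omega)
      (0, -1)
    have e : ((0, -1) : ℤ × ℤ) + (c + (0, 1)) = c := by
      ext
      · show 0 + (c.1 + 0) = c.1; omega
      · show -1 + (c.2 + 1) = c.2; omega
    rw [e] at h
    rw [h]
    unfold rho
    have hinv : Function.Involutive (fun d : ℤ × ℤ => ((d.1, -d.2 - 1) : ℤ × ℤ)) := by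
      intro d
      ext
      · rfl
      · show -(-d.2 - 1) - 1 = d.2; omega
    rw [← Pr_comp p hp hinv.toPerm (meas_rc (0, 0))]
    congr 1
    ext ω
    have h2 := rc_mir (0, 0) ω
    simp only [neg_zero, zero_sub] at h2
    exact h2.symm

theorem pr_rd (p : ℝ≥0) (hp : p ≤ 1) (c : ℤ × ℤ) : Pr p hp {ω | Rd c ω} = rho p hp := by
  rw [← pr_rc p hp (rot.symm c), ← Pr_comp p hp rot (meas_rc (rot.symm c))]
  congr 1
  ext ω
  have h := rc_rot (rot.symm c) ω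
  rw [Equiv.apply_symm_apply] at h
  exact h.symm

theorem rho_le (p : ℝ≥0) (hp : p ≤ 1) : rho p hp ≤ 1 / 2 := by
  have h1 : {ω : ℤ × ℤ → Bool | Rd (0, 0) ω} ⊆ {ω : ℤ × ℤ → Bool | Rc (0, 0) ω}ᶜ :=
    fun ω h2 h3 => not_both_c (0, 0) ω ⟨h3, h2⟩
  have h2 := Pr_mono p hp h1
  rw [Pr_compl p hp (meas_rc (0, 0)), pr_rc, pr_rd] at h2
  linarith

theorem rho_lt (p : ℝ≥0) (hp : p ≤ 1) (c : ℤ × ℤ)
    (h : 0 < Pr p hp {ω | ¬ Rc c ω ∧ ¬ Rd c ω}) : rho p hp < 1 / 2 := by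
  have h1 : {ω : ℤ × ℤ → Bool | Rd c ω} ∪ {ω : ℤ × ℤ → Bool | ¬ Rc c ω ∧ ¬ Rd c ω} ⊆
      {ω : ℤ × ℤ → Bool | Rc c ω}ᶜ := by
    rintro ω (h2 | h2)
    · exact fun h3 => not_both_c c ω ⟨h3, h2⟩
    · exact h2.1
  have h2 := Pr_mono p hp h1
  have h3 : Pr p hp ({ω : ℤ × ℤ → Bool | Rd c ω} ∪ {ω : ℤ × ℤ → Bool | ¬ Rc c ω ∧ ¬ Rd c ω}) =
      Pr p hp {ω | Rd c ω} + Pr p hp {ω | ¬ Rc c ω ∧ ¬ Rd c ω} := by
    unfold Pr
    refine measureReal_union ?_ ?_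
    · rw [Set.disjoint_left]
      exact fun ω h4 h5 => h5.2 h4
    · exact (meas_rc c).compl.inter (meas_rd c).compl
  rw [h3, Pr_compl p hp (meas_rc c), pr_rc, pr_rd] at h2
  linarith

end Pool.Agent.Helper50.CD
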