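import Pool.Agent.Helper50.CD.Defs

set_option autoImplicit false

/-!
# CD-02: a finite cluster is cut off by a dual walk

`cut`: if the set `R` of the points reached from the bottom side (outside of the square) is finite and
contains no point of the top side, then there is a dual walk from the left to the right side outside of the
square. Proof: `w x d = d₁ d₂ (χ (x + d₁ e₁) - χ (x + d₂ e₂))` (`χ` the indicator of `R`; `0` for cells in
the square) is an antisymmetric flow on the dual steps, which is positive only on allowed dual steps, and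
its divergence vanishes off the left and right sides and has total mass `1` on the left side. Sum the
divergence over the set of points which can be reached from the left side along positive steps.
-/

namespace Pool.Agent.Helper50.CD

open Pool.Agent.Helper95.DG

theorem cut (m : ℕ) (ω : ℤ × ℤ → Bool) (hfin : (Reach m ω).Finite)
    (htop : ∀ b ∈ Reach m ω, ¬ Top m b) : UpD m ω := by
  classical
  set R := Reach m ω with hR
  have hm : (0 : ℤ) ≤ m := Int.natCast_nonneg m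
  -- facts on `R`
  have F1 : ∀ a, Bot m a → a ∈ R := fun a ha => ⟨a, ha, conn_refl _ _ _ (Set.mem_univ _)⟩
  have F3 : ∀ z z', z ∈ R → PSo m ω z z' → z' ∈ R := by
    rintro z z' ⟨a, ha, hc⟩ h
    exact ⟨a, ha, conn_trans _ _ _ _ _ hc (conn_step _ _ _ _ (Set.mem_univ _) (Set.mem_univ _) h)⟩
  have F4 : ∀ z ∈ R, (z.1 + z.2) % 2 = 0 := by
    rintro z ⟨a, ha, hc⟩
    have h1 := cls_conn 0 (PSo m ω) (fun u v h => h.1.1) Set.univ a z hc
    unfold Cls at h1
    have h2 : Even (a.1 + a.2 + 0) := by rw [Int.even_iff, add_zero]; exact ha.2.2.2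
    have h3 := h1.1 h2
    rw [Int.even_iff, add_zero] at h3
    exact h3
  obtain ⟨χ, hχ1, hχ0, hχ⟩ : ∃ χ : ℤ × ℤ → ℤ, (∀ z ∈ R, χ z = 1) ∧ (∀ z, z ∉ R → χ z = 0) ∧
      ∀ z, χ z = 0 ∨ χ z = 1 := by
    refine ⟨fun z => if z ∈ R then 1 else 0, fun z hz => if_pos hz, fun z hz => if_neg hz,
      fun z => ?_⟩
    by_cases hz : z ∈ R
    · right; exact if_pos hz
    · left; exact if_neg hz
  obtain ⟨w, hw⟩ : ∃ w : ℤ × ℤ → ℤ × ℤ → ℤ, ∀ x d, w x d =
      if In m (cell x (x + d)) then 0 else d.1 * d.2 * (χ (x.1 + d.1, x.2) - χ (x.1, x.2 + d.2)) :=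
    ⟨_, fun _ _ => rfl⟩
  obtain ⟨D, hD⟩ : ∃ D : Finset (ℤ × ℤ), D = {(1, 1), (-1, 1), (-1, -1), (1, -1)} := ⟨_, rfl⟩
  have hDm : ∀ d ∈ D, (d.1 = 1 ∨ d.1 = -1) ∧ (d.2 = 1 ∨ d.2 = -1) := by
    intro d hd
    rw [hD] at hd
    simp only [Finset.mem_insert, Finset.mem_singleton] at hd
    rcases hd with rfl | rfl | rfl | rfl <;> simp
  have hDn : ∀ d ∈ D, -d ∈ D := by
    intro d hd
    rw [hD] at hd ⊢
    simp only [Finset.mem_insert, Finset.mem_singleton] at hd ⊢
    rcases hd with rfl | rfl | rfl | rfl <;> simp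
  have hdiag : ∀ x, ∀ d ∈ D, Diag x (x + d) := by
    intro x d hd
    obtain ⟨h1, h2⟩ := hDm d hd
    refine ⟨?_, ?_⟩
    · show x.1 + d.1 = x.1 + 1 ∨ x.1 + d.1 = x.1 - 1
      omega
    · show x.2 + d.2 = x.2 + 1 ∨ x.2 + d.2 = x.2 - 1
      omega
  -- antisymmetry
  have W1 : ∀ x d, w (x + d) (-d) = -w x d := by
    intro x d
    rw [hw, hw]
    have e1 : x + d + -d = x := by abel
    rw [e1, cell_comm (x + d) x]
    have e2 : ((x + d).1 + (-d).1, (x + d).2) = (x.1, x.2 + d.2) := by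
      ext
      · show x.1 + d.1 + -d.1 = x.1; ring
      · rfl
    have e3 : ((x + d).1, (x + d).2 + (-d).2) = (x.1 + d.1, x.2) := by
      ext
      · rfl
      · show x.2 + d.2 + -d.2 = x.2; ring
    rw [e2, e3]
    split_ifs
    · simp
    · show -d.1 * -d.2 * _ = _
      ring
  -- positive steps are allowed
  have W2 : ∀ x, ∀ d ∈ D, 0 < w x d → DSo m ω x (x + d) := by
    intro x d hd hpos
    rw [hw] at hpos
    by_cases hin : In m (cell x (x + d))
    · rw [if_pos hin] at hpos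
      exact absurd hpos (lt_irrefl _)
    rw [if_neg hin] at hpos
    refine ⟨⟨hdiag x d hd, ?_⟩, hin⟩
    -- the primal corners
    have ecell : ∀ (P Q : ℤ × ℤ), ((P = (x.1 + d.1, x.2) ∧ Q = (x.1, x.2 + d.2)) ∨
        (Q = (x.1 + d.1, x.2) ∧ P = (x.1, x.2 + d.2))) → cell P Q = cell x (x + d) ∧ Diag P Q := by
      obtain ⟨h1, h2⟩ := hDm d hd
      rintro P Q (⟨rfl, rfl⟩ | ⟨rfl, rfl⟩)
      · refine ⟨?_, ?_, ?_⟩
        · unfold cell
          ext
          · show min (x.1 + d.1) x.1 = min x.1 (x.1 + d.1); omega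
          · rfl
        · show x.1 = x.1 + d.1 + 1 ∨ x.1 = x.1 + d.1 - 1; omega
        · show x.2 + d.2 = x.2 + 1 ∨ x.2 + d.2 = x.2 - 1; omega
      · refine ⟨?_, ?_, ?_⟩
        · unfold cell
          ext
          · rfl
          · show min (x.2 + d.2) x.2 = min x.2 (x.2 + d.2); omega
        · show x.1 + d.1 = x.1 + 1 ∨ x.1 + d.1 = x.1 - 1; omega
        · show x.2 = x.2 + d.2 + 1 ∨ x.2 = x.2 + d.2 - 1; omega
    have hnot : ∀ (P Q : ℤ × ℤ), ((P = (x.1 + d.1, x.2) ∧ Q = (x.1, x.2 + d.2)) ∨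
        (Q = (x.1 + d.1, x.2) ∧ P = (x.1, x.2 + d.2))) → χ P = 1 → χ Q = 0 →
        ¬ (ω (cell x (x + d)) = true ↔ Q.1 = P.1 + 1) := by
      intro P Q hPQ hP hQ hiff
      obtain ⟨e1, e2⟩ := ecell P Q hPQ
      have hPR : P ∈ R := by
        by_contra h
        rw [hχ0 P h] at hP
        exact absurd hP (by norm_num)
      have hQR : Q ∉ R := by
        intro h
        rw [hχ1 Q h] at hQ
        exact absurd hQ (by norm_num)
      apply hQR
      refine F3 P Q hPR ⟨⟨e2, ?_⟩, ?_⟩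
      · rw [e1]; exact hiff
      · rw [e1]; exact hin
    obtain ⟨h1, h2⟩ := hDm d hd
    have c1 := hχ (x.1 + d.1, x.2)
    have c2 := hχ (x.1, x.2 + d.2)
    have n1 := hnot (x.1 + d.1, x.2) (x.1, x.2 + d.2) (Or.inl ⟨rfl, rfl⟩)
    have n2 := hnot (x.1, x.2 + d.2) (x.1 + d.1, x.2) (Or.inr ⟨rfl, rfl⟩)
    show ω (cell x (x + d)) = true ↔ x.2 + d.2 = x.2 + 1
    simp only at n1 n2
    generalize χ (x.1 + d.1, x.2) = A at hpos c1 c2 n1 n2
    generalize χ (x.1, x.2 + d.2) = B at hpos c1 c2 n1 n2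
    generalize ω (cell x (x + d)) = bb at n1 n2 ⊢
    rcases h1 with h1 | h1 <;> rcases h2 with h2 | h2 <;> rw [h1, h2] at hpos <;>
      rw [h1] at n1 n2 <;> rw [h2] <;>
      rcases c1 with rfl | rfl <;> rcases c2 with rfl | rfl <;>
      first
        | (exfalso; norm_num at hpos; done)
        | (have n3 := n1 rfl rfl
           clear n1 n2
           cases bb <;> simp at n3 ⊢ <;> done)
        | (have n3 := n1 rfl rfl
           clear n1 n2
           cases bb <;> simp at n3 ⊢ <;> omega)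
        | (have n3 := n2 rfl rfl
           clear n1 n2
           cases bb <;> simp at n3 ⊢ <;> done)
        | (have n3 := n2 rfl rfl
           clear n1 n2
           cases bb <;> simp at n3 ⊢ <;> omega)
  -- the reachable set
  obtain ⟨T, hT⟩ : ∃ T : Set (ℤ × ℤ), T = {x | ∃ s, Lft m s ∧
      Conn (fun x y => ∃ d ∈ D, y = x + d ∧ 0 < w x d) Set.univ s x} := ⟨_, rfl⟩
  have T1 : ∀ s, Lft m s → s ∈ T := by
    intro s hs
    rw [hT]
    exact ⟨s, hs, conn_refl _ _ _ (Set.mem_univ _)⟩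
  have T2 : ∀ x ∈ T, ∀ d ∈ D, 0 < w x d → x + d ∈ T := by
    intro x hx d hd hpos
    rw [hT] at hx ⊢
    obtain ⟨s, hs, hc⟩ := hx
    exact ⟨s, hs, conn_trans _ _ _ _ _ hc
      (conn_step _ _ _ _ (Set.mem_univ _) (Set.mem_univ _) ⟨d, hd, rfl, hpos⟩)⟩
  by_cases hR' : ∃ y ∈ T, Rgt m y
  · obtain ⟨y, hy, hyr⟩ := hR'
    rw [hT] at hy
    obtain ⟨s, hs, hc⟩ := hy
    refine ⟨s, y, hs, hyr, conn_mono _ _ _ _ _ _ (fun a b _ _ hab => ?_) (fun _ h => h) hc⟩
    obtain ⟨d, hd, rfl, hpos⟩ := hab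
    exact W2 a d hd hpos
  exfalso
  push Not at hR'
  have T3 : ∀ x ∈ T, (x.1 + x.2) % 2 = 1 := by
    intro x hx
    rw [hT] at hx
    obtain ⟨s, hs, hc⟩ := hx
    have h1 := cls_conn 1 _ (fun u v h => by
      obtain ⟨d, hd, rfl, _⟩ := h
      exact hdiag u d hd) Set.univ s x hc
    unfold Cls at h1
    have h2 : Even (s.1 + s.2 + 1) := by
      rw [Int.even_iff]
      have := hs.2.2.2
      omega
    have h3 := h1.1 h2
    rw [Int.even_iff] at h3
    omega
  have T4 : T.Finite := by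
    have h1 : {s | Lft m s}.Finite := by
      refine ((Set.finite_Icc (-(m : ℤ)) (m + 1)).image (fun i => (i, -(m : ℤ)))).subset ?_
      rintro ⟨i, j⟩ ⟨h1, h2, h3, _⟩
      exact ⟨i, ⟨h2, h3⟩, Prod.ext rfl h1.symm⟩
    have h2 : {x : ℤ × ℤ | ∃ z ∈ R, x = (z.1, z.2 + 1) ∨ x = (z.1, z.2 - 1) ∨ x = (z.1 + 1, z.2) ∨
        x = (z.1 - 1, z.2)}.Finite := by
      refine (hfin.biUnion (t := fun z => {(z.1, z.2 + 1), (z.1, z.2 - 1), (z.1 + 1, z.2),
        (z.1 - 1, z.2)}) (fun z _ => Set.toFinite _)).subset ?_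
      rintro x ⟨z, hz, h⟩
      refine Set.mem_iUnion₂.2 ⟨z, hz, ?_⟩
      simpa using h
    refine (h1.union h2).subset ?_
    intro x hx
    rw [hT] at hx
    obtain ⟨s, hs, n, f, hf, h0, hn⟩ := hx
    rcases Nat.eq_zero_or_pos n with hz | hz
    · left
      rw [hz, h0] at hn
      rw [← hn]
      exact hs
    · right
      obtain ⟨k, rfl⟩ : ∃ k, n = k + 1 := ⟨n - 1, by omega⟩
      obtain ⟨d, hd, he, hpos⟩ := hf.2 k (by omega)
      rw [hn] at he
      rw [hw] at hpos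
      obtain ⟨d1, d2⟩ := hDm d hd
      split_ifs at hpos
      · exact absurd hpos (lt_irrefl _)
      by_cases hA : ((f k).1 + d.1, (f k).2) ∈ R
      · refine ⟨_, hA, ?_⟩
        rcases d2 with d2 | d2
        · left; rw [he]; ext
          · rfl
          · show (f k).2 + d.2 = (f k).2 + 1; rw [d2]
        · right; left; rw [he]; ext
          · rfl
          · show (f k).2 + d.2 = (f k).2 - 1; rw [d2]; ring
      · by_cases hB : ((f k).1, (f k).2 + d.2) ∈ R
        · refine ⟨_, hB, ?_⟩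
          rcases d1 with d1 | d1
          · right; right; left; rw [he]; ext
            · show (f k).1 + d.1 = (f k).1 + 1; rw [d1]
            · rfl
          · right; right; right; rw [he]; ext
            · show (f k).1 + d.1 = (f k).1 - 1; rw [d1]; ring
            · rfl
        · exfalso
          rw [hχ0 _ hA, hχ0 _ hB] at hpos
          simp at hpos
  obtain ⟨TF, hTF⟩ : ∃ TF : Finset (ℤ × ℤ), ∀ x, x ∈ TF ↔ x ∈ T :=
    ⟨T4.toFinset, fun x => T4.mem_toFinset⟩
  -- the total divergence is at most `0`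
  have S1 : ∑ x ∈ TF, ∑ d ∈ D, w x d ≤ 0 := by
    have hsplit : ∑ x ∈ TF, ∑ d ∈ D, w x d =
        ∑ p ∈ (TF ×ˢ D).filter (fun p => p.1 + p.2 ∈ TF), w p.1 p.2 +
        ∑ p ∈ (TF ×ˢ D).filter (fun p => ¬ (p.1 + p.2 ∈ TF)), w p.1 p.2 := by
      rw [Finset.sum_filter_add_sum_filter_not, Finset.sum_product]
    rw [hsplit]
    have z1 : ∑ p ∈ (TF ×ˢ D).filter (fun p => p.1 + p.2 ∈ TF), w p.1 p.2 = 0 := by
      refine Finset.sum_involution (fun p _ => (p.1 + p.2, -p.2)) ?_ ?_ ?_ ?_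
      · intro p _
        simp only
        rw [W1]
        ring
      · intro p hp _ he
        simp only [Finset.mem_filter, Finset.mem_product] at hp
        obtain ⟨h1, _⟩ := hDm p.2 hp.1.2
        have := congrArg (fun q : (ℤ × ℤ) × (ℤ × ℤ) => q.2.1) he
        simp only [Prod.fst_neg] at this
        omega
      · intro p hp
        simp only [Finset.mem_filter, Finset.mem_product] at hp ⊢
        refine ⟨⟨hp.2, hDn _ hp.1.2⟩, ?_⟩
        rw [add_neg_cancel_right]
        exact hp.1.1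
      · intro p _
        simp
    rw [z1, zero_add]
    refine Finset.sum_nonpos fun p hp => ?_
    simp only [Finset.mem_filter, Finset.mem_product] at hp
    by_contra hcon
    push Not at hcon
    exact hp.2 ((hTF _).2 (T2 _ ((hTF _).1 hp.1.1) _ hp.1.2 hcon))
  -- the divergence at one point
  have hdiv : ∀ x, ∑ d ∈ D, w x d = w x (1, 1) + (w x (-1, 1) + (w x (-1, -1) + w x (1, -1))) := by
    intro x
    rw [hD, Finset.sum_insert (by decide), Finset.sum_insert (by decide),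
      Finset.sum_insert (by decide), Finset.sum_singleton]
  obtain ⟨H, hH⟩ : ∃ H : ℤ → ℤ, ∀ h, H h = if h ≤ m then χ (h, -(m : ℤ)) else 0 := ⟨_, fun _ => rfl⟩
  have V : ∀ x ∈ T, ∑ d ∈ D, w x d = if Lft m x then H (x.1 - 1) - H (x.1 + 1) else 0 := by
    intro x hx
    have hpar := T3 x hx
    have hnr := hR' x hx
    rw [hdiv, hw, hw, hw, hw]
    have e1 : cell x (x + (1, 1)) = (x.1, x.2) := by
      unfold cell; ext
      · show min x.1 (x.1 + 1) = x.1; omega
      · show min x.2 (x.2 + 1) = x.2; omega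
    have e2 : cell x (x + (-1, 1)) = (x.1 - 1, x.2) := by
      unfold cell; ext
      · show min x.1 (x.1 + -1) = x.1 - 1; omega
      · show min x.2 (x.2 + 1) = x.2; omega
    have e3 : cell x (x + (-1, -1)) = (x.1 - 1, x.2 - 1) := by
      unfold cell; ext
      · show min x.1 (x.1 + -1) = x.1 - 1; omega
      · show min x.2 (x.2 + -1) = x.2 - 1; omega
    have e4 : cell x (x + (1, -1)) = (x.1, x.2 - 1) := by
      unfold cell; ext
      · show min x.1 (x.1 + 1) = x.1; omega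
      · show min x.2 (x.2 + -1) = x.2 - 1; omega
    rw [e1, e2, e3, e4, hH, hH]
    obtain ⟨h, g⟩ := x
    simp only at hpar hnr ⊢
    -- facts on the neighbours
    have b1 : ¬ (h = -(m : ℤ) ∧ -(m : ℤ) ≤ g + 1 ∧ g + 1 ≤ m + 1) ∨ χ (h, g + 1) = 1 := by
      by_cases hc : h = -(m : ℤ) ∧ -(m : ℤ) ≤ g + 1 ∧ g + 1 ≤ m + 1
      · right
        exact hχ1 _ (F1 _ ⟨hc.1, hc.2.1, hc.2.2, by show (h + (g + 1)) % 2 = 0; omega⟩)
      · exact Or.inl hc
    have b2 : ¬ (h = -(m : ℤ) ∧ -(m : ℤ) ≤ g - 1 ∧ g - 1 ≤ m + 1) ∨ χ (h, g + -1) = 1 := by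
      by_cases hc : h = -(m : ℤ) ∧ -(m : ℤ) ≤ g - 1 ∧ g - 1 ≤ m + 1
      · right
        exact hχ1 _ (F1 _ ⟨hc.1, by show -(m : ℤ) ≤ g + -1; omega, by show g + -1 ≤ (m : ℤ) + 1; omega,
          by show (h + (g + -1)) % 2 = 0; omega⟩)
      · exact Or.inl hc
    have t1 : ¬ (h = (m : ℤ) + 1 ∧ -(m : ℤ) ≤ g + 1 ∧ g + 1 ≤ m + 1) ∨ χ (h, g + 1) = 0 := by
      by_cases hc : h = (m : ℤ) + 1 ∧ -(m : ℤ) ≤ g + 1 ∧ g + 1 ≤ m + 1
      · right
        refine hχ0 _ fun hmem => htop _ hmem ⟨hc.1, hc.2.1, hc.2.2, by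
          show (h + (g + 1)) % 2 = 0; omega⟩
      · exact Or.inl hc
    have t2 : ¬ (h = (m : ℤ) + 1 ∧ -(m : ℤ) ≤ g - 1 ∧ g - 1 ≤ m + 1) ∨ χ (h, g + -1) = 0 := by
      by_cases hc : h = (m : ℤ) + 1 ∧ -(m : ℤ) ≤ g - 1 ∧ g - 1 ≤ m + 1
      · right
        refine hχ0 _ fun hmem => htop _ hmem ⟨hc.1, by show -(m : ℤ) ≤ g + -1; omega,
          by show g + -1 ≤ (m : ℤ) + 1; omega, by show (h + (g + -1)) % 2 = 0; omega⟩
      · exact Or.inl hc
    unfold Rgt at hnr
    simp only at hnr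
    by_cases hl : g = -(m : ℤ) ∧ -(m : ℤ) ≤ h ∧ h ≤ m + 1
    · have hL : Lft m (h, g) := ⟨hl.1, hl.2.1, hl.2.2, hpar⟩
      rw [if_pos hL]
      obtain ⟨hg, hl2, hl3⟩ := hl
      rw [← hg]
      have e5 : (h - 1, g) = (h + -1, g) := rfl
      rw [e5]
      generalize χ (h + 1, g) = X1 at *
      generalize χ (h, g + 1) = X2 at *
      generalize χ (h + -1, g) = X3 at *
      generalize χ (h, g + -1) = X4 at *
      clear hw hχ1 hχ0 hχ F1 F3 F4 W1 W2 T1 T2 T3 T4 S1 hdiv hH hTF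
      unfold In
      simp only
      split_ifs <;> omega
    · have hL : ¬ Lft m (h, g) := fun hc => hl ⟨hc.1, hc.2.1, hc.2.2.1⟩
      rw [if_neg hL]
      generalize χ (h + 1, g) = X1 at *
      generalize χ (h, g + 1) = X2 at *
      generalize χ (h + -1, g) = X3 at *
      generalize χ (h, g + -1) = X4 at *
      clear hw hχ1 hχ0 hχ F1 F3 F4 W1 W2 T1 T2 T3 T4 S1 hdiv hH hTF
      unfold In
      simp only
      split_ifs <;> omega
  -- the total divergence is `1`
  have S2 : ∑ x ∈ TF, ∑ d ∈ D, w x d = 1 := by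
    rw [Finset.sum_congr rfl fun x hx => V x ((hTF x).1 hx)]
    rw [← Finset.sum_filter]
    have hset : TF.filter (fun x => Lft m x) =
        (Finset.range (m + 1)).image (fun t : ℕ => (-(m : ℤ) + 1 + 2 * t, -(m : ℤ))) := by
      ext x
      simp only [Finset.mem_filter, Finset.mem_image, Finset.mem_range]
      constructor
      · rintro ⟨_, h1, h2, h3, h4⟩
        refine ⟨((x.1 + m - 1) / 2).toNat, ?_, ?_⟩
        · omega
        · ext
          · show -(m : ℤ) + 1 + 2 * (((x.1 + m - 1) / 2).toNat : ℤ) = x.1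
            omega
          · exact h1.symm
      · rintro ⟨t, ht, rfl⟩
        have hL : Lft m (-(m : ℤ) + 1 + 2 * t, -(m : ℤ)) := by
          refine ⟨rfl, ?_, ?_, ?_⟩
          · show -(m : ℤ) ≤ -(m : ℤ) + 1 + 2 * t; omega
          · show -(m : ℤ) + 1 + 2 * t ≤ (m : ℤ) + 1; omega
          · show (-(m : ℤ) + 1 + 2 * t + -(m : ℤ)) % 2 = 1; omega
        exact ⟨(hTF _).2 (T1 _ hL), hL⟩
    rw [hset, Finset.sum_image (by
      intro s _ t _ hst
      have := congrArg Prod.fst hst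
      simp only at this
      omega)]
    have hterm : ∀ t ∈ Finset.range (m + 1), H (-(m : ℤ) + 1 + 2 * t - 1) -
        H (-(m : ℤ) + 1 + 2 * t + 1) = (fun t : ℕ => H (-(m : ℤ) + 2 * t)) t -
        (fun t : ℕ => H (-(m : ℤ) + 2 * t)) (t + 1) := by
      intro t _
      simp only
      congr 2
      · ring
      · push_cast; ring
    rw [Finset.sum_congr rfl hterm, Finset.sum_range_sub']
    rw [hH, hH, if_pos (by push_cast; omega), if_neg (by push_cast; omega), sub_zero]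
    refine hχ1 _ (F1 _ ⟨?_, ?_, ?_, ?_⟩)
    · show -(m : ℤ) + 2 * ((0 : ℕ) : ℤ) = -m; simp
    · exact le_rfl
    · show -(m : ℤ) ≤ m + 1; omega
    · show (-(m : ℤ) + 2 * ((0 : ℕ) : ℤ) + -m) % 2 = 0; push_cast; omega
  rw [S2] at S1
  exact absurd S1 (by norm_num)

end Pool.Agent.Helper50.CD
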