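import Pool.Agent.Helper95.DG.Inv
import Pool.Agent.Helper95.DG.MeasC

set_option autoImplicit false

/-!
# CD: definitions

`In m c`: the cell `c` lies in the square `[-m, m+1]²`. `PSo m ω`, `DSo m ω`: the primal and the dual rule
outside of this square. Bottom and top side: the even points with `h = -m`, `h = m + 1`; left and right
side: the odd points with `g = -m`, `g = m + 1`.
-/

namespace Pool.Agent.Helper50.CD

open Pool.Agent.Helper95.DG

/-- The cell lies in the square. -/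
def In (m : ℤ) (c : ℤ × ℤ) : Prop := -m ≤ c.1 ∧ c.1 ≤ m ∧ -m ≤ c.2 ∧ c.2 ≤ m

/-- Primal steps outside of the square. -/
def PSo (m : ℤ) (ω : ℤ × ℤ → Bool) (u v : ℤ × ℤ) : Prop := PS ω u v ∧ ¬ In m (cell u v)

/-- Dual steps outside of the square. -/
def DSo (m : ℤ) (ω : ℤ × ℤ → Bool) (u v : ℤ × ℤ) : Prop := DS ω u v ∧ ¬ In m (cell u v)

/-- The even points of the bottom side. -/
def Bot (m : ℤ) (a : ℤ × ℤ) : Prop :=
  a.1 = -m ∧ -m ≤ a.2 ∧ a.2 ≤ m + 1 ∧ (a.1 + a.2) % 2 = 0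

/-- The even points of the top side. -/
def Top (m : ℤ) (b : ℤ × ℤ) : Prop :=
  b.1 = m + 1 ∧ -m ≤ b.2 ∧ b.2 ≤ m + 1 ∧ (b.1 + b.2) % 2 = 0

/-- The odd points of the left side. -/
def Lft (m : ℤ) (x : ℤ × ℤ) : Prop :=
  x.2 = -m ∧ -m ≤ x.1 ∧ x.1 ≤ m + 1 ∧ (x.1 + x.2) % 2 = 1

/-- The odd points of the right side. -/
def Rgt (m : ℤ) (y : ℤ × ℤ) : Prop :=
  y.2 = m + 1 ∧ -m ≤ y.1 ∧ y.1 ≤ m + 1 ∧ (y.1 + y.2) % 2 = 1

/-- Primal connection from bottom to top outside of the square. -/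
def Up (m : ℤ) (ω : ℤ × ℤ → Bool) : Prop :=
  ∃ a b, Bot m a ∧ Top m b ∧ Conn (PSo m ω) Set.univ a b

/-- Dual connection from left to right outside of the square. -/
def UpD (m : ℤ) (ω : ℤ × ℤ → Bool) : Prop :=
  ∃ x y, Lft m x ∧ Rgt m y ∧ Conn (DSo m ω) Set.univ x y

/-- The points reached from the bottom side. -/
def Reach (m : ℤ) (ω : ℤ × ℤ → Bool) : Set (ℤ × ℤ) :=
  {z | ∃ a, Bot m a ∧ Conn (PSo m ω) Set.univ a z}

theorem cell_comm (u v : ℤ × ℤ) : cell u v = cell v u := by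
  unfold cell
  rw [min_comm u.1, min_comm u.2]

end Pool.Agent.Helper50.CD
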