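import Pool.Agent.Helper50.CD.Prob

set_option autoImplicit false

/-!
# CD: definitions, second part

`Rc c ω`: the edge of the cell `c` (the step between the two even corners) lies on an oriented circuit; `Rd c ω`:
the dual edge (the step between the two odd corners) lies on an oriented dual circuit. `Fw r S`, `Bw r S`: the
points reached from `S`, the points which reach `S`. `sB k m`, `sT k m`, `sL k m`, `sR k m`: the points of the
class `k` (`k = 0`: even, primal; `k = 1`: odd, dual) on the bottom (`h = -m`), top (`h = m + 1`), left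
(`g = -m`), right (`g = m + 1`) side of the square `[-m, m+1]²`.
-/

namespace Pool.Agent.Helper50.CD

open MeasureTheory
open scoped ENNReal NNReal
open Pool.Agent.Helper95.DG

/-- Even points. -/
def Ev (z : ℤ × ℤ) : Prop := (z.1 + z.2) % 2 = 0

/-- Odd points. -/
def Od (z : ℤ × ℤ) : Prop := (z.1 + z.2) % 2 = 1

/-- The edge of the cell `c` lies on an oriented circuit. -/
def Rc (c : ℤ × ℤ) (ω : ℤ × ℤ → Bool) : Prop :=
  ∃ u v, Ev u ∧ cell u v = c ∧ PS ω u v ∧ Conn (PS ω) Set.univ v u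

/-- The dual edge of the cell `c` lies on an oriented dual circuit. -/
def Rd (c : ℤ × ℤ) (ω : ℤ × ℤ → Bool) : Prop :=
  ∃ x y, Od x ∧ cell x y = c ∧ DS ω x y ∧ Conn (DS ω) Set.univ y x

/-- The forward cluster of a set. -/
def Fw (r : ℤ × ℤ → ℤ × ℤ → Prop) (S : Set (ℤ × ℤ)) : Set (ℤ × ℤ) :=
  {z | ∃ a ∈ S, Conn r Set.univ a z}

/-- The backward cluster of a set. -/
def Bw (r : ℤ × ℤ → ℤ × ℤ → Prop) (S : Set (ℤ × ℤ)) : Set (ℤ × ℤ) :=
  {z | ∃ a ∈ S, Conn r Set.univ z a}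

/-- The bottom side. -/
def sB (k m : ℤ) : Set (ℤ × ℤ) :=
  {z | z.1 = -m ∧ -m ≤ z.2 ∧ z.2 ≤ m + 1 ∧ (z.1 + z.2 + k) % 2 = 0}

/-- The top side. -/
def sT (k m : ℤ) : Set (ℤ × ℤ) :=
  {z | z.1 = m + 1 ∧ -m ≤ z.2 ∧ z.2 ≤ m + 1 ∧ (z.1 + z.2 + k) % 2 = 0}

/-- The left side. -/
def sL (k m : ℤ) : Set (ℤ × ℤ) :=
  {z | z.2 = -m ∧ -m ≤ z.1 ∧ z.1 ≤ m + 1 ∧ (z.1 + z.2 + k) % 2 = 0}

/-- The right side. -/
def sR (k m : ℤ) : Set (ℤ × ℤ) :=
  {z | z.2 = m + 1 ∧ -m ≤ z.1 ∧ z.1 ≤ m + 1 ∧ (z.1 + z.2 + k) % 2 = 0}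

/-- The probability that an edge lies on an oriented circuit. -/
noncomputable def rho (p : ℝ≥0) (hp : p ≤ 1) : ℝ := Pr p hp {ω | Rc (0, 0) ω}

end Pool.Agent.Helper50.CD
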