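import Pool.Agent.Helper50.CD.Energy

set_option autoImplicit false

/-!
# CD-D: the downward crossings and the circuit through a cell

`Dn m ω`: a primal connection from the top side to the bottom side outside of the square.
`pr_not`: the image of `mu p` under the negation of all bits is `mu (1 - p)` (copy the private lemmas `bern_not`,
`not_law` of `Helper95/DG/Coord.lean`).
`dn_iff`: `PS_not` (`PS (fun c => !(ω c)) u w ↔ PS ω w u`), `cell_comm` and `conn_reverse`.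
`th_not`: `th (1 - p) = th p`: by `pr_not` and `Pr_comp` for the point reflection (`PS_rot` in `Helper95/DG/Inv.lean`: cells
`(i, j) ↦ (-i-1, -j-1)`, points `z ↦ -z`, step reversed): `PS (fun c => !(ω (-c.1-1, -c.2-1))) u w ↔ PS ω (-u) (-w)`
(`flip_step` in `Coord.lean`), so the cluster of `(0,0)` for this configuration is the image of the cluster for `ω` under
`z ↦ -z`.
`dn_le`, `dn_ge`: `up_le`, `up_ge` (Prob.lean) for `1 - p`.
`rc_split`: the even corners of the cell `(0, 0)` are `(0, 0)` and `(1, 1)`. If the bit is `true` the only step in the cell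
between even points is `(0,0) → (1,1)`, so `Rc (0,0) ω` iff `Conn (PS ω) univ (1,1) (0,0)`. Given a walk `f` from `(1,1)` to
`(0,0)`: take the first index `n` with `f n = (0,0)`; if some step `f i → f (i+1)`, `i < n`, has cell `(0,0)` then (all `f i`
are even) it is the step `(0,0) → (1,1)` and `f i = (0,0)` contradicts the choice of `n`. So all steps up to `n` are steps
of `PSo 0 ω` (`In 0 c ↔ c = (0,0)`) and `Dn 0 ω` holds; `Bot 0 a ↔ a = (0,0)`, `Top 0 b ↔ b = (1,1)`. The converse is clear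
(`conn_mono`). Same for the bit `false` with `Up 0 ω`.
`rho_eq`: `Dn 0 ω`, `Up 0 ω` are determined by the cells outside of `(0,0)` (`Dep {ω | Dn 0 ω} {c | ¬ In 0 c}`, `conn_congr`),
`indep` and `pr_bit`.
-/

namespace Pool.Agent.Helper50.CD

open MeasureTheory
open scoped ENNReal NNReal
open Pool.Agent.Helper95.DG

/-- Primal connection from top to bottom outside of the square. -/
def Dn (m : ℤ) (ω : ℤ × ℤ → Bool) : Prop :=
  ∃ a b, Bot m a ∧ Top m b ∧ Conn (PSo m ω) Set.univ b a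

private lemma bern_not (p : ℝ≥0) (hp : p ≤ 1) :
    ((PMF.bernoulli p hp).toMeasure).map (fun b => !b) =
      (PMF.bernoulli (1 - p) tsub_le_self).toMeasure := by
  refine Measure.ext_of_singleton ?_
  intro b
  rw [Measure.map_apply (by fun_prop) (measurableSet_singleton b)]
  have e : (fun b : Bool => !b) ⁻¹' {b} = {!b} := by
    ext x
    simp only [Set.mem_preimage, Set.mem_singleton_iff]
    cases x <;> cases b <;> decide
  rw [e, PMF.toMeasure_apply_singleton _ _ (measurableSet_singleton _),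
    PMF.toMeasure_apply_singleton _ _ (measurableSet_singleton _), PMF.bernoulli_apply,
    PMF.bernoulli_apply]
  have h1 : ((1 - (1 - p) : ℝ≥0) : ℝ≥0) = p := tsub_tsub_cancel_of_le hp
  cases b
  · simp only [Bool.not_false, cond_true, cond_false, h1]
  · simp only [Bool.not_true, cond_true, cond_false]

private lemma not_law (p : ℝ≥0) (hp : p ≤ 1) :
    (mu p hp).map (fun ω c => !(ω c)) = mu (1 - p) tsub_le_self := by
  unfold mu
  have h := Measure.infinitePi_map_pi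
    (μ := fun _ : ℤ × ℤ => (PMF.bernoulli p hp).toMeasure) (f := fun _ (b : Bool) => !b)
    (fun _ => by fun_prop)
  rw [h]
  simp only [bern_not]

private lemma meas_inf : MeasurableSet
    {ω : ℤ × ℤ → Bool | {v : ℤ × ℤ | Conn (PS ω) Set.univ (0, 0) v}.Infinite} := by
  have e : {ω : ℤ × ℤ → Bool | {v : ℤ × ℤ | Conn (PS ω) Set.univ (0, 0) v}.Infinite} =
      ⋂ F : Finset (ℤ × ℤ), ⋃ v : ℤ × ℤ, ⋃ _ : v ∉ F,
        {ω : ℤ × ℤ → Bool | Conn (PS ω) Set.univ (0, 0) v} := by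
    ext ω
    simp only [Set.mem_iInter, Set.mem_iUnion, exists_prop]
    constructor
    · intro h F
      obtain ⟨v, hv, hF⟩ := Set.Infinite.exists_notMem_finset h F
      exact ⟨v, hF, hv⟩
    · intro h hfin
      obtain ⟨v, hv, hc⟩ := h hfin.toFinset
      exact hv (hfin.mem_toFinset.mpr hc)
  rw [e]
  exact MeasurableSet.iInter fun F => MeasurableSet.iUnion fun v => MeasurableSet.iUnion
    fun _ => meas_conn_PS _ _ _

private lemma flip_step (ω : ℤ × ℤ → Bool) (u w : ℤ × ℤ) :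
    PS (fun c => !(ω (-c.1 - 1, -c.2 - 1))) u w ↔ PS ω (-u) (-w) :=
  (PS_not (fun c => ω (-c.1 - 1, -c.2 - 1)) u w).trans (PS_rot ω w u)

private lemma flip_conn (ω : ℤ × ℤ → Bool) (v : ℤ × ℤ) :
    Conn (PS (fun c => !(ω (-c.1 - 1, -c.2 - 1)))) Set.univ (0, 0) v ↔
      Conn (PS ω) Set.univ (0, 0) (-v) := by
  have h0 : -((0, 0) : ℤ × ℤ) = (0, 0) := by
    ext <;> simp
  constructor
  · intro h
    have h1 := conn_map _ (PS ω) Set.univ Set.univ (fun z => -z)
      (fun x y hxy => (flip_step ω x y).mp hxy) (fun x _ => Set.mem_univ _) _ _ h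
    simp only [h0] at h1
    exact h1
  · intro h
    have h1 := conn_map _ (PS (fun c => !(ω (-c.1 - 1, -c.2 - 1)))) Set.univ Set.univ (fun z => -z)
      (fun x y hxy => (flip_step ω (-x) (-y)).mpr (by rw [neg_neg, neg_neg]; exact hxy))
      (fun x _ => Set.mem_univ _) _ _ h
    simp only [h0, neg_neg] at h1
    exact h1

private def sg : (ℤ × ℤ) ≃ (ℤ × ℤ) where
  toFun c := (-c.1 - 1, -c.2 - 1)
  invFun c := (-c.1 - 1, -c.2 - 1)
  left_inv c := by ext <;> simp
  right_inv c := by ext <;> simp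

theorem pr_not (p : ℝ≥0) (hp : p ≤ 1) {A : Set (ℤ × ℤ → Bool)} (hA : MeasurableSet A) :
    Pr p hp {ω | (fun c => !(ω c)) ∈ A} = Pr (1 - p) tsub_le_self A := by
  unfold Pr
  rw [← not_law p hp, map_measureReal_apply (by fun_prop) hA]
  rfl

private lemma pso_not (m : ℤ) (ω : ℤ × ℤ → Bool) (u w : ℤ × ℤ) :
    PSo m (fun c => !(ω c)) u w ↔ PSo m ω w u := by
  unfold PSo
  rw [PS_not, cell_comm u w]

theorem dn_iff (m : ℤ) (ω : ℤ × ℤ → Bool) : Dn m ω ↔ Up m (fun c => !(ω c)) := by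
  constructor
  · rintro ⟨a, b, ha, hb, hc⟩
    refine ⟨a, b, ha, hb, ?_⟩
    exact conn_mono _ _ _ _ _ _ (fun x y _ _ h => (pso_not m ω x y).mpr h) (fun _ h => h)
      (conn_reverse _ _ _ _ hc)
  · rintro ⟨a, b, ha, hb, hc⟩
    refine ⟨a, b, ha, hb, ?_⟩
    exact conn_mono _ _ _ _ _ _ (fun x y _ _ h => (pso_not m ω y x).mp h) (fun _ h => h)
      (conn_reverse _ _ _ _ hc)

theorem th_not (p : ℝ≥0) (hp : p ≤ 1) : th (1 - p) tsub_le_self = th p hp := by
  unfold th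
  rw [← pr_not p hp meas_inf]
  have hA : MeasurableSet {ω : ℤ × ℤ → Bool | (fun c => !(ω c)) ∈
      {ω : ℤ × ℤ → Bool | {v : ℤ × ℤ | Conn (PS ω) Set.univ (0, 0) v}.Infinite}} := by
    have hm : Measurable (fun (ω : ℤ × ℤ → Bool) (c : ℤ × ℤ) => !(ω c)) := by fun_prop
    exact hm meas_inf
  rw [← Pr_comp p hp sg hA]
  congr 1
  ext ω
  have e : {v : ℤ × ℤ | Conn (PS (fun c => !(ω (sg c)))) Set.univ (0, 0) v} =
      (fun z => -z) ⁻¹' {v : ℤ × ℤ | Conn (PS ω) Set.univ (0, 0) v} := by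
    ext v
    exact flip_conn ω v
  change {v : ℤ × ℤ | Conn (PS (fun c => !(ω (sg c)))) Set.univ (0, 0) v}.Infinite ↔ _
  rw [e]
  have e2 : (fun z : ℤ × ℤ => -z) ⁻¹' {v : ℤ × ℤ | Conn (PS ω) Set.univ (0, 0) v} =
      (fun z : ℤ × ℤ => -z) '' {v : ℤ × ℤ | Conn (PS ω) Set.univ (0, 0) v} := by
    ext v
    constructor
    · intro h
      exact ⟨-v, h, neg_neg v⟩
    · rintro ⟨z, h, rfl⟩
      simpa using h
  rw [e2]
  exact Set.infinite_image_iff (neg_injective.injOn)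

private lemma dn_set (m : ℤ) : {ω : ℤ × ℤ → Bool | Dn m ω} =
    {ω | (fun c => !(ω c)) ∈ {ω : ℤ × ℤ → Bool | Up m ω}} := by
  ext ω
  exact dn_iff m ω

theorem dn_le (p : ℝ≥0) (hp : p ≤ 1) (m : ℕ) : Pr p hp {ω | Dn m ω} ≤ 1 / 2 := by
  rw [dn_set, pr_not p hp (meas_Up m)]
  exact up_le _ _ m

theorem dn_ge (p : ℝ≥0) (hp : p ≤ 1) (m : ℕ) :
    1 / 2 - (m + 1) * th p hp / 2 ≤ Pr p hp {ω | Dn m ω} := by
  rw [dn_set, pr_not p hp (meas_Up m), ← th_not p hp]
  exact up_ge _ _ m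

private lemma in_zero {c : ℤ × ℤ} (h : In 0 c) : c = (0, 0) := by
  unfold In at h
  ext <;> simp only <;> omega

private lemma bot_zero {a : ℤ × ℤ} (h : Bot 0 a) : a = (0, 0) := by
  unfold Bot at h
  ext <;> simp only <;> omega

private lemma top_zero {a : ℤ × ℤ} (h : Top 0 a) : a = (1, 1) := by
  unfold Top at h
  ext <;> simp only <;> omega

private lemma conn_avoid (ω : ℤ × ℤ → Bool) (s t : ℤ × ℤ) (hs : Ev s)
    (hr : ∀ x y, Ev x → PS ω x y → In 0 (cell x y) → x = t)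
    (h : Conn (PS ω) Set.univ s t) : Conn (PSo 0 ω) Set.univ s t := by
  classical
  obtain ⟨n, f, hf, h0, hn⟩ := h
  have hex : ∃ k, f k = t := ⟨n, hn⟩
  have hle : Nat.find hex ≤ n := Nat.find_min' hex hn
  have hev : ∀ i ≤ n, Ev (f i) := by
    intro i
    induction i with
    | zero => intro _; rw [h0]; exact hs
    | succ i ih =>
      intro hi
      have h1 := ih (by omega)
      have h2 := (hf.2 i (by omega)).1
      unfold Diag at h2
      unfold Ev at h1 ⊢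
      omega
  refine ⟨Nat.find hex, f, ⟨fun i _ => Set.mem_univ _, fun i hi => ⟨hf.2 i (by omega), ?_⟩⟩, h0,
    Nat.find_spec hex⟩
  intro hin
  exact Nat.find_min hex hi (hr _ _ (hev i (by omega)) (hf.2 i (by omega)) hin)

private lemma step_true {ω : ℤ × ℤ → Bool} (hω : ω (0, 0) = true) {x y : ℤ × ℤ} (hx : Ev x)
    (h : PS ω x y) (hc : cell x y = (0, 0)) : x = (0, 0) ∧ y = (1, 1) := by
  obtain ⟨h1, h2⟩ := h
  rw [hc] at h2
  have h3 := h2.mp hω
  unfold Diag at h1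
  unfold Ev at hx
  unfold cell at hc
  simp only [Prod.mk.injEq] at hc
  obtain ⟨x1, x2⟩ := x
  obtain ⟨y1, y2⟩ := y
  simp only [Prod.mk.injEq] at *
  omega

private lemma step_false {ω : ℤ × ℤ → Bool} (hω : ω (0, 0) = false) {x y : ℤ × ℤ} (hx : Ev x)
    (h : PS ω x y) (hc : cell x y = (0, 0)) : x = (1, 1) ∧ y = (0, 0) := by
  obtain ⟨h1, h2⟩ := h
  rw [hc] at h2
  have h3 : ¬ y.1 = x.1 + 1 := fun h => by
    have := h2.mpr h
    rw [hω] at this
    exact absurd this (by decide)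
  unfold Diag at h1
  unfold Ev at hx
  unfold cell at hc
  simp only [Prod.mk.injEq] at hc
  obtain ⟨x1, x2⟩ := x
  obtain ⟨y1, y2⟩ := y
  simp only [Prod.mk.injEq] at *
  omega

private lemma pso_ps {m : ℤ} {ω : ℤ × ℤ → Bool} {u v : ℤ × ℤ} (h : Conn (PSo m ω) Set.univ u v) :
    Conn (PS ω) Set.univ u v :=
  conn_mono _ _ _ _ _ _ (fun _ _ _ _ h => h.1) (fun _ h => h) h

theorem rc_split (ω : ℤ × ℤ → Bool) :
    Rc (0, 0) ω ↔ (ω (0, 0) = true ∧ Dn 0 ω) ∨ (ω (0, 0) = false ∧ Up 0 ω) := by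
  have hbot : Bot 0 (0, 0) := by unfold Bot; simp
  have htop : Top 0 (1, 1) := by unfold Top; simp
  constructor
  · rintro ⟨u, v, hu, hc, hs, hconn⟩
    cases hω : ω (0, 0) with
    | true =>
      left
      obtain ⟨rfl, rfl⟩ := step_true hω hu hs hc
      refine ⟨rfl, (0, 0), (1, 1), hbot, htop, conn_avoid ω _ _ (by unfold Ev; decide) ?_ hconn⟩
      intro x y hx hxy hin
      exact (step_true hω hx hxy (in_zero hin)).1
    | false =>
      right
      obtain ⟨rfl, rfl⟩ := step_false hω hu hs hc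
      refine ⟨rfl, (0, 0), (1, 1), hbot, htop, conn_avoid ω _ _ (by unfold Ev; decide) ?_ hconn⟩
      intro x y hx hxy hin
      exact (step_false hω hx hxy (in_zero hin)).1
  · rintro (⟨hω, a, b, ha, hb, hc⟩ | ⟨hω, a, b, ha, hb, hc⟩)
    · rw [bot_zero ha, top_zero hb] at hc
      refine ⟨(0, 0), (1, 1), by unfold Ev; decide, by unfold cell; decide, ⟨?_, ?_⟩, pso_ps hc⟩
      · unfold Diag; decide
      · have e : cell (0, 0) (1, 1) = (0, 0) := by unfold cell; decide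
        rw [e, hω]
        simp
    · rw [bot_zero ha, top_zero hb] at hc
      refine ⟨(1, 1), (0, 0), by unfold Ev; decide, by unfold cell; decide, ⟨?_, ?_⟩, pso_ps hc⟩
      · unfold Diag; decide
      · have e : cell (1, 1) (0, 0) = (0, 0) := by unfold cell; decide
        rw [e, hω]
        simp

private lemma dep_gen (m : ℤ) (P : ℤ × ℤ → ℤ × ℤ → Prop) :
    Dep {ω : ℤ × ℤ → Bool | ∃ a b, P a b ∧ Conn (PSo m ω) Set.univ a b} {c | ¬ In m c} := by
  have key : ∀ ω ω' : ℤ × ℤ → Bool, (∀ c ∈ {c | ¬ In m c}, ω c = ω' c) → ∀ a b,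
      Conn (PSo m ω) Set.univ a b → Conn (PSo m ω') Set.univ a b := by
    intro ω ω' h a b hc
    refine conn_mono _ _ _ _ _ _ (fun x y _ _ hxy => ?_) (fun _ h => h) hc
    refine ⟨⟨hxy.1.1, ?_⟩, hxy.2⟩
    rw [← h _ hxy.2]
    exact hxy.1.2
  intro ω ω' h
  constructor
  · rintro ⟨a, b, h1, h2⟩
    exact ⟨a, b, h1, key ω ω' h a b h2⟩
  · rintro ⟨a, b, h1, h2⟩
    exact ⟨a, b, h1, key ω' ω (fun c hc => (h c hc).symm) a b h2⟩

private lemma dep_up (m : ℤ) : Dep {ω : ℤ × ℤ → Bool | Up m ω} {c | ¬ In m c} := by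
  have h := dep_gen m (fun a b => Bot m a ∧ Top m b)
  have e : {ω : ℤ × ℤ → Bool | Up m ω} =
      {ω : ℤ × ℤ → Bool | ∃ a b, (Bot m a ∧ Top m b) ∧ Conn (PSo m ω) Set.univ a b} := by
    ext ω
    simp only [Set.mem_setOf_eq, Up, and_assoc]
  rw [e]
  exact h

private lemma dep_dn (m : ℤ) : Dep {ω : ℤ × ℤ → Bool | Dn m ω} {c | ¬ In m c} := by
  intro ω ω' h
  have h1 := dep_up m (fun c => !(ω c)) (fun c => !(ω' c)) (fun c hc => by rw [h c hc])
  exact ((dn_iff m ω).trans h1).trans (dn_iff m ω').symm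

private lemma meas_dn (m : ℤ) : MeasurableSet {ω : ℤ × ℤ → Bool | Dn m ω} := by
  rw [dn_set]
  have hm : Measurable (fun (ω : ℤ × ℤ → Bool) (c : ℤ × ℤ) => !(ω c)) := by fun_prop
  exact hm (meas_Up m)

theorem rho_eq (p : ℝ≥0) (hp : p ≤ 1) :
    rho p hp = p * Pr p hp {ω | Dn 0 ω} + (1 - p) * Pr p hp {ω | Up 0 ω} := by
  have hmt : MeasurableSet {ω : ℤ × ℤ → Bool | ω (0, 0) = true} := meas_bit (0, 0) (fun b => b = true)
  have hmf : MeasurableSet {ω : ℤ × ℤ → Bool | ω (0, 0) = false} := meas_bit (0, 0) (fun b => b = false)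
  have hdt : Dep {ω : ℤ × ℤ → Bool | ω (0, 0) = true} {c | In 0 c} := by
    intro ω ω' h
    have := h (0, 0) (by unfold In; simp)
    simp only [Set.mem_setOf_eq, this]
  have hdf : Dep {ω : ℤ × ℤ → Bool | ω (0, 0) = false} {c | In 0 c} := by
    intro ω ω' h
    have := h (0, 0) (by unfold In; simp)
    simp only [Set.mem_setOf_eq, this]
  have hdisj : Disjoint {c : ℤ × ℤ | In 0 c} {c | ¬ In 0 c} := by
    rw [Set.disjoint_left]
    intro c h1 h2
    exact h2 h1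
  have hpf : Pr p hp {ω : ℤ × ℤ → Bool | ω (0, 0) = false} = 1 - p := by
    have e : {ω : ℤ × ℤ → Bool | ω (0, 0) = false} = {ω : ℤ × ℤ → Bool | ω (0, 0) = true}ᶜ := by
      ext ω
      simp
    rw [e, Pr_compl p hp hmt, pr_bit]
  have e : {ω : ℤ × ℤ → Bool | Rc (0, 0) ω} =
      ({ω : ℤ × ℤ → Bool | ω (0, 0) = true} ∩ {ω | Dn 0 ω}) ∪
      ({ω : ℤ × ℤ → Bool | ω (0, 0) = false} ∩ {ω | Up 0 ω}) := by
    ext ω
    exact rc_split ω
  have hd2 : Disjoint ({ω : ℤ × ℤ → Bool | ω (0, 0) = true} ∩ {ω | Dn 0 ω})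
      ({ω : ℤ × ℤ → Bool | ω (0, 0) = false} ∩ {ω | Up 0 ω}) := by
    rw [Set.disjoint_left]
    rintro ω ⟨h1, _⟩ ⟨h2, _⟩
    simp only [Set.mem_setOf_eq] at h1 h2
    rw [h1] at h2
    exact absurd h2 (by decide)
  have h1 := indep p hp hmt (meas_dn 0) hdt (dep_dn 0) hdisj
  have h2 := indep p hp hmf (meas_Up 0) hdf (dep_up 0) hdisj
  rw [pr_bit] at h1
  rw [hpf] at h2
  unfold rho
  rw [e, ← h1, ← h2]
  unfold Pr
  exact measureReal_union hd2 (hmf.inter (meas_Up 0))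

theorem rho_ge (p : ℝ≥0) (hp : p ≤ 1) : (1 - th p hp) / 2 ≤ rho p hp := by
  have h1 := dn_ge p hp 0
  have h2 := up_ge p hp 0
  simp only [Nat.cast_zero, zero_add, one_mul] at h1 h2
  have hp0 : (0 : ℝ) ≤ p := p.2
  have hp1 : (p : ℝ) ≤ 1 := by exact_mod_cast hp
  rw [rho_eq]
  have h3 := mul_le_mul_of_nonneg_left h1 hp0
  have h4 := mul_le_mul_of_nonneg_left h2 (sub_nonneg.2 hp1)
  have h5 : (p : ℝ) * (1 / 2 - th p hp / 2) + (1 - (p : ℝ)) * (1 / 2 - th p hp / 2) = (1 - th p hp) / 2 := by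
    ring
  linarith

end Pool.Agent.Helper50.CD
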