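import Pool.Agent.Helper50.CD.Defs2

set_option autoImplicit false

/-!
# CD-N: finite energy

`energy`: `E` depends on the cells outside of the square only; the event that the finitely many cells of the square have
given values has positive probability for `0 < p < 1` (a product of factors `p`, `1 - p`: `Measure.infinitePi_pi` for the
finite set of the cells with `In m`, or `indep`/induction over the finite set); by `indep` the probability of the
intersection is the product. (Look at `Pr_comp` in `Helper95/DG/Inv.lean` and `not_law` in `Helper95/DG/Coord.lean` for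
the measure.)
`rho_one`, `rho_zero`: for `p = 1` almost surely all bits are `true` (countable intersection of events of probability 1),
then every step of `PS ω` increases `h`, so there is no circuit: `Rc (0,0) ω` fails (`PS ω u v` gives `v.1 = u.1 + 1`,
a walk from `v` to `u` gives `v.1 ≤ u.1`). For `p = 0` all bits are `false` and every step decreases `h`.
`pr_bit`: `Pr {ω | ω c = true} = p`.
-/

namespace Pool.Agent.Helper50.CD

open MeasureTheory
open scoped ENNReal NNReal
open Pool.Agent.Helper95.DG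

theorem pr_bit (p : ℝ≥0) (hp : p ≤ 1) (c : ℤ × ℤ) :
    Pr p hp {ω | ω c = true} = p := by
  have e : {ω : ℤ × ℤ → Bool | ω c = true} =
      (fun ω : ℤ × ℤ → Bool => ω c) ⁻¹' ({true} : Set Bool) := by
    ext ω
    simp
  have h : (mu p hp).map (fun ω : ℤ × ℤ → Bool => ω c) = (PMF.bernoulli p hp).toMeasure := by
    unfold mu
    exact Measure.infinitePi_map_eval (fun _ : ℤ × ℤ => (PMF.bernoulli p hp).toMeasure) c
  unfold Pr
  rw [e, measureReal_def, ← Measure.map_apply (measurable_pi_apply c) (measurableSet_singleton true),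
    h, PMF.toMeasure_apply_singleton _ _ (measurableSet_singleton _), PMF.bernoulli_apply]
  simp

theorem energy (p : ℝ≥0) (hp : p ≤ 1) (h0 : 0 < p) (h1 : p < 1) (m : ℤ)
    (E : Set (ℤ × ℤ → Bool)) (hE : MeasurableSet E) (hd : Dep E {c | ¬ In m c})
    (pat : ℤ × ℤ → Bool) (hpos : 0 < Pr p hp E) :
    0 < Pr p hp (E ∩ {ω | ∀ c, In m c → ω c = pat c}) := by
  obtain ⟨F, hF⟩ : ∃ F : Finset (ℤ × ℤ), ∀ c, c ∈ F ↔ In m c := by
    refine ⟨(Finset.Icc (-m) m) ×ˢ (Finset.Icc (-m) m), fun c => ?_⟩
    rw [Finset.mem_product, Finset.mem_Icc, Finset.mem_Icc]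
    unfold In
    tauto
  have e : {ω : ℤ × ℤ → Bool | ∀ c, In m c → ω c = pat c} =
      Set.pi (F : Set (ℤ × ℤ)) (fun c => {pat c}) := by
    ext ω
    simp only [Set.mem_ofPred_eq, Set.mem_pi, Finset.mem_coe, hF, Set.mem_singleton_iff]
  have hm : MeasurableSet {ω : ℤ × ℤ → Bool | ∀ c, In m c → ω c = pat c} := by
    rw [e]
    exact MeasurableSet.pi F.countable_toSet fun c _ => measurableSet_singleton _
  have hdep : Dep {ω : ℤ × ℤ → Bool | ∀ c, In m c → ω c = pat c} {c | In m c} := by
    intro ω ω' h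
    exact forall_congr' fun c => ⟨fun h2 h3 => (h c h3).symm.trans (h2 h3),
      fun h2 h3 => (h c h3).trans (h2 h3)⟩
  rw [indep p hp hE hm hd hdep (Set.disjoint_left.2 fun c h2 h3 => h2 h3)]
  refine mul_pos hpos ?_
  unfold Pr mu
  rw [e, measureReal_def, Measure.infinitePi_pi _ (fun c _ => measurableSet_singleton _)]
  refine ENNReal.toReal_pos ?_ ?_
  · rw [Finset.prod_ne_zero_iff]
    intro c _
    rw [PMF.toMeasure_apply_singleton _ _ (measurableSet_singleton _), PMF.bernoulli_apply]
    cases pat c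
    · simp only [Bool.cond_false]
      exact ENNReal.coe_ne_zero.2 (tsub_pos_of_lt h1).ne'
    · simp only [Bool.cond_true]
      exact ENNReal.coe_ne_zero.2 h0.ne'
  · refine ENNReal.prod_ne_top fun c _ => measure_ne_top _ _

private lemma up_conn (ω : ℤ × ℤ → Bool) (h : ∀ c, ω c = true) (u v : ℤ × ℤ)
    (hc : Conn (PS ω) Set.univ u v) : u.1 ≤ v.1 := by
  obtain ⟨n, f, hf, rfl, rfl⟩ := hc
  have key : ∀ i ≤ n, (f 0).1 ≤ (f i).1 := by
    intro i
    induction i with
    | zero => intro _; exact le_rfl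
    | succ i ih =>
      intro hi
      have h1 := ih (by omega)
      have h2 := (hf.2 i (by omega)).2.1 (h _)
      omega
  exact key n le_rfl

private lemma down_conn (ω : ℤ × ℤ → Bool) (h : ∀ c, ω c = false) (u v : ℤ × ℤ)
    (hc : Conn (PS ω) Set.univ u v) : v.1 ≤ u.1 := by
  obtain ⟨n, f, hf, rfl, rfl⟩ := hc
  have key : ∀ i ≤ n, (f i).1 ≤ (f 0).1 := by
    intro i
    induction i with
    | zero => intro _; exact le_rfl
    | succ i ih =>
      intro hi
      have h1 := ih (by omega)
      have h2 := hf.2 i (by omega)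
      have h3 : ¬ (f (i + 1)).1 = (f i).1 + 1 := by
        intro h4
        have h5 := h2.2.2 h4
        rw [h] at h5
        exact Bool.false_ne_true h5
      have h4 := h2.1.1
      omega
  exact key n le_rfl

theorem rho_one : rho 1 le_rfl = 0 := by
  unfold rho
  have h1 : {ω : ℤ × ℤ → Bool | Rc (0, 0) ω} ⊆ ⋃ c : ℤ × ℤ, {ω : ℤ × ℤ → Bool | ω c = true}ᶜ := by
    rintro ω ⟨u, v, -, -, h, hc⟩
    by_contra hcon
    have hall : ∀ c, ω c = true := by
      intro c
      by_contra h2
      exact hcon (Set.mem_iUnion.2 ⟨c, h2⟩)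
    have h2 := up_conn ω hall v u hc
    have h3 := h.2.1 (hall _)
    omega
  have h2 : mu 1 le_rfl {ω : ℤ × ℤ → Bool | Rc (0, 0) ω} = 0 := by
    refine measure_mono_null h1 ?_
    rw [measure_iUnion_null_iff]
    intro c
    have hm : MeasurableSet {ω : ℤ × ℤ → Bool | ω c = true} :=
      measurableSet_eq_fun (measurable_pi_apply c) measurable_const
    have h3 := Pr_compl 1 le_rfl hm
    rw [pr_bit] at h3
    unfold Pr at h3
    rw [measureReal_def] at h3
    have h4 : (mu 1 le_rfl {ω : ℤ × ℤ → Bool | ω c = true}ᶜ).toReal = 0 := by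
      rw [h3]; simp
    rcases (ENNReal.toReal_eq_zero_iff _).1 h4 with h5 | h5
    · exact h5
    · exact absurd h5 (measure_ne_top _ _)
  unfold Pr
  rw [measureReal_def, h2]
  rfl

theorem rho_zero : rho 0 zero_le_one = 0 := by
  unfold rho
  have h1 : {ω : ℤ × ℤ → Bool | Rc (0, 0) ω} ⊆ ⋃ c : ℤ × ℤ, {ω : ℤ × ℤ → Bool | ω c = true} := by
    rintro ω ⟨u, v, -, -, h, hc⟩
    by_contra hcon
    have hall : ∀ c, ω c = false := by
      intro c
      by_contra h2
      exact hcon (Set.mem_iUnion.2 ⟨c, by rw [Bool.not_eq_false] at h2; exact h2⟩)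
    have h2 := down_conn ω hall v u hc
    have h3 : ¬ v.1 = u.1 + 1 := by
      intro h4
      have h5 := h.2.2 h4
      rw [hall] at h5
      exact Bool.false_ne_true h5
    have h4 := h.1.1
    omega
  have h2 : mu 0 zero_le_one {ω : ℤ × ℤ → Bool | Rc (0, 0) ω} = 0 := by
    refine measure_mono_null h1 ?_
    rw [measure_iUnion_null_iff]
    intro c
    have h3 := pr_bit 0 zero_le_one c
    unfold Pr at h3
    rw [measureReal_def] at h3
    rcases (ENNReal.toReal_eq_zero_iff _).1 h3 with h5 | h5
    · exact h5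
    · exact absurd h5 (measure_ne_top _ _)
  unfold Pr
  rw [measureReal_def, h2]
  rfl

end Pool.Agent.Helper50.CD
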