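import Pool.Agent.Helper95.DG.Cross

set_option autoImplicit false

/-!
# CD-01: a primal circuit and a dual circuit never use the same cell

`sep`: if the bit of the cell `(0, 0)` is `false` then there are not at the same time a primal walk from
`(0, 0)` to `(1, 1)` and a dual walk from `(1, 0)` to `(0, 1)` (closed up by the edge and the dual edge of the
cell they would be two circuits which cross there). Proof: close the dual walk `δ` by the step
`(0, 1) → (1, 0)` and count, for a point `(h, g)`, the signed crossings of the level `h + 1/2` by `δ` right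
of `g` (as in `DG.Cross`); this number never decreases along a primal walk, but it is smaller at
`(1, 1)` than at `(0, 0)`.
-/

namespace Pool.Agent.Helper50.CD

open Pool.Agent.Helper95.DG

theorem sep (ω : ℤ × ℤ → Bool) (hω : ω (0, 0) = false)
    (hP : Conn (PS ω) Set.univ (0, 0) (1, 1)) (hD : Conn (DS ω) Set.univ (1, 0) (0, 1)) :
    False := by
  obtain ⟨m, γ, hγ, hγ0, hγm⟩ := hP
  obtain ⟨n, δ', hδ', hδ0', hδn'⟩ := hD
  obtain ⟨δ, hd1, hd2⟩ : ∃ δ : ℕ → ℤ × ℤ, (∀ j ≤ n, δ j = δ' j) ∧ δ (n + 1) = (1, 0) := by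
    refine ⟨fun j => if j ≤ n then δ' j else (1, 0), fun j hj => ?_, ?_⟩
    · simp only [hj, if_true]
    · simp only [show ¬ n + 1 ≤ n by omega, if_false]
  have hδ0 : δ 0 = (1, 0) := by rw [hd1 0 (Nat.zero_le _), hδ0']
  have hδn : δ n = (0, 1) := by rw [hd1 n le_rfl, hδn']
  have hstep : ∀ j < n + 1, DS ω (δ j) (δ (j + 1)) := by
    intro j hj
    by_cases hjn : j = n
    · subst hjn
      rw [hδn, hd2]
      refine ⟨⟨Or.inl (by norm_num), Or.inr (by norm_num)⟩, ?_⟩
      have e : cell (0, 1) (1, 0) = (0, 0) := by unfold cell; simp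
      rw [e, hω]
      simp
    · rw [hd1 j (by omega), hd1 (j + 1) (by omega)]
      exact hδ'.2 j (by omega)
  have hpar : ∀ j ≤ n + 1, ((δ j).1 + (δ j).2 + (0 + 1)) % 2 = 0 := by
    intro j
    induction j with
    | zero => intro _; rw [hδ0]; norm_num
    | succ j ih =>
      intro hj
      have h1 := ih (by omega)
      have h2 := (hstep j (by omega)).1
      unfold Diag at h2
      omega
  obtain ⟨U, hU⟩ : ∃ U : ℤ → ℤ → ℤ, ∀ i x, U i x = ∑ j ∈ Finset.range (n + 1),
      if min (δ j).1 (δ (j + 1)).1 = i ∧ 2 * x < (δ j).2 + (δ (j + 1)).2 then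
        (δ (j + 1)).1 - (δ j).1 else 0 := ⟨_, fun _ _ => rfl⟩
  obtain ⟨A, hA⟩ : ∃ A : ℤ → ℤ → ℤ → ℤ, ∀ h g ε, A h g ε = ∑ j ∈ Finset.range (n + 1),
      if (δ j).1 = h ∧ (δ j).2 = g + ε ∧ (δ (j + 1)).1 = h + 1 ∧ (δ (j + 1)).2 = g then 1
          else 0 := ⟨_, fun _ _ _ => rfl⟩
  obtain ⟨B, hB⟩ : ∃ B : ℤ → ℤ → ℤ → ℤ, ∀ h g ε, B h g ε = ∑ j ∈ Finset.range (n + 1),
      if (δ j).1 = h + 1 ∧ (δ j).2 = g ∧ (δ (j + 1)).1 = h ∧ (δ (j + 1)).2 = g + ε then 1
          else 0 := ⟨_, fun _ _ _ => rfl⟩
  have key : ∀ h g ε : ℤ, (ε = 1 ∨ ε = -1) → (h + g + 0) % 2 = 0 →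
      U (h + 1) (g + ε) - U h g = -ε * (A h g ε - B h g ε) := by
    intro h g ε hε hp
    have htel : ∑ j ∈ Finset.range (n + 1),
        ((if (δ (j + 1)).1 = h + 1 ∧ g + ε < (δ (j + 1)).2 then (1 : ℤ) else 0) -
          (if (δ j).1 = h + 1 ∧ g + ε < (δ j).2 then (1 : ℤ) else 0)) = 0 := by
      rw [Finset.sum_range_sub (fun j => if (δ j).1 = h + 1 ∧ g + ε < (δ j).2 then (1 : ℤ) else 0),
        hd2, hδ0, sub_self]
    have h3 : U (h + 1) (g + ε) - U h g = U (h + 1) (g + ε) - U h g +
        ∑ j ∈ Finset.range (n + 1),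
        ((if (δ (j + 1)).1 = h + 1 ∧ g + ε < (δ (j + 1)).2 then (1 : ℤ) else 0) -
          (if (δ j).1 = h + 1 ∧ g + ε < (δ j).2 then (1 : ℤ) else 0)) := by
      rw [htel, add_zero]
    rw [h3, hU, hU, hA, hB, ← Finset.sum_sub_distrib, ← Finset.sum_add_distrib,
      ← Finset.sum_sub_distrib, Finset.mul_sum]
    refine Finset.sum_congr rfl fun j hj => ?_
    rw [Finset.mem_range] at hj
    have e1 := hpar j hj.le
    have e3 := (hstep j hj).1
    exact step_id 0 h g ε _ _ _ _ hε hp e1 e3.1 e3.2
  have hA0 : ∀ h g ε, 0 ≤ A h g ε := by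
    intro h g ε
    rw [hA]
    exact Finset.sum_nonneg fun j _ => by split_ifs <;> norm_num
  have hB0 : ∀ h g ε, 0 ≤ B h g ε := by
    intro h g ε
    rw [hB]
    exact Finset.sum_nonneg fun j _ => by split_ifs <;> norm_num
  -- a use forces the bit
  have hA1 : ∀ h g, ω (h, g) = true → A h g 1 = 0 := by
    intro h g hb
    rw [hA]
    refine Finset.sum_eq_zero fun j hj => ?_
    rw [Finset.mem_range] at hj
    rw [if_neg]
    rintro ⟨a1, a2, a3, a4⟩
    have e := (hstep j hj).2
    have ec : cell (δ j) (δ (j + 1)) = (h, g) := by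
      unfold cell
      rw [a1, a2, a3, a4]
      ext
      · show min h (h + 1) = h; omega
      · show min (g + 1) g = g; omega
    rw [ec, a2, a4] at e
    have := e.1 hb
    omega
  have hB1 : ∀ h g, ω (h, g) = false → B h g 1 = 0 := by
    intro h g hb
    rw [hB]
    refine Finset.sum_eq_zero fun j hj => ?_
    rw [Finset.mem_range] at hj
    rw [if_neg]
    rintro ⟨a1, a2, a3, a4⟩
    have e := (hstep j hj).2
    have ec : cell (δ j) (δ (j + 1)) = (h, g) := by
      unfold cell
      rw [a1, a2, a3, a4]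
      ext
      · show min (h + 1) h = h; omega
      · show min g (g + 1) = g; omega
    rw [ec, a2, a4] at e
    have := e.2 rfl
    rw [hb] at this
    exact Bool.false_ne_true this
  have hA2 : ∀ h g, ω (h, g - 1) = false → A h g (-1) = 0 := by
    intro h g hb
    rw [hA]
    refine Finset.sum_eq_zero fun j hj => ?_
    rw [Finset.mem_range] at hj
    rw [if_neg]
    rintro ⟨a1, a2, a3, a4⟩
    have e := (hstep j hj).2
    have ec : cell (δ j) (δ (j + 1)) = (h, g - 1) := by
      unfold cell
      rw [a1, a2, a3, a4]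
      ext
      · show min h (h + 1) = h; omega
      · show min (g + -1) g = g - 1; omega
    rw [ec, a2, a4] at e
    have := e.2 (by omega)
    rw [hb] at this
    exact Bool.false_ne_true this
  have hB2 : ∀ h g, ω (h, g - 1) = true → B h g (-1) = 0 := by
    intro h g hb
    rw [hB]
    refine Finset.sum_eq_zero fun j hj => ?_
    rw [Finset.mem_range] at hj
    rw [if_neg]
    rintro ⟨a1, a2, a3, a4⟩
    have e := (hstep j hj).2
    have ec : cell (δ j) (δ (j + 1)) = (h, g - 1) := by
      unfold cell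
      rw [a1, a2, a3, a4]
      ext
      · show min (h + 1) h = h; omega
      · show min g (g + -1) = g - 1; omega
    rw [ec, a2, a4] at e
    have := e.1 hb
    omega
  -- `U` does not decrease along a primal step
  have hmono : ∀ u w : ℤ × ℤ, (u.1 + u.2) % 2 = 0 → PS ω u w → U u.1 u.2 ≤ U w.1 w.2 := by
    rintro ⟨h, g⟩ ⟨h', g'⟩ hu ⟨⟨hh, hg⟩, hb⟩
    simp only at hu hh hg hb ⊢
    rcases hh with rfl | rfl <;> rcases hg with rfl | rfl
    · have ec : cell (h, g) (h + 1, g + 1) = (h, g) := by
        unfold cell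
        ext
        · show min h (h + 1) = h; omega
        · show min g (g + 1) = g; omega
      rw [ec] at hb
      have hk := key h g 1 (Or.inl rfl) (by omega)
      rw [hA1 h g (hb.2 rfl)] at hk
      have := hB0 h g 1
      omega
    · have ec : cell (h, g) (h + 1, g - 1) = (h, g - 1) := by
        unfold cell
        ext
        · show min h (h + 1) = h; omega
        · show min g (g - 1) = g - 1; omega
      rw [ec] at hb
      have hk := key h g (-1) (Or.inr rfl) (by omega)
      rw [hB2 h g (hb.2 rfl)] at hk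
      have := hA0 h g (-1)
      rw [show g + -1 = g - 1 by ring] at hk
      omega
    · have ec : cell (h, g) (h - 1, g + 1) = (h - 1, g + 1 - 1) := by
        unfold cell
        ext
        · show min h (h - 1) = h - 1; omega
        · show min g (g + 1) = g + 1 - 1; omega
      rw [ec] at hb
      have hbf : ω (h - 1, g + 1 - 1) = false := by
        rw [← Bool.not_eq_true]
        intro h1
        have := hb.1 h1
        omega
      have hk := key (h - 1) (g + 1) (-1) (Or.inr rfl) (by omega)
      rw [hA2 (h - 1) (g + 1) hbf] at hk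
      have := hB0 (h - 1) (g + 1) (-1)
      rw [show g + 1 + -1 = g by ring, show h - 1 + 1 = h by ring] at hk
      omega
    · have ec : cell (h, g) (h - 1, g - 1) = (h - 1, g - 1) := by
        unfold cell
        ext
        · show min h (h - 1) = h - 1; omega
        · show min g (g - 1) = g - 1; omega
      rw [ec] at hb
      have hbf : ω (h - 1, g - 1) = false := by
        rw [← Bool.not_eq_true]
        intro h1
        have := hb.1 h1
        omega
      have hk := key (h - 1) (g - 1) 1 (Or.inl rfl) (by omega)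
      rw [hB1 (h - 1) (g - 1) hbf] at hk
      have := hA0 (h - 1) (g - 1) 1
      rw [show g - 1 + 1 = g by ring, show h - 1 + 1 = h by ring] at hk
      omega
  have hwalk : ∀ i ≤ m, ((γ i).1 + (γ i).2) % 2 = 0 ∧ U 0 0 ≤ U (γ i).1 (γ i).2 := by
    intro i
    induction i with
    | zero => intro _; rw [hγ0]; exact ⟨by norm_num, le_rfl⟩
    | succ i ih =>
      intro hi
      obtain ⟨h1, h2⟩ := ih (by omega)
      have h3 := hγ.2 i (by omega)
      refine ⟨?_, h2.trans (hmono _ _ h1 h3)⟩
      have h4 := h3.1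
      unfold Diag at h4
      omega
  have hfin := (hwalk m le_rfl).2
  rw [hγm] at hfin
  have hk := key 0 0 1 (Or.inl rfl) (by norm_num)
  have hBz : B 0 0 1 = 0 := hB1 0 0 hω
  have hAp : 1 ≤ A 0 0 1 := by
    rw [hA]
    have hs := Finset.single_le_sum (f := fun j => if (δ j).1 = 0 ∧ (δ j).2 = 0 + 1 ∧
      (δ (j + 1)).1 = 0 + 1 ∧ (δ (j + 1)).2 = 0 then (1 : ℤ) else 0)
      (fun j _ => by split_ifs <;> norm_num) (Finset.mem_range.2 (Nat.lt_succ_self n))
    refine le_trans ?_ hs
    simp only [hδn, hd2]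
    norm_num
  simp only at hfin
  norm_num at hk
  rw [hBz] at hk
  omega

end Pool.Agent.Helper50.CD
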