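import Pool.Agent.Helper50.CD.Defs
import Pool.Agent.Helper50.CD.Sep

set_option autoImplicit false

/-!
# CD-03: outside of the square, up and left-right exclude each other

`excl`: fill the square with `false`: there primal steps go down and dual steps go to the left, so the
primal walk from the bottom to the top outside of the square is completed inside by
`top → (1, 1)` and `(0, 0) → bottom`, the dual walk from the left to the right by `right → (0, 1)` and
`(1, 0) → left`. Now use `sep`.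
-/

namespace Pool.Agent.Helper50.CD

open Pool.Agent.Helper95.DG

/-- A walk with steps `(-1, ±1)` inside the square. -/
private theorem down (r : ℤ × ℤ → ℤ × ℤ → Prop) (P : ℤ × ℤ → ℤ × ℤ) (k : ℕ) (h g g' : ℤ)
    (hr : ∀ (i j : ℤ) (e : ℤ), (e = 1 ∨ e = -1) → h - k < i → i ≤ h → |j - g| ≤ h - i →
      r (P (i, j)) (P (i - 1, j + e)))
    (hg : |g' - g| ≤ k) (hpar : (g' - g - k) % 2 = 0) :
    Conn r Set.univ (P (h, g)) (P (h - k, g')) := by
  induction k generalizing g' with
  | zero =>
    have : g' = g := by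
      have := abs_nonneg (g' - g)
      have h2 : |g' - g| = 0 := le_antisymm (by simpa using hg) this
      rw [abs_eq_zero] at h2
      omega
    subst this
    have e : h - ((0 : ℕ) : ℤ) = h := by simp
    rw [e]
    exact conn_refl _ _ _ (Set.mem_univ _)
  | succ k ih =>
    rw [abs_le] at hg
    push_cast at hg hpar
    -- the last step
    obtain ⟨e, he, hge⟩ : ∃ e : ℤ, (e = 1 ∨ e = -1) ∧ |(g' - e) - g| ≤ k := by
      by_cases hc : g' - g ≤ 0
      · refine ⟨-1, Or.inr rfl, ?_⟩
        rw [abs_le]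
        omega
      · refine ⟨1, Or.inl rfl, ?_⟩
        rw [abs_le]
        omega
    have h1 := ih (g' - e) (fun i j e' he' hi1 hi2 hj => hr i j e' he' (by push_cast; omega) hi2 hj)
      hge (by omega)
    refine conn_trans _ _ _ _ _ h1 (conn_step _ _ _ _ (Set.mem_univ _) (Set.mem_univ _) ?_)
    have h2 := hr (h - k) (g' - e) e he (by push_cast; omega) (by omega) (by
      have : h - (h - (k : ℤ)) = k := by ring
      rw [this]; exact hge)
    have e1 : h - (k : ℤ) - 1 = h - ((k + 1 : ℕ) : ℤ) := by push_cast; ring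
    have e2 : g' - e + e = g' := by ring
    rw [e1, e2] at h2
    exact h2

/-- The same with the cone at the end point. -/
private theorem down' (r : ℤ × ℤ → ℤ × ℤ → Prop) (P : ℤ × ℤ → ℤ × ℤ) (k : ℕ) (h g g' : ℤ)
    (hr : ∀ (i j : ℤ) (e : ℤ), (e = 1 ∨ e = -1) → h - k < i → i ≤ h → |j - g'| ≤ i - (h - k) →
      |j + e - g'| ≤ i - 1 - (h - k) → r (P (i, j)) (P (i - 1, j + e)))
    (hg : |g' - g| ≤ k) (hpar : (g' - g - k) % 2 = 0) :
    Conn r Set.univ (P (h, g)) (P (h - k, g')) := by
  induction k generalizing h g with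
  | zero =>
    have : g' = g := by
      have := abs_nonneg (g' - g)
      have h2 : |g' - g| = 0 := le_antisymm (by simpa using hg) this
      rw [abs_eq_zero] at h2
      omega
    subst this
    have e : h - ((0 : ℕ) : ℤ) = h := by simp
    rw [e]
    exact conn_refl _ _ _ (Set.mem_univ _)
  | succ k ih =>
    rw [abs_le] at hg
    push_cast at hg hpar
    obtain ⟨e, he, hge⟩ : ∃ e : ℤ, (e = 1 ∨ e = -1) ∧ |g' - (g + e)| ≤ k := by
      by_cases hc : g' - g ≤ 0
      · refine ⟨-1, Or.inr rfl, ?_⟩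
        rw [abs_le]
        omega
      · refine ⟨1, Or.inl rfl, ?_⟩
        rw [abs_le]
        omega
    have h1 := ih (h - 1) (g + e) (fun i j e' he' hi1 hi2 hj hj' =>
      hr i j e' he' (by push_cast; omega) (by omega) (by push_cast; rw [abs_le] at hj ⊢; omega)
        (by push_cast; rw [abs_le] at hj' ⊢; omega)) hge (by omega)
    have e1 : h - 1 - (k : ℤ) = h - ((k + 1 : ℕ) : ℤ) := by push_cast; ring
    rw [e1] at h1
    refine conn_trans _ _ _ _ _ (conn_step _ _ _ _ (Set.mem_univ _) (Set.mem_univ _) ?_) h1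
    rw [abs_le] at hge
    exact hr h g e he (by push_cast; omega) le_rfl (by push_cast; rw [abs_le]; omega)
      (by push_cast; rw [abs_le]; omega)

theorem excl (m : ℕ) (ω : ℤ × ℤ → Bool) (h1 : Up m ω) (h2 : UpD m ω) : False := by
  classical
  obtain ⟨a, b, ha, hb, hc⟩ := h1
  obtain ⟨x, y, hx, hy, hd⟩ := h2
  have hm : (0 : ℤ) ≤ m := Int.natCast_nonneg m
  obtain ⟨o, ho1, ho2⟩ : ∃ o : ℤ × ℤ → Bool, (∀ c, In m c → o c = false) ∧
      ∀ c, ¬ In m c → o c = ω c :=
    ⟨fun c => if In m c then false else ω c, fun c hc => if_pos hc, fun c hc => if_neg hc⟩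
  have hps : ∀ u v, PSo m ω u v → PS o u v := by
    rintro u v ⟨h1, h2⟩
    refine ⟨h1.1, ?_⟩
    rw [ho2 _ h2]
    exact h1.2
  have hds : ∀ u v, DSo m ω u v → DS o u v := by
    rintro u v ⟨h1, h2⟩
    refine ⟨h1.1, ?_⟩
    rw [ho2 _ h2]
    exact h1.2
  have hc' : Conn (PS o) Set.univ a b := conn_mono _ _ _ _ _ _ (fun u v _ _ h => hps u v h)
    (fun _ h => h) hc
  have hd' : Conn (DS o) Set.univ x y := conn_mono _ _ _ _ _ _ (fun u v _ _ h => hds u v h)
    (fun _ h => h) hd
  -- steps inside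
  have pin : ∀ i j e : ℤ, (e = 1 ∨ e = -1) → -(m : ℤ) < i → i ≤ m + 1 → -(m : ℤ) ≤ j →
      j ≤ m + 1 → -(m : ℤ) ≤ j + e → j + e ≤ m + 1 → PS o (i, j) (i - 1, j + e) := by
    intro i j e he h1 h2 h3 h4 h5 h6
    have ec : o (cell (i, j) (i - 1, j + e)) = false := by
      apply ho1
      unfold cell In
      simp only
      omega
    refine ⟨⟨Or.inr rfl, ?_⟩, ?_⟩
    · show j + e = j + 1 ∨ j + e = j - 1
      omega
    · rw [ec]
      simp only [Bool.false_eq_true, false_iff]
      omega
  have din : ∀ i j e : ℤ, (e = 1 ∨ e = -1) → -(m : ℤ) < i → i ≤ m + 1 → -(m : ℤ) ≤ j →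
      j ≤ m + 1 → -(m : ℤ) ≤ j + e → j + e ≤ m + 1 → DS o (j, i) (j + e, i - 1) := by
    intro i j e he h1 h2 h3 h4 h5 h6
    have ec : o (cell (j, i) (j + e, i - 1)) = false := by
      apply ho1
      unfold cell In
      simp only
      omega
    refine ⟨⟨?_, Or.inr rfl⟩, ?_⟩
    · show j + e = j + 1 ∨ j + e = j - 1
      omega
    · rw [ec]
      simp only [Bool.false_eq_true, false_iff]
      omega
  obtain ⟨a1, a2⟩ := a
  obtain ⟨b1, b2⟩ := b
  obtain ⟨x1, x2⟩ := x
  obtain ⟨y1, y2⟩ := y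
  obtain ⟨ha1, ha2, ha3, ha4⟩ := ha
  obtain ⟨hb1, hb2, hb3, hb4⟩ := hb
  obtain ⟨hx1, hx2, hx3, hx4⟩ := hx
  obtain ⟨hy1, hy2, hy3, hy4⟩ := hy
  simp only at ha1 ha2 ha3 ha4 hb1 hb2 hb3 hb4 hx1 hx2 hx3 hx4 hy1 hy2 hy3 hy4
  subst ha1 hb1 hx1 hy1
  -- (0,0) → a
  have w1 : Conn (PS o) Set.univ (0, 0) (-(m : ℤ), a2) := by
    have := down (PS o) id m 0 0 a2 (fun i j e he hi1 hi2 hj => by
      rw [abs_le] at hj
      exact pin i j e he (by omega) (by omega) (by omega) (by omega) (by omega) (by omega))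
      (by rw [abs_le]; omega) (by omega)
    simpa using this
  have w2 : Conn (PS o) Set.univ ((m : ℤ) + 1, b2) (1, 1) := by
    have := down' (PS o) id m (m + 1) b2 1 (fun i j e he hi1 hi2 hj hj' => by
      rw [abs_le] at hj hj'
      exact pin i j e he (by omega) (by omega) (by omega) (by omega) (by omega) (by omega))
      (by rw [abs_le]; omega) (by omega)
    have e : (m : ℤ) + 1 - m = 1 := by ring
    rw [e] at this
    simpa using this
  have w3 : Conn (DS o) Set.univ (1, 0) (x1, -(m : ℤ)) := by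
    have := down (DS o) Prod.swap m 0 1 x1 (fun i j e he hi1 hi2 hj => by
      rw [abs_le] at hj
      exact din i j e he (by omega) (by omega) (by omega) (by omega) (by omega) (by omega))
      (by rw [abs_le]; omega) (by omega)
    simpa using this
  have w4 : Conn (DS o) Set.univ (y1, (m : ℤ) + 1) (0, 1) := by
    have := down' (DS o) Prod.swap m (m + 1) y1 0 (fun i j e he hi1 hi2 hj hj' => by
      rw [abs_le] at hj hj'
      exact din i j e he (by omega) (by omega) (by omega) (by omega) (by omega) (by omega))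
      (by rw [abs_le]; omega) (by omega)
    have e : (m : ℤ) + 1 - m = 1 := by ring
    rw [e] at this
    simpa using this
  exact sep o (ho1 _ ⟨by show -(m : ℤ) ≤ 0; omega, hm, by show -(m : ℤ) ≤ 0; omega, hm⟩)
    (conn_trans _ _ _ _ _ (conn_trans _ _ _ _ _ w1 hc') w2)
    (conn_trans _ _ _ _ _ (conn_trans _ _ _ _ _ w3 hd') w4)

end Pool.Agent.Helper50.CD
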