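import Pool.Agent.Helper50.CD.Defs2

set_option autoImplicit false

/-!
# CD-E: finite clusters are positively correlated (exploration)

`expl`: for sets `S`, `T` of even points,
`P(Fw S finite) P(Fw T finite) ≤ P(Fw S finite and Fw T finite)`, clusters for the rule `PSo m ω` (primal steps outside
of the square). Proof. Write `C = Fw (PSo m ω) S`. For a finite set `K : Finset (ℤ × ℤ)` let
`A K = {ω | Fw (PSo m ω) S = K}` and let `D K = {ω | (Fw (r K ω) (T \ K)).Finite}` with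
`r K ω u v := PSo m ω u v ∧ u ∉ K ∧ v ∉ K` (the graph without `K`).
(1) If `Fw S = K` then `K` is closed under steps (`u ∈ K`, `PSo m ω u v` gives `v ∈ K`) and all its points are even.
(2) `Dep (A K) (Tc K)` for `Tc K = {c | ∃ u ∈ K, Ev u ∧ ∃ v, Diag u v ∧ cell u v = c}` (if `K` has an odd point or
`K` is not closed then ... simply: `A K` holds for `ω` iff [`S ⊆ K`, every step `PSo m ω u v` with `u ∈ K`, `u` even
has `v ∈ K`, and every `z ∈ K` is joined to a point of `S` by a walk of steps of `PSo m ω` inside `K`, all points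
even]; all these steps have their first point in `K`, so they are determined by the cells of `Tc K`). Direct proof of
Dep: let `ω, ω'` agree on `Tc K` and let `Fw (PSo m ω) S = K`. Every walk of `PSo m ω` from `a ∈ S` stays in `K`
(even points), so its steps are steps of `ω'`: `K ⊆ Fw (PSo m ω') S`. Conversely along a walk of `PSo m ω'` from
`a ∈ S ⊆ K` all points are in `K`: if `u ∈ K` and `PSo m ω' u v` then `cell u v ∈ Tc K`, so `PSo m ω u v`, so `v ∈ K`.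
(3) `Dep (D K) (Tc K)ᶜ`: the steps of `r K ω` from even points `u ∉ K` to `v ∉ K` have `cell u v ∉ Tc K`: an even
`u' ∈ K` and `v'` with `Diag u' v'`, `cell u' v' = cell u v`, `Diag u v` would give `{u, v} = {u', v'}` (a cell has
exactly two even corners, opposite to each other), contradiction. (All points of the walks from `T` are even.)
(4) On `A K`: `Fw (PSo m ω) T ⊆ K ∪ Fw (r K ω) (T \ K)` (a walk from `b ∈ T` which enters `K` stays in `K`; before that
it is a walk of `r K ω`), so `A K ∩ D K ⊆ A K ∩ {Fw T finite}`.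
(5) `{Fw T finite} ⊆ D K` for every `ω` (`Fw (r K ω) (T \ K) ⊆ Fw (PSo m ω) T`). So
`P(A K ∩ {Fw T finite}) ≥ P(A K ∩ D K) = P(A K) P(D K) ≥ P(A K) P(Fw T finite)` by `indep`.
(6) `{Fw S finite}` is the disjoint union of the `A K` over the countable type `Finset (ℤ × ℤ)`; sum up
(`measureReal_iUnion` / `tsum`, or work with `mu` in `ENNReal`: `measure_iUnion`, `ENNReal.tsum_mul_right`,
`ENNReal.tsum_le_tsum`, and convert at the end).
Measurability: `A K = ⋂ z, {ω | z ∈ Fw (PSo m ω) S ↔ z ∈ K}` with `meas_conn_gen (PSo m) (meas_PSo m)`; `D K`, `{Fw T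
finite}`: a set of points is finite iff it is contained in some `F : Finset (ℤ × ℤ)` (countable union over `F` of
countable intersections over `z ∉ F`).
-/

namespace Pool.Agent.Helper50.CD

open MeasureTheory
open scoped ENNReal NNReal
open Pool.Agent.Helper95.DG

private lemma conn_iff (r : ℤ × ℤ → ℤ × ℤ → Prop) (a z : ℤ × ℤ) :
    Conn r Set.univ a z ↔ Relation.ReflTransGen r a z := by
  constructor
  · rintro ⟨n, f, hf, h0, hn⟩
    have key : ∀ i ≤ n, Relation.ReflTransGen r (f 0) (f i) := by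
      intro i
      induction i with
      | zero => intro _; exact Relation.ReflTransGen.refl
      | succ i ih =>
        intro hi
        exact (ih (by omega)).tail (hf.2 i (by omega))
    have := key n le_rfl
    rwa [h0, hn] at this
  · intro h
    induction h with
    | refl => exact conn_refl r _ a (Set.mem_univ _)
    | tail _ hbc ih =>
      exact conn_trans r _ _ _ _ ih (conn_step r _ _ _ (Set.mem_univ _) (Set.mem_univ _) hbc)

private lemma mem_fw (r : ℤ × ℤ → ℤ × ℤ → Prop) (S : Set (ℤ × ℤ)) (z : ℤ × ℤ) :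
    z ∈ Fw r S ↔ ∃ a ∈ S, Relation.ReflTransGen r a z := by
  unfold Fw
  simp only [Set.mem_ofPred_eq, conn_iff]

private lemma fw_self (r : ℤ × ℤ → ℤ × ℤ → Prop) (S : Set (ℤ × ℤ)) (a : ℤ × ℤ) (ha : a ∈ S) :
    a ∈ Fw r S := (mem_fw r S a).2 ⟨a, ha, Relation.ReflTransGen.refl⟩

private lemma fw_step (r : ℤ × ℤ → ℤ × ℤ → Prop) (S : Set (ℤ × ℤ)) (u v : ℤ × ℤ)
    (hu : u ∈ Fw r S) (h : r u v) : v ∈ Fw r S := by
  obtain ⟨a, ha, hc⟩ := (mem_fw r S u).1 hu
  exact (mem_fw r S v).2 ⟨a, ha, hc.tail h⟩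

/-- Induction principle on the forward cluster. -/
private lemma fw_ind (r : ℤ × ℤ → ℤ × ℤ → Prop) (S : Set (ℤ × ℤ)) (P : ℤ × ℤ → Prop)
    (h0 : ∀ a ∈ S, P a) (h1 : ∀ u v, u ∈ Fw r S → P u → r u v → P v) (z : ℤ × ℤ)
    (hz : z ∈ Fw r S) : P z := by
  obtain ⟨a, ha, hc⟩ := (mem_fw r S z).1 hz
  induction hc with
  | refl => exact h0 a ha
  | @tail u v huv h ih =>
    have hu : u ∈ Fw r S := (mem_fw r S u).2 ⟨a, ha, huv⟩
    exact h1 u v hu (ih hu) h

private lemma meas_mem (r : (ℤ × ℤ → Bool) → ℤ × ℤ → ℤ × ℤ → Prop)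
    (hr : ∀ x y, MeasurableSet {ω | r ω x y}) (S : Set (ℤ × ℤ)) (z : ℤ × ℤ) :
    MeasurableSet {ω : ℤ × ℤ → Bool | z ∈ Fw (r ω) S} := by
  have e : {ω : ℤ × ℤ → Bool | z ∈ Fw (r ω) S} =
      ⋃ a : ℤ × ℤ, ({_ω | a ∈ S} ∩ {ω | Conn (r ω) Set.univ a z}) := by
    ext ω
    simp only [Set.mem_iUnion]
    exact Iff.rfl
  rw [e]
  exact MeasurableSet.iUnion fun a => (MeasurableSet.const _).inter
    (meas_conn_gen r hr Set.univ a z)

theorem meas_fin (r : (ℤ × ℤ → Bool) → ℤ × ℤ → ℤ × ℤ → Prop)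
    (hr : ∀ x y, MeasurableSet {ω | r ω x y}) (S : Set (ℤ × ℤ)) :
    MeasurableSet {ω : ℤ × ℤ → Bool | (Fw (r ω) S).Finite} := by
  have e : {ω : ℤ × ℤ → Bool | (Fw (r ω) S).Finite} =
      ⋃ F : Finset (ℤ × ℤ), ⋂ z : ℤ × ℤ, ({_ω | z ∈ F} ∪ {ω | z ∈ Fw (r ω) S}ᶜ) := by
    ext ω
    simp only [Set.mem_iUnion, Set.mem_iInter, Set.mem_union, Set.mem_ofPred_eq,
      Set.mem_compl_iff]
    constructor
    · intro h
      refine ⟨h.toFinset, fun z => ?_⟩
      by_cases hz : z ∈ Fw (r ω) S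
      · exact Or.inl (h.mem_toFinset.2 hz)
      · exact Or.inr hz
    · rintro ⟨F, hF⟩
      refine F.finite_toSet.subset fun z hz => ?_
      rcases hF z with h | h
      · exact h
      · exact absurd hz h
  rw [e]
  exact MeasurableSet.iUnion fun F => MeasurableSet.iInter fun z =>
    (MeasurableSet.const _).union (meas_mem r hr S z).compl

/-- The graph without `K`. -/
private def rK (m : ℤ) (K : Finset (ℤ × ℤ)) (ω : ℤ × ℤ → Bool) (u v : ℤ × ℤ) : Prop :=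
  PSo m ω u v ∧ u ∉ K ∧ v ∉ K

private lemma meas_rK (m : ℤ) (K : Finset (ℤ × ℤ)) (x y : ℤ × ℤ) :
    MeasurableSet {ω : ℤ × ℤ → Bool | rK m K ω x y} := by
  unfold rK
  exact (meas_PSo m x y).inter (MeasurableSet.const _)

/-- The cells touched by `K`. -/
private def Tc (K : Finset (ℤ × ℤ)) : Set (ℤ × ℤ) :=
  {c | ∃ u ∈ K, Ev u ∧ ∃ v, Diag u v ∧ cell u v = c}

private def AK (m : ℤ) (S : Set (ℤ × ℤ)) (K : Finset (ℤ × ℤ)) : Set (ℤ × ℤ → Bool) :=
  {ω | Fw (PSo m ω) S = K}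

private def DK (m : ℤ) (T : Set (ℤ × ℤ)) (K : Finset (ℤ × ℤ)) : Set (ℤ × ℤ → Bool) :=
  {ω | (Fw (rK m K ω) (T \ K)).Finite}

private lemma meas_AK (m : ℤ) (S : Set (ℤ × ℤ)) (K : Finset (ℤ × ℤ)) :
    MeasurableSet (AK m S K) := by
  have e : AK m S K = ⋂ z : ℤ × ℤ, {ω | z ∈ Fw (PSo m ω) S ↔ z ∈ K} := by
    ext ω
    simp only [Set.mem_iInter, Set.mem_ofPred_eq, AK]
    constructor
    · intro h z
      rw [h]
      exact Iff.rfl
    · intro h
      ext z
      exact (h z).trans Iff.rfl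
  rw [e]
  refine MeasurableSet.iInter fun z => ?_
  by_cases hz : z ∈ K
  · have e2 : {ω : ℤ × ℤ → Bool | z ∈ Fw (PSo m ω) S ↔ z ∈ K} =
        {ω | z ∈ Fw (PSo m ω) S} := by
      ext ω
      simp [hz]
    rw [e2]
    exact meas_mem (PSo m) (meas_PSo m) S z
  · have e2 : {ω : ℤ × ℤ → Bool | z ∈ Fw (PSo m ω) S ↔ z ∈ K} =
        {ω | z ∈ Fw (PSo m ω) S}ᶜ := by
      ext ω
      simp [hz]
    rw [e2]
    exact (meas_mem (PSo m) (meas_PSo m) S z).compl

private lemma ev_step' (m : ℤ) (ω : ℤ × ℤ → Bool) (u v : ℤ × ℤ) (h : PSo m ω u v)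
    (hu : Ev u) : Ev v := by
  obtain ⟨⟨⟨h1, h2⟩, -⟩, -⟩ := h
  unfold Ev at hu ⊢
  rcases h1 with h1 | h1 <;> rcases h2 with h2 | h2 <;> omega

private lemma agree_step (m : ℤ) (ω ω' : ℤ × ℤ → Bool) (u v : ℤ × ℤ)
    (h : Diag u v → ω (cell u v) = ω' (cell u v)) (hs : PSo m ω u v) : PSo m ω' u v := by
  refine ⟨⟨hs.1.1, ?_⟩, hs.2⟩
  rw [← h hs.1.1]
  exact hs.1.2

private lemma dep_AK_aux (m : ℤ) (S : Set (ℤ × ℤ)) (hS : ∀ a ∈ S, Ev a) (K : Finset (ℤ × ℤ))
    (ω ω' : ℤ × ℤ → Bool) (h : ∀ c ∈ Tc K, ω c = ω' c) (hA : Fw (PSo m ω) S = K) :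
    Fw (PSo m ω') S = K := by
  have hcell : ∀ u v, u ∈ K → Ev u → Diag u v → ω (cell u v) = ω' (cell u v) :=
    fun u v hu he hd => h _ ⟨u, hu, he, v, hd, rfl⟩
  apply Set.Subset.antisymm
  · intro z hz
    refine (fw_ind (PSo m ω') S (fun z => z ∈ (K : Set (ℤ × ℤ)) ∧ Ev z) ?_ ?_ z hz).1
    · intro a ha
      refine ⟨?_, hS a ha⟩
      rw [← hA]
      exact fw_self _ _ _ ha
    · rintro u v _ ⟨hu, he⟩ hs
      refine ⟨?_, ev_step' m ω' u v hs he⟩
      have hs' : PSo m ω u v := agree_step m ω' ω u v (fun hd => (hcell u v hu he hd).symm) hs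
      rw [← hA] at hu ⊢
      exact fw_step _ _ _ _ hu hs'
  · intro z hz
    rw [← hA] at hz
    refine (fw_ind (PSo m ω) S (fun z => z ∈ Fw (PSo m ω') S ∧ Ev z) ?_ ?_ z hz).1
    · intro a ha
      exact ⟨fw_self _ _ _ ha, hS a ha⟩
    · rintro u v hu0 ⟨hu, he⟩ hs
      refine ⟨?_, ev_step' m ω u v hs he⟩
      have hK : u ∈ K := by
        rw [hA] at hu0
        exact hu0
      exact fw_step _ _ _ _ hu (agree_step m ω ω' u v (fun hd => hcell u v hK he hd) hs)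

private lemma dep_AK (m : ℤ) (S : Set (ℤ × ℤ)) (hS : ∀ a ∈ S, Ev a) (K : Finset (ℤ × ℤ)) :
    Dep (AK m S K) (Tc K) := fun ω ω' h =>
  ⟨fun hA => dep_AK_aux m S hS K ω ω' h hA,
    fun hA => dep_AK_aux m S hS K ω' ω (fun c hc => (h c hc).symm) hA⟩

/-- The even corners of a cell. -/
private lemma corner (u v u' v' : ℤ × ℤ) (hd : Diag u v) (hd' : Diag u' v') (he : Ev u)
    (he' : Ev u') (hc : cell u' v' = cell u v) : u' = u ∨ u' = v := by
  obtain ⟨a, b⟩ := u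
  obtain ⟨c, d⟩ := v
  obtain ⟨a', b'⟩ := u'
  obtain ⟨c', d'⟩ := v'
  simp only [Diag, Ev, cell, Prod.mk.injEq] at *
  omega

private lemma dep_DK_aux (m : ℤ) (T : Set (ℤ × ℤ)) (hT : ∀ a ∈ T, Ev a) (K : Finset (ℤ × ℤ))
    (ω ω' : ℤ × ℤ → Bool) (h : ∀ c ∈ (Tc K)ᶜ, ω c = ω' c) :
    Fw (rK m K ω) (T \ K) ⊆ Fw (rK m K ω') (T \ K) := by
  intro z hz
  refine (fw_ind (rK m K ω) (T \ K) (fun z => z ∈ Fw (rK m K ω') (T \ K) ∧ Ev z) ?_ ?_ z hz).1
  · intro a ha
    exact ⟨fw_self _ _ _ ha, hT a ha.1⟩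
  · rintro u v _ ⟨hu, he⟩ ⟨hs, hu1, hv1⟩
    refine ⟨fw_step _ _ _ _ hu ⟨?_, hu1, hv1⟩, ev_step' m ω u v hs he⟩
    refine agree_step m ω ω' u v (fun hd => h _ ?_) hs
    rintro ⟨u', hu', he', v', hd', hc⟩
    rcases corner u v u' v' hd hd' he he' hc with e | e
    · exact hu1 (e ▸ hu')
    · exact hv1 (e ▸ hu')

private lemma dep_DK (m : ℤ) (T : Set (ℤ × ℤ)) (hT : ∀ a ∈ T, Ev a) (K : Finset (ℤ × ℤ)) :
    Dep (DK m T K) (Tc K)ᶜ := fun ω ω' h =>
  ⟨fun hA => Set.Finite.subset hA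
      (dep_DK_aux m T hT K ω' ω (fun c hc => (h c hc).symm)),
    fun hA => Set.Finite.subset hA (dep_DK_aux m T hT K ω ω' h)⟩

private lemma sub_DK (m : ℤ) (T : Set (ℤ × ℤ)) (K : Finset (ℤ × ℤ)) :
    {ω : ℤ × ℤ → Bool | (Fw (PSo m ω) T).Finite} ⊆ DK m T K := by
  intro ω hω
  refine Set.Finite.subset hω fun z hz => ?_
  refine fw_ind (rK m K ω) (T \ K) (fun z => z ∈ Fw (PSo m ω) T) ?_ ?_ z hz
  · intro a ha
    exact fw_self _ _ _ ha.1
  · rintro u v _ hu ⟨hs, -, -⟩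
    exact fw_step _ _ _ _ hu hs

private lemma inter_sub (m : ℤ) (S T : Set (ℤ × ℤ)) (K : Finset (ℤ × ℤ)) :
    AK m S K ∩ DK m T K ⊆ AK m S K ∩ {ω : ℤ × ℤ → Bool | (Fw (PSo m ω) T).Finite} := by
  rintro ω ⟨hA, hD⟩
  refine ⟨hA, ?_⟩
  have hD' : (Fw (rK m K ω) (T \ K)).Finite := hD
  have hA' : Fw (PSo m ω) S = K := hA
  refine Set.Finite.subset (K.finite_toSet.union hD') fun z hz => ?_
  refine fw_ind (PSo m ω) T
    (fun z => z ∈ (K : Set (ℤ × ℤ)) ∪ Fw (rK m K ω) (T \ K)) ?_ ?_ z hz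
  · intro a ha
    by_cases hK : a ∈ (K : Set (ℤ × ℤ))
    · exact Or.inl hK
    · exact Or.inr (fw_self _ _ _ ⟨ha, hK⟩)
  · intro u v _ hu hs
    by_cases hK : u ∈ (K : Set (ℤ × ℤ))
    · left
      rw [← hA'] at hK ⊢
      exact fw_step _ _ _ _ hK hs
    · rcases hu with hu | hu
      · exact absurd hu hK
      · by_cases hv : v ∈ (K : Set (ℤ × ℤ))
        · exact Or.inl hv
        · exact Or.inr (fw_step _ _ _ _ hu ⟨hs, hK, hv⟩)

theorem expl (p : ℝ≥0) (hp : p ≤ 1) (m : ℤ) (S T : Set (ℤ × ℤ)) (hS : ∀ a ∈ S, Ev a)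
    (hT : ∀ a ∈ T, Ev a) :
    Pr p hp {ω | (Fw (PSo m ω) S).Finite} * Pr p hp {ω | (Fw (PSo m ω) T).Finite} ≤
      Pr p hp {ω | (Fw (PSo m ω) S).Finite ∧ (Fw (PSo m ω) T).Finite} := by
  have mT : MeasurableSet {ω : ℤ × ℤ → Bool | (Fw (PSo m ω) T).Finite} :=
    meas_fin (PSo m) (meas_PSo m) T
  have hdisj : Pairwise (Function.onFun Disjoint (AK m S)) := by
    intro K L hKL
    refine Set.disjoint_left.2 fun ω h1 h2 => hKL ?_
    have h1' : Fw (PSo m ω) S = K := h1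
    have h2' : Fw (PSo m ω) S = L := h2
    rw [h1'] at h2'
    exact Finset.coe_injective h2'
  have eS : {ω : ℤ × ℤ → Bool | (Fw (PSo m ω) S).Finite} = ⋃ K, AK m S K := by
    ext ω
    simp only [Set.mem_iUnion]
    constructor
    · intro h
      exact ⟨Set.Finite.toFinset h, (Set.Finite.coe_toFinset h).symm⟩
    · rintro ⟨K, hK⟩
      have hK' : Fw (PSo m ω) S = K := hK
      show (Fw (PSo m ω) S).Finite
      rw [hK']
      exact K.finite_toSet
  have eST : {ω : ℤ × ℤ → Bool | (Fw (PSo m ω) S).Finite ∧ (Fw (PSo m ω) T).Finite} =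
      ⋃ K, (AK m S K ∩ {ω : ℤ × ℤ → Bool | (Fw (PSo m ω) T).Finite}) := by
    rw [← Set.iUnion_inter, ← eS]
    rfl
  have hK : ∀ K, mu p hp (AK m S K) * mu p hp {ω | (Fw (PSo m ω) T).Finite} ≤
      mu p hp (AK m S K ∩ {ω | (Fw (PSo m ω) T).Finite}) := by
    intro K
    have h1 := indep p hp (meas_AK m S K) (meas_fin (rK m K) (meas_rK m K) (T \ K))
      (dep_AK m S hS K) (dep_DK m T hT K) disjoint_compl_right
    have h2 : mu p hp (AK m S K ∩ DK m T K) = mu p hp (AK m S K) * mu p hp (DK m T K) := by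
      have h3 : (mu p hp (AK m S K ∩ DK m T K)).toReal =
          (mu p hp (AK m S K) * mu p hp (DK m T K)).toReal := by
        rw [ENNReal.toReal_mul]
        exact h1
      exact (ENNReal.toReal_eq_toReal_iff' (measure_ne_top _ _)
        (ENNReal.mul_ne_top (measure_ne_top _ _) (measure_ne_top _ _))).1 h3
    calc mu p hp (AK m S K) * mu p hp {ω | (Fw (PSo m ω) T).Finite}
        ≤ mu p hp (AK m S K) * mu p hp (DK m T K) := by
          gcongr
          exact sub_DK m T K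
      _ = mu p hp (AK m S K ∩ DK m T K) := h2.symm
      _ ≤ _ := measure_mono (inter_sub m S T K)
  have key : mu p hp {ω | (Fw (PSo m ω) S).Finite} * mu p hp {ω | (Fw (PSo m ω) T).Finite} ≤
      mu p hp {ω | (Fw (PSo m ω) S).Finite ∧ (Fw (PSo m ω) T).Finite} := by
    rw [eST, eS, measure_iUnion hdisj (fun K => meas_AK m S K),
      measure_iUnion (fun K L hKL => (hdisj hKL).mono Set.inter_subset_left
        Set.inter_subset_left) (fun K => (meas_AK m S K).inter mT),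
      ← ENNReal.tsum_mul_right]
    exact ENNReal.tsum_le_tsum hK
  unfold Pr
  rw [measureReal_def, measureReal_def, measureReal_def, ← ENNReal.toReal_mul]
  exact ENNReal.toReal_mono (measure_ne_top _ _) key

end Pool.Agent.Helper50.CD
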