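import Mathlib

set_option autoImplicit false

/-!
# CD-G: zigzag paths and their common cell

`zig`: induction on `n`. `n = 0`: `s = t`. `n + 1`: if `s < t` step to `s + 1`, if `t < s` step to `s - 1`; if `s = t`
then `n + 1` is even, so `n ≥ 1`; step to `s + 1` if `s < hi`, else to `s - 1` (`≥ lo` because `lo < hi`). Glue:
`G 0 = s`, `G (i+1) = G' i`.
`common`: `D i = (-m + i) - H ((G i + m).toNat)` is odd for every `i ≤ N = 2m+1` (parities: `(-m + i + G i + k) % 2 = 0` and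
`(H j + (-m + j) + k + 1) % 2 = 0` by induction), `D 0 ≤ 0`, `D N ≥ 0`, and `|D (i+1) - D i| ≤ 2`. So there is `i < N` with
`D i = -1`, `D (i+1) = 1` (take the largest `i` with `D i < 0`, e.g. `Nat.findGreatest`, or induction). Then with `G (i+1) =
G i ± 1`: `H ((G i + m).toNat) = -m + i + 1` and `H ((G (i+1) + m).toNat) = -m + i`; take `j = (min (G i) (G (i+1)) +
m).toNat`.
-/

namespace Pool.Agent.Helper50.CD

theorem zig (lo hi : ℤ) (hlt : lo < hi) (n : ℕ) (s t : ℤ) (hs1 : lo ≤ s) (hs2 : s ≤ hi)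
    (ht1 : lo ≤ t) (ht2 : t ≤ hi) (h1 : t - s ≤ n) (h2 : s - t ≤ n) (hpar : (s + t + n) % 2 = 0) :
    ∃ G : ℕ → ℤ, G 0 = s ∧ G n = t ∧ (∀ i < n, G (i + 1) = G i + 1 ∨ G (i + 1) = G i - 1) ∧
      ∀ i ≤ n, lo ≤ G i ∧ G i ≤ hi := by
  induction n generalizing s with
  | zero =>
    refine ⟨fun _ => s, rfl, ?_, ?_, ?_⟩
    · push_cast at h1 h2; show s = t; omega
    · intro i hi; exact absurd hi (Nat.not_lt_zero i)
    · intro i _; exact ⟨hs1, hs2⟩
  | succ n ih =>
    have hex : ∃ s' : ℤ, (s' = s + 1 ∨ s' = s - 1) ∧ lo ≤ s' ∧ s' ≤ hi ∧ t - s' ≤ n ∧ s' - t ≤ n ∧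
        (s' + t + n) % 2 = 0 := by
      push_cast at h1 h2 hpar
      rcases lt_trichotomy s t with h | h | h
      · exact ⟨s + 1, Or.inl rfl, by omega, by omega, by omega, by omega, by omega⟩
      · by_cases hh : s < hi
        · exact ⟨s + 1, Or.inl rfl, by omega, by omega, by omega, by omega, by omega⟩
        · exact ⟨s - 1, Or.inr rfl, by omega, by omega, by omega, by omega, by omega⟩
      · exact ⟨s - 1, Or.inr rfl, by omega, by omega, by omega, by omega, by omega⟩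
    obtain ⟨s', hs', a1, a2, a3, a4, a5⟩ := hex
    obtain ⟨G, g0, gn, gs, gb⟩ := ih s' a1 a2 a3 a4 a5
    refine ⟨fun i => Nat.casesOn i s G, rfl, gn, ?_, ?_⟩
    · intro i hi
      cases i with
      | zero => show G 0 = s + 1 ∨ G 0 = s - 1; rw [g0]; exact hs'
      | succ i => exact gs i (by omega)
    · intro i hi
      cases i with
      | zero => exact ⟨hs1, hs2⟩
      | succ i => exact gb i (by omega)

theorem common (m : ℕ) (k : ℤ) (G H : ℕ → ℤ)
    (hG : ∀ i < 2 * m + 1, G (i + 1) = G i + 1 ∨ G (i + 1) = G i - 1)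
    (hG2 : ∀ i ≤ 2 * m + 1, -(m : ℤ) ≤ G i ∧ G i ≤ m + 1)
    (hH : ∀ i < 2 * m + 1, H (i + 1) = H i + 1 ∨ H (i + 1) = H i - 1)
    (hH2 : ∀ i ≤ 2 * m + 1, -(m : ℤ) ≤ H i ∧ H i ≤ m + 1)
    (hG0 : (-(m : ℤ) + G 0 + k) % 2 = 0) (hH0 : (H 0 + -(m : ℤ) + k + 1) % 2 = 0) :
    ∃ i < 2 * m + 1, ∃ j < 2 * m + 1,
      min (H j) (H (j + 1)) = -(m : ℤ) + i ∧ min (G i) (G (i + 1)) = -(m : ℤ) + j := by
  have pG : ∀ i : ℕ, i ≤ 2 * m + 1 → (-(m : ℤ) + i + G i + k) % 2 = 0 := by
    intro i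
    induction i with
    | zero => intro _; push_cast; omega
    | succ i ih =>
      intro hi
      have h1 := ih (by omega)
      rcases hG i (by omega) with h | h <;> rw [h] <;> push_cast <;> omega
  have pH : ∀ j : ℕ, j ≤ 2 * m + 1 → (H j + (-(m : ℤ) + j) + k + 1) % 2 = 0 := by
    intro j
    induction j with
    | zero => intro _; push_cast; omega
    | succ j ih =>
      intro hj
      have h1 := ih (by omega)
      rcases hH j (by omega) with h | h <;> rw [h] <;> push_cast <;> omega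
  have hj : ∀ i : ℕ, i ≤ 2 * m + 1 → ∃ j : ℕ, j ≤ 2 * m + 1 ∧ (j : ℤ) = G i + m ∧
      (G i + m).toNat = j := by
    intro i hi
    obtain ⟨h1, h2⟩ := hG2 i hi
    refine ⟨(G i + m).toNat, ?_, ?_, rfl⟩ <;> omega
  have hodd : ∀ i : ℕ, i ≤ 2 * m + 1 →
      ((-(m : ℤ) + i) - H ((G i + m).toNat)) % 2 = 1 := by
    intro i hi
    obtain ⟨j, j1, j2, j3⟩ := hj i hi
    rw [j3]
    have a := pG i hi
    have b := pH j j1
    omega
  have hD0 : (-(m : ℤ) + (0 : ℕ)) - H ((G 0 + m).toNat) < 0 := by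
    obtain ⟨j, j1, j2, j3⟩ := hj 0 (by omega)
    have a := hodd 0 (by omega)
    rw [j3] at a ⊢
    have b := (hH2 j j1).1
    push_cast at a ⊢
    omega
  have hDN : ¬ (-(m : ℤ) + ((2 * m + 1 : ℕ) : ℤ)) - H ((G (2 * m + 1) + m).toNat) < 0 := by
    obtain ⟨j, j1, j2, j3⟩ := hj (2 * m + 1) le_rfl
    rw [j3]
    have b := (hH2 j j1).2
    push_cast
    omega
  classical
  have hex : ∃ i : ℕ, ¬ (-(m : ℤ) + i) - H ((G i + m).toNat) < 0 := ⟨2 * m + 1, hDN⟩
  have hle : Nat.find hex ≤ 2 * m + 1 := Nat.find_min' hex hDN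
  have hpos : Nat.find hex ≠ 0 := by
    intro h0
    have := Nat.find_spec hex
    rw [h0] at this
    exact this hD0
  obtain ⟨i, hi⟩ : ∃ i, Nat.find hex = i + 1 := Nat.exists_eq_succ_of_ne_zero hpos
  have h1 : ¬ (-(m : ℤ) + ((i + 1 : ℕ) : ℤ)) - H ((G (i + 1) + m).toNat) < 0 := by
    have := Nat.find_spec hex
    rwa [hi] at this
  have h2 : (-(m : ℤ) + i) - H ((G i + m).toNat) < 0 := by
    by_contra hc
    have := Nat.find_min' hex hc
    omega
  have hiN : i < 2 * m + 1 := by omega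
  obtain ⟨j, j1, j2, j3⟩ := hj i (by omega)
  obtain ⟨j', j1', j2', j3'⟩ := hj (i + 1) (by omega)
  have o1 := hodd i (by omega)
  have o2 := hodd (i + 1) (by omega)
  rw [j3] at h2 o1
  rw [j3'] at h1 o2
  push_cast at h1 o2
  rcases hG i hiN with h | h
  · have e : j' = j + 1 := by omega
    subst e
    refine ⟨i, hiN, j, by omega, ?_, ?_⟩
    · rcases hH j (by omega) with h' | h' <;> rw [h'] at h1 o2 ⊢ <;>
        rcases min_cases (H j) (H j + 1) with q | q <;>
        rcases min_cases (H j) (H j - 1) with q' | q' <;> omega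
    · rw [h]
      rcases min_cases (G i) (G i + 1) with q | q <;> omega
  · have e : j = j' + 1 := by omega
    subst e
    refine ⟨i, hiN, j', by omega, ?_, ?_⟩
    · rcases hH j' (by omega) with h' | h' <;> rw [h'] at h2 o1 ⊢ <;>
        rcases min_cases (H j') (H j' + 1) with q | q <;>
        rcases min_cases (H j') (H j' - 1) with q' | q' <;> omega
    · rw [h]
      rcases min_cases (G i) (G i - 1) with q | q <;> omega

end Pool.Agent.Helper50.CD
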