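import Pool.Agent.Helper50.CD.Circ
import Pool.Agent.Helper50.CD.Zig
import Pool.Agent.Helper50.CD.Arms

set_option autoImplicit false

/-!
# CD-F: filling the square

Four arms outside of the square and a suitable pattern inside give a primal bi-infinite path and a dual bi-infinite path
which use a common cell; by `rd_fin`, `rc_fin` the edge of this cell is on no circuit and the dual edge on no dual
circuit.
-/

namespace Pool.Agent.Helper50.CD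

open Pool.Agent.Helper95.DG

/-- An infinite forward cluster of a finite set: some point has an infinite cluster. -/
private lemma fw_point (r : ℤ × ℤ → ℤ × ℤ → Prop) (S : Set (ℤ × ℤ)) (hS : S.Finite)
    (h : (Fw r S).Infinite) : ∃ a ∈ S, {z | Conn r Set.univ a z}.Infinite := by
  by_contra hcon
  push Not at hcon
  apply h
  have e : Fw r S = ⋃ a ∈ S, {z | Conn r Set.univ a z} := by
    ext z
    simp only [Set.mem_iUnion, exists_prop]
    exact Iff.rfl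
  rw [e]
  exact hS.biUnion fun a ha => hcon a ha

private lemma bw_point (r : ℤ × ℤ → ℤ × ℤ → Prop) (S : Set (ℤ × ℤ)) (hS : S.Finite)
    (h : (Bw r S).Infinite) : ∃ a ∈ S, {z | Conn r Set.univ z a}.Infinite := by
  by_contra hcon
  push Not at hcon
  apply h
  have e : Bw r S = ⋃ a ∈ S, {z | Conn r Set.univ z a} := by
    ext z
    simp only [Set.mem_iUnion, exists_prop]
    exact Iff.rfl
  rw [e]
  exact hS.biUnion fun a ha => hcon a ha

private lemma fin_box (m : ℤ) (S : Set (ℤ × ℤ))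
    (hS : ∀ z ∈ S, -m ≤ z.1 ∧ z.1 ≤ m + 1 ∧ -m ≤ z.2 ∧ z.2 ≤ m + 1) : S.Finite := by
  refine Set.Finite.subset (Set.Finite.prod (Set.finite_Icc (-m) (m + 1))
    (Set.finite_Icc (-m) (m + 1))) fun z hz => ?_
  have h := hS z hz
  exact ⟨⟨h.1, h.2.1⟩, ⟨h.2.2.1, h.2.2.2⟩⟩

/-- The core: a bi-infinite primal walk and a bi-infinite dual walk with a common cell. -/
private lemma core (ω : ℤ × ℤ → Bool) (m : ℤ) (a b x y u v s t : ℤ × ℤ)
    (hb : {z | Conn (PSo m ω) Set.univ b z}.Infinite)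
    (ha : {z | Conn (PSo m ω) Set.univ z a}.Infinite)
    (hy : {z | Conn (DSo m ω) Set.univ y z}.Infinite)
    (hx : {z | Conn (DSo m ω) Set.univ z x}.Infinite)
    (hu : Ev u) (hs : Od s) (huv : PS ω u v) (hst : DS ω s t) (hc : cell u v = cell s t)
    (h1 : Conn (PS ω) Set.univ a u) (h2 : Conn (PS ω) Set.univ v b)
    (h3 : Conn (DS ω) Set.univ x s) (h4 : Conn (DS ω) Set.univ t y) :
    ¬ Rc (cell u v) ω ∧ ¬ Rd (cell u v) ω := by
  constructor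
  · intro hR
    rw [hc] at hR
    rcases rc_fin ω s t hs hst hR with h5 | h5
    · apply hy
      refine h5.subset fun z hz => ?_
      exact conn_trans _ _ _ _ _ h4 (conn_mono _ _ _ _ _ _ (fun _ _ _ _ h => h.1)
        (fun _ h => h) hz)
    · apply hx
      refine h5.subset fun z hz => ?_
      exact conn_trans _ _ _ _ _ (conn_mono _ _ _ _ _ _ (fun _ _ _ _ h => h.1)
        (fun _ h => h) hz) h3
  · intro hR
    rcases rd_fin ω u v hu huv hR with h5 | h5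
    · apply hb
      refine h5.subset fun z hz => ?_
      exact conn_trans _ _ _ _ _ h2 (conn_mono _ _ _ _ _ _ (fun _ _ _ _ h => h.1)
        (fun _ h => h) hz)
    · apply ha
      refine h5.subset fun z hz => ?_
      exact conn_trans _ _ _ _ _ (conn_mono _ _ _ _ _ _ (fun _ _ _ _ h => h.1)
        (fun _ h => h) hz) h1

private lemma walk_conn (r : ℤ × ℤ → ℤ × ℤ → Prop) (n : ℕ) (f : ℕ → ℤ × ℤ)
    (hf : ∀ i < n, r (f i) (f (i + 1))) (i : ℕ) (hi : i < n) :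
    Conn r Set.univ (f 0) (f i) ∧ Conn r Set.univ (f (i + 1)) (f n) := by
  have hw : IsWalk r Set.univ n f := ⟨fun _ _ => Set.mem_univ _, hf⟩
  exact ⟨conn_of_walk r Set.univ Set.univ n f hw 0 i (Nat.zero_le _) hi.le
    (fun _ _ _ => Set.mem_univ _), conn_of_walk r Set.univ Set.univ n f hw (i + 1) n hi le_rfl
    (fun _ _ _ => Set.mem_univ _)⟩

/-- The points `(-m + k, G k)`. -/
private lemma parG (m : ℕ) (G : ℕ → ℤ) (e : ℤ)
    (G1 : ∀ i < 2 * m + 1, G (i + 1) = G i + 1 ∨ G (i + 1) = G i - 1)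
    (h0 : (-(m : ℤ) + G 0) % 2 = e) : ∀ k ≤ 2 * m + 1, (-(m : ℤ) + k + G k) % 2 = e := by
  intro k
  induction k with
  | zero => intro _; rw [← h0]; congr 1; push_cast; ring
  | succ k ih =>
    intro hk
    have h5 := ih (by omega)
    have h6 := G1 k (by omega)
    push_cast
    rcases h6 with h6 | h6 <;> rw [h6] <;> omega

private lemma cellG (a : ℤ) (k : ℕ) (x y : ℤ) :
    cell (a + k, x) (a + ((k + 1 : ℕ) : ℤ), y) = (a + k, min x y) := by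
  unfold cell
  ext
  · show min (a + k) (a + ((k + 1 : ℕ) : ℤ)) = a + k
    push_cast; omega
  · rfl

private lemma cellH (a : ℤ) (k : ℕ) (x y : ℤ) :
    cell (x, a + k) (y, a + ((k + 1 : ℕ) : ℤ)) = (min x y, a + k) := by
  unfold cell
  ext
  · rfl
  · show min (a + k) (a + ((k + 1 : ℕ) : ℤ)) = a + k
    push_cast; omega

private lemma inG (m k : ℕ) (x y : ℤ) (hk : k < 2 * m + 1) (h : y = x + 1 ∨ y = x - 1)
    (hx : -(m : ℤ) ≤ x ∧ x ≤ m + 1) (hy : -(m : ℤ) ≤ y ∧ y ≤ m + 1) :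
    In m (-(m : ℤ) + k, min x y) := by
  show -(m : ℤ) ≤ -(m : ℤ) + k ∧ -(m : ℤ) + k ≤ m ∧ -(m : ℤ) ≤ min x y ∧ min x y ≤ m
  omega

private lemma inH (m k : ℕ) (x y : ℤ) (hk : k < 2 * m + 1) (h : y = x + 1 ∨ y = x - 1)
    (hx : -(m : ℤ) ≤ x ∧ x ≤ m + 1) (hy : -(m : ℤ) ≤ y ∧ y ≤ m + 1) :
    In m (min x y, -(m : ℤ) + k) := by
  show -(m : ℤ) ≤ min x y ∧ min x y ≤ m ∧ -(m : ℤ) ≤ -(m : ℤ) + k ∧ -(m : ℤ) + k ≤ m
  omega

/-- Primal upward step, all bits true. -/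
private lemma stepT1 (ω : ℤ × ℤ → Bool) (a : ℤ) (k : ℕ) (x y : ℤ) (h : y = x + 1 ∨ y = x - 1)
    (hb : ω (a + k, min x y) = true) : PS ω (a + k, x) (a + ((k + 1 : ℕ) : ℤ), y) := by
  refine ⟨⟨Or.inl ?_, h⟩, ?_⟩
  · show a + ((k + 1 : ℕ) : ℤ) = a + k + 1
    push_cast; ring
  · rw [cellG, hb]
    refine ⟨fun _ => ?_, fun _ => rfl⟩
    show a + ((k + 1 : ℕ) : ℤ) = a + k + 1
    push_cast; ring

/-- Dual step to the right, all bits true. -/
private lemma stepT2 (ω : ℤ × ℤ → Bool) (a : ℤ) (k : ℕ) (x y : ℤ) (h : y = x + 1 ∨ y = x - 1)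
    (hb : ω (min x y, a + k) = true) : DS ω (x, a + k) (y, a + ((k + 1 : ℕ) : ℤ)) := by
  refine ⟨⟨h, Or.inl ?_⟩, ?_⟩
  · show a + ((k + 1 : ℕ) : ℤ) = a + k + 1
    push_cast; ring
  · rw [cellH, hb]
    refine ⟨fun _ => ?_, fun _ => rfl⟩
    show a + ((k + 1 : ℕ) : ℤ) = a + k + 1
    push_cast; ring

/-- Primal step to the right, chequered pattern. -/
private lemma stepR1 (ω : ℤ × ℤ → Bool) (a : ℤ) (k : ℕ) (x y : ℤ) (h : y = x + 1 ∨ y = x - 1)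
    (hp : (a + k + x) % 2 = 0) (hb : ω (min x y, a + k) = decide ((min x y + (a + k)) % 2 = 0)) :
    PS ω (x, a + k) (y, a + ((k + 1 : ℕ) : ℤ)) := by
  refine ⟨⟨h, Or.inl ?_⟩, ?_⟩
  · show a + ((k + 1 : ℕ) : ℤ) = a + k + 1
    push_cast; ring
  · rw [cellH, hb, decide_eq_true_iff]
    show (min x y + (a + k)) % 2 = 0 ↔ y = x + 1
    omega

/-- Dual step downwards, chequered pattern. -/
private lemma stepR2 (ω : ℤ × ℤ → Bool) (a : ℤ) (k : ℕ) (x y : ℤ) (h : y = x + 1 ∨ y = x - 1)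
    (hp : (a + k + x) % 2 = 1) (hb : ω (a + k, min x y) = decide ((a + k + min x y) % 2 = 0)) :
    DS ω (a + ((k + 1 : ℕ) : ℤ), y) (a + k, x) := by
  refine ⟨⟨Or.inr ?_, ?_⟩, ?_⟩
  · show a + k = a + ((k + 1 : ℕ) : ℤ) - 1
    push_cast; ring
  · show x = y + 1 ∨ x = y - 1
    omega
  · rw [cell_comm, cellG, hb, decide_eq_true_iff]
    show (a + k + min x y) % 2 = 0 ↔ x = y + 1
    omega

theorem case_T (m : ℕ) (ω : ℤ × ℤ → Bool) (hbox : ∀ c, In m c → ω c = true)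
    (h : Arms m (sT 0 m) (sB 0 m) (sR 1 m) (sL 1 m) ω) :
    ∃ c, In m c ∧ ¬ Rc c ω ∧ ¬ Rd c ω := by
  obtain ⟨g1, g2, g3, g4⟩ := h
  obtain ⟨b, ⟨hb1, hb2, hb3, hb4⟩, hb⟩ := fw_point _ _ (fin_box m _ (by
    rintro z ⟨z1, z2, z3, z4⟩; omega)) g1
  obtain ⟨a, ⟨ha1, ha2, ha3, ha4⟩, ha⟩ := bw_point _ _ (fin_box m _ (by
    rintro z ⟨z1, z2, z3, z4⟩; omega)) g2
  obtain ⟨y, ⟨hy1, hy2, hy3, hy4⟩, hy⟩ := fw_point _ _ (fin_box m _ (by
    rintro z ⟨z1, z2, z3, z4⟩; omega)) g3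
  obtain ⟨x, ⟨hx1, hx2, hx3, hx4⟩, hx⟩ := bw_point _ _ (fin_box m _ (by
    rintro z ⟨z1, z2, z3, z4⟩; omega)) g4
  obtain ⟨G, G0, Gn, G1, G2⟩ := zig (-(m : ℤ)) (m + 1) (by omega) (2 * m + 1) a.2 b.2 ha2 ha3 hb2 hb3
    (by push_cast; omega) (by push_cast; omega) (by push_cast; omega)
  obtain ⟨H, H0, Hn, H1, H2⟩ := zig (-(m : ℤ)) (m + 1) (by omega) (2 * m + 1) x.1 y.1 hx2 hx3 hy2 hy3
    (by push_cast; omega) (by push_cast; omega) (by push_cast; omega)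
  obtain ⟨i, hi, j, hj, e1, e2⟩ := common m 0 G H G1 G2 H1 H2 (by rw [G0]; omega)
    (by rw [H0]; omega)
  have hparG := parG m G 0 G1 (by rw [G0]; omega)
  have hparH := parG m H 1 H1 (by rw [H0]; omega)
  obtain ⟨f, hf⟩ : ∃ f : ℕ → ℤ × ℤ, ∀ k, f k = (-(m : ℤ) + k, G k) := ⟨_, fun _ => rfl⟩
  obtain ⟨l, hl⟩ : ∃ l : ℕ → ℤ × ℤ, ∀ k, l k = (H k, -(m : ℤ) + k) := ⟨_, fun _ => rfl⟩
  have sf : ∀ k < 2 * m + 1, PS ω (f k) (f (k + 1)) := by
    intro k hk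
    rw [hf, hf]
    exact stepT1 ω _ k _ _ (G1 k hk) (hbox _ (inG m k _ _ hk (G1 k hk) (G2 k hk.le) (G2 (k + 1) hk)))
  have sl : ∀ k < 2 * m + 1, DS ω (l k) (l (k + 1)) := by
    intro k hk
    rw [hl, hl]
    exact stepT2 ω _ k _ _ (H1 k hk) (hbox _ (inH m k _ _ hk (H1 k hk) (H2 k hk.le) (H2 (k + 1) hk)))
  have hcell : cell (f i) (f (i + 1)) = cell (l j) (l (j + 1)) := by
    rw [hf, hf, hl, hl, cellG, cellH, e1, e2]
  have ea : f 0 = a := by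
    rw [hf, G0]
    ext
    · rw [ha1]; simp
    · rfl
  have eb : f (2 * m + 1) = b := by
    rw [hf, Gn]
    ext
    · rw [hb1]
      show -(m : ℤ) + ((2 * m + 1 : ℕ) : ℤ) = m + 1
      push_cast; ring
    · rfl
  have ex : l 0 = x := by
    rw [hl, H0]
    ext
    · rfl
    · rw [hx1]; simp
  have ey : l (2 * m + 1) = y := by
    rw [hl, Hn]
    ext
    · rfl
    · rw [hy1]
      show -(m : ℤ) + ((2 * m + 1 : ℕ) : ℤ) = m + 1
      push_cast; ring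
  obtain ⟨c1, c2⟩ := walk_conn (PS ω) (2 * m + 1) f sf i hi
  obtain ⟨d1, d2⟩ := walk_conn (DS ω) (2 * m + 1) l sl j hj
  rw [ea] at c1
  rw [eb] at c2
  rw [ex] at d1
  rw [ey] at d2
  have hin : In m (cell (f i) (f (i + 1))) := by
    rw [hf, hf, cellG]
    exact inG m i _ _ hi (G1 i hi) (G2 i hi.le) (G2 (i + 1) hi)
  refine ⟨_, hin, core ω m a b x y _ _ _ _ hb ha hy hx ?_ ?_ (sf i hi) (sl j hj) hcell
    c1 c2 d1 d2⟩
  · rw [hf]
    exact hparG i hi.le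
  · rw [hl]
    show (H j + (-(m : ℤ) + j)) % 2 = 1
    rw [← hparH j hj.le]
    congr 1
    ring

theorem case_R (m : ℕ) (ω : ℤ × ℤ → Bool)
    (hbox : ∀ c, In m c → ω c = decide ((c.1 + c.2) % 2 = 0))
    (h : Arms m (sR 0 m) (sL 0 m) (sB 1 m) (sT 1 m) ω) :
    ∃ c, In m c ∧ ¬ Rc c ω ∧ ¬ Rd c ω := by
  obtain ⟨g1, g2, g3, g4⟩ := h
  obtain ⟨b, ⟨hb1, hb2, hb3, hb4⟩, hb⟩ := fw_point _ _ (fin_box m _ (by
    rintro z ⟨z1, z2, z3, z4⟩; omega)) g1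
  obtain ⟨a, ⟨ha1, ha2, ha3, ha4⟩, ha⟩ := bw_point _ _ (fin_box m _ (by
    rintro z ⟨z1, z2, z3, z4⟩; omega)) g2
  obtain ⟨y, ⟨hy1, hy2, hy3, hy4⟩, hy⟩ := fw_point _ _ (fin_box m _ (by
    rintro z ⟨z1, z2, z3, z4⟩; omega)) g3
  obtain ⟨x, ⟨hx1, hx2, hx3, hx4⟩, hx⟩ := bw_point _ _ (fin_box m _ (by
    rintro z ⟨z1, z2, z3, z4⟩; omega)) g4
  obtain ⟨G, G0, Gn, G1, G2⟩ := zig (-(m : ℤ)) (m + 1) (by omega) (2 * m + 1) y.2 x.2 hy2 hy3 hx2 hx3
    (by push_cast; omega) (by push_cast; omega) (by push_cast; omega)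
  obtain ⟨H, H0, Hn, H1, H2⟩ := zig (-(m : ℤ)) (m + 1) (by omega) (2 * m + 1) a.1 b.1 ha2 ha3 hb2 hb3
    (by push_cast; omega) (by push_cast; omega) (by push_cast; omega)
  obtain ⟨i, hi, j, hj, e1, e2⟩ := common m 1 G H G1 G2 H1 H2 (by rw [G0]; omega)
    (by rw [H0]; omega)
  have hparG := parG m G 1 G1 (by rw [G0]; omega)
  have hparH := parG m H 0 H1 (by rw [H0]; omega)
  obtain ⟨f, hf⟩ : ∃ f : ℕ → ℤ × ℤ, ∀ k, f k = (H k, -(m : ℤ) + k) := ⟨_, fun _ => rfl⟩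
  obtain ⟨q, hq⟩ : ∃ q : ℕ → ℤ × ℤ, ∀ k, q k = (-(m : ℤ) + k, G k) := ⟨_, fun _ => rfl⟩
  obtain ⟨l, hl⟩ : ∃ l : ℕ → ℤ × ℤ, ∀ k, l k = q (2 * m + 1 - k) := ⟨_, fun _ => rfl⟩
  have sf : ∀ k < 2 * m + 1, PS ω (f k) (f (k + 1)) := by
    intro k hk
    rw [hf, hf]
    exact stepR1 ω _ k _ _ (H1 k hk) (hparH k hk.le)
      (hbox _ (inH m k _ _ hk (H1 k hk) (H2 k hk.le) (H2 (k + 1) hk)))
  have sq : ∀ k < 2 * m + 1, DS ω (q (k + 1)) (q k) := by
    intro k hk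
    rw [hq, hq]
    exact stepR2 ω _ k _ _ (G1 k hk) (hparG k hk.le)
      (hbox _ (inG m k _ _ hk (G1 k hk) (G2 k hk.le) (G2 (k + 1) hk)))
  have hlq : ∀ k < 2 * m + 1, l k = q (2 * m - k + 1) ∧ l (k + 1) = q (2 * m - k) := by
    intro k hk
    rw [hl, hl, show 2 * m + 1 - k = 2 * m - k + 1 by omega,
      show 2 * m + 1 - (k + 1) = 2 * m - k by omega]
    exact ⟨rfl, rfl⟩
  have sl : ∀ k < 2 * m + 1, DS ω (l k) (l (k + 1)) := by
    intro k hk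
    rw [(hlq k hk).1, (hlq k hk).2]
    exact sq _ (by omega)
  have hi' : 2 * m - i < 2 * m + 1 := by omega
  have hii : 2 * m - (2 * m - i) = i := by omega
  have hlq' := hlq (2 * m - i) hi'
  rw [hii] at hlq'
  have hcell : cell (f j) (f (j + 1)) = cell (l (2 * m - i)) (l (2 * m - i + 1)) := by
    rw [hlq'.1, hlq'.2, cell_comm (q (i + 1)), hf, hf, hq, hq, cellG, cellH, e1, e2]
  have ea : f 0 = a := by
    rw [hf, H0]
    ext
    · rfl
    · rw [ha1]; simp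
  have eb : f (2 * m + 1) = b := by
    rw [hf, Hn]
    ext
    · rfl
    · rw [hb1]
      show -(m : ℤ) + ((2 * m + 1 : ℕ) : ℤ) = m + 1
      push_cast; ring
  have ex : l 0 = x := by
    rw [hl, Nat.sub_zero, hq, Gn]
    ext
    · rw [hx1]
      show -(m : ℤ) + ((2 * m + 1 : ℕ) : ℤ) = m + 1
      push_cast; ring
    · rfl
  have ey : l (2 * m + 1) = y := by
    rw [hl, Nat.sub_self, hq, G0]
    ext
    · rw [hy1]; simp
    · rfl
  obtain ⟨c1, c2⟩ := walk_conn (PS ω) (2 * m + 1) f sf j hj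
  obtain ⟨d1, d2⟩ := walk_conn (DS ω) (2 * m + 1) l sl (2 * m - i) hi'
  rw [ea] at c1
  rw [eb] at c2
  rw [ex] at d1
  rw [ey] at d2
  have hin : In m (cell (f j) (f (j + 1))) := by
    rw [hf, hf, cellH]
    exact inH m j _ _ hj (H1 j hj) (H2 j hj.le) (H2 (j + 1) hj)
  refine ⟨_, hin, core ω m a b x y _ _ _ _ hb ha hy hx ?_ ?_ (sf j hj) (sl (2 * m - i) hi') hcell
    c1 c2 d1 d2⟩
  · rw [hf]
    show (H j + (-(m : ℤ) + j)) % 2 = 0
    rw [← hparH j hj.le]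
    congr 1
    ring
  · rw [hlq'.1, hq]
    exact hparG (i + 1) hi

/-! ### Negation of all bits -/

private lemma pso_not (m : ℤ) (ω : ℤ × ℤ → Bool) (u v : ℤ × ℤ) :
    PSo m (fun c => !(ω c)) u v ↔ PSo m ω v u := by
  unfold PSo
  rw [PS_not, cell_comm u v]

private lemma dso_not (m : ℤ) (ω : ℤ × ℤ → Bool) (u v : ℤ × ℤ) :
    DSo m (fun c => !(ω c)) u v ↔ DSo m ω v u := by
  unfold DSo
  rw [DS_not, cell_comm u v]

private lemma conn_not (r r' : ℤ × ℤ → ℤ × ℤ → Prop) (h : ∀ u v, r u v ↔ r' v u) (a b : ℤ × ℤ) :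
    Conn r Set.univ a b ↔ Conn r' Set.univ b a := by
  constructor
  · exact fun hc => conn_map_rev r r' Set.univ Set.univ (fun z => z) (fun x y hxy => (h x y).1 hxy)
      (fun _ _ => Set.mem_univ _) a b hc
  · exact fun hc => conn_map_rev r' r Set.univ Set.univ (fun z => z) (fun x y hxy => (h y x).2 hxy)
      (fun _ _ => Set.mem_univ _) b a hc

private lemma arms_not (m : ℤ) (S1 S2 S3 S4 : Set (ℤ × ℤ)) (ω : ℤ × ℤ → Bool)
    (h : Arms m S1 S2 S3 S4 ω) : Arms m S2 S1 S4 S3 (fun c => !(ω c)) := by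
  obtain ⟨h1, h2, h3, h4⟩ := h
  have e1 : Fw (PSo m (fun c => !(ω c))) S2 = Bw (PSo m ω) S2 := by
    ext z
    exact exists_congr fun a => and_congr_right fun _ => conn_not _ _ (pso_not m ω) a z
  have e2 : Bw (PSo m (fun c => !(ω c))) S1 = Fw (PSo m ω) S1 := by
    ext z
    exact exists_congr fun a => and_congr_right fun _ => conn_not _ _ (pso_not m ω) z a
  have e3 : Fw (DSo m (fun c => !(ω c))) S4 = Bw (DSo m ω) S4 := by
    ext z
    exact exists_congr fun a => and_congr_right fun _ => conn_not _ _ (dso_not m ω) a z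
  have e4 : Bw (DSo m (fun c => !(ω c))) S3 = Fw (DSo m ω) S3 := by
    ext z
    exact exists_congr fun a => and_congr_right fun _ => conn_not _ _ (dso_not m ω) z a
  refine ⟨?_, ?_, ?_, ?_⟩
  · rw [e1]; exact h2
  · rw [e2]; exact h1
  · rw [e3]; exact h4
  · rw [e4]; exact h3

theorem case_B (m : ℕ) (ω : ℤ × ℤ → Bool) (hbox : ∀ c, In m c → ω c = false)
    (h : Arms m (sB 0 m) (sT 0 m) (sL 1 m) (sR 1 m) ω) :
    ∃ c, In m c ∧ ¬ Rc c ω ∧ ¬ Rd c ω := by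
  obtain ⟨c, hc, h1, h2⟩ := case_T m (fun c => !(ω c))
    (fun c hc => by rw [hbox c hc]; rfl) (arms_not m _ _ _ _ ω h)
  rw [rc_not] at h1
  rw [rd_not] at h2
  exact ⟨c, hc, h1, h2⟩

theorem case_L (m : ℕ) (ω : ℤ × ℤ → Bool)
    (hbox : ∀ c, In m c → ω c = !decide ((c.1 + c.2) % 2 = 0))
    (h : Arms m (sL 0 m) (sR 0 m) (sT 1 m) (sB 1 m) ω) :
    ∃ c, In m c ∧ ¬ Rc c ω ∧ ¬ Rd c ω := by
  obtain ⟨c, hc, h1, h2⟩ := case_R m (fun c => !(ω c))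
    (fun c hc => by rw [hbox c hc, Bool.not_not]) (arms_not m _ _ _ _ ω h)
  rw [rc_not] at h1
  rw [rd_not] at h2
  exact ⟨c, hc, h1, h2⟩

end Pool.Agent.Helper50.CD
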