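import Pool.Agent.Helper50.CD.Zero
import Pool.Agent.Helper50.CD.Expl

set_option autoImplicit false

/-!
# CD-S: one side of a large square is joined to infinity with high probability

`union_side`: if an even point `v` of the square has an infinite forward cluster then the set of even points of the
four sides has an infinite forward cluster OUTSIDE of the square (rule `PSo m ω`). Proof: suppose it is finite, `C`. Every
`z` reached from `v` lies in the square or in `C`: take a walk `f` from `v` to `z`, `z` outside of the square `Q =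
{-m ≤ h ≤ m+1, -m ≤ g ≤ m+1}`, and the last `i` with `f i ∈ Q` (`Nat.findGreatest` or induction on the length). Then
`f (i+1) ∉ Q`, so `f i` lies on a side (a step changes both coordinates by 1), it is even, and all steps from `i` on have
an endpoint outside of `Q`, so their cell is not `In m` (`In m (cell x y)` with `Diag x y` gives `x, y ∈ Q`): they are
steps of `PSo m ω`, so `z ∈ C`. The set `Q` is finite. Contradiction.

`sides`: by `exists_inf` and monotone convergence (`tendsto_measure_iUnion_atTop`, or: the union over `m : ℕ` of the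
monotone events `E m = {some even v in the square Q_m has an infinite forward cluster}` has probability 1) there is an `m`
with `Pr (E m) > 1 - (1/8)^4`. By `union_side`, `E m ⊆ {Fw (PSo m ω) (sB ∪ sT ∪ sL ∪ sR) infinite}`. `Fw` of a union is
the union; by `expl` (three times; the points of the sides with `k = 0` are even)
`P(Fw sB fin) P(Fw sT fin) P(Fw sL fin) P(Fw sR fin) ≤ P(all finite) < (1/8)^4`, so one factor is `< 1/8`, and
`P(Fw S infinite) = 1 - P(Fw S finite)` (`meas_fin`, `Pr_compl`).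
-/

namespace Pool.Agent.Helper50.CD

open MeasureTheory
open scoped ENNReal NNReal
open Pool.Agent.Helper95.DG

private theorem not_in_of (m : ℤ) (x y : ℤ × ℤ) (hd : Diag x y)
    (hy : y ∉ Rect (-m) (m + 1) (-m) (m + 1)) : ¬ In m (cell x y) := by
  intro hin
  apply hy
  obtain ⟨h1, h2, h3, h4⟩ := hin
  simp only [cell] at h1 h2 h3 h4
  obtain ⟨hd1, hd2⟩ := hd
  refine ⟨?_, ?_, ?_, ?_⟩
  · exact le_trans h1 (min_le_right _ _)
  · rcases hd1 with e | e <;> rw [e] at h2 ⊢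
    · rw [min_eq_left (by omega)] at h2; omega
    · rw [min_eq_right (by omega)] at h2; omega
  · exact le_trans h3 (min_le_right _ _)
  · rcases hd2 with e | e <;> rw [e] at h4 ⊢
    · rw [min_eq_left (by omega)] at h4; omega
    · rw [min_eq_right (by omega)] at h4; omega

private theorem side_of (m : ℤ) (x y : ℤ × ℤ) (hd : Diag x y) (he : Ev x)
    (hx : x ∈ Rect (-m) (m + 1) (-m) (m + 1)) (hy : y ∉ Rect (-m) (m + 1) (-m) (m + 1)) :
    x ∈ sB 0 m ∪ sT 0 m ∪ sL 0 m ∪ sR 0 m := by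
  obtain ⟨h1, h2, h3, h4⟩ := hx
  obtain ⟨hd1, hd2⟩ := hd
  unfold Ev at he
  have he' : (x.1 + x.2 + 0) % 2 = 0 := by omega
  have hy' : ¬ (-m ≤ y.1 ∧ y.1 ≤ m + 1 ∧ -m ≤ y.2 ∧ y.2 ≤ m + 1) := hy
  have key : x.1 = -m ∨ x.1 = m + 1 ∨ x.2 = -m ∨ x.2 = m + 1 := by
    by_contra hcon
    push Not at hcon
    obtain ⟨a1, a2, a3, a4⟩ := hcon
    apply hy'
    rcases hd1 with e | e <;> rcases hd2 with e' | e' <;> rw [e, e'] <;>
      refine ⟨?_, ?_, ?_, ?_⟩ <;> omega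
  rcases key with e | e | e | e
  · exact Or.inl (Or.inl (Or.inl ⟨e, h3, h4, he'⟩))
  · exact Or.inl (Or.inl (Or.inr ⟨e, h3, h4, he'⟩))
  · exact Or.inl (Or.inr ⟨e, h1, h2, he'⟩)
  · exact Or.inr ⟨e, h1, h2, he'⟩

private theorem rect_finite (a b c d : ℤ) : (Rect a b c d).Finite := by
  refine ((Set.finite_Icc a b).prod (Set.finite_Icc c d)).subset ?_
  rintro ⟨x, y⟩ ⟨h1, h2, h3, h4⟩
  exact ⟨⟨h1, h2⟩, ⟨h3, h4⟩⟩

private theorem ev_walk (ω : ℤ × ℤ → Bool) (n : ℕ) (f : ℕ → ℤ × ℤ)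
    (hf : ∀ i < n, PS ω (f i) (f (i + 1))) (h0 : Ev (f 0)) : ∀ i ≤ n, Ev (f i) := by
  intro i
  induction i with
  | zero => intro _; exact h0
  | succ k ih =>
    intro hk
    have h1 := ih (by omega)
    have h2 := (hf k (by omega)).1
    obtain ⟨hd1, hd2⟩ := h2
    unfold Ev at h1 ⊢
    rcases hd1 with e | e <;> rcases hd2 with e' | e' <;> rw [e, e'] <;> omega

theorem union_side (m : ℕ) (ω : ℤ × ℤ → Bool) (v : ℤ × ℤ) (hv : Ev v)
    (h1 : -(m : ℤ) ≤ v.1) (h2 : v.1 ≤ m + 1) (h3 : -(m : ℤ) ≤ v.2) (h4 : v.2 ≤ m + 1)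
    (hinf : {z : ℤ × ℤ | Conn (PS ω) Set.univ v z}.Infinite) :
    (Fw (PSo m ω) (sB 0 m ∪ sT 0 m ∪ sL 0 m ∪ sR 0 m)).Infinite := by
  classical
  intro hfin
  apply hinf
  refine ((rect_finite (-(m : ℤ)) (m + 1) (-(m : ℤ)) (m + 1)).union hfin).subset ?_
  rintro z ⟨n, f, hf, hf0, hfn⟩
  by_cases hz : z ∈ Rect (-(m : ℤ)) (m + 1) (-(m : ℤ)) (m + 1)
  · exact Or.inl hz
  right
  set P : ℕ → Prop := fun i => f i ∈ Rect (-(m : ℤ)) (m + 1) (-(m : ℤ)) (m + 1) with hP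
  have hP0 : P 0 := by
    show f 0 ∈ _
    rw [hf0]
    exact ⟨h1, h2, h3, h4⟩
  set i := Nat.findGreatest P n with hi
  have hPi : P i := Nat.findGreatest_spec (Nat.zero_le n) hP0
  have hin : i ≤ n := Nat.findGreatest_le n
  have hafter : ∀ k, i < k → k ≤ n → ¬ P k := fun k hk hkn =>
    Nat.findGreatest_is_greatest hk hkn
  have hne : i ≠ n := by
    intro he
    apply hz
    rw [← hfn, ← he]
    exact hPi
  have hlt : i < n := lt_of_le_of_ne hin hne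
  have hev : Ev (f i) := ev_walk ω n f hf.2 (by rw [hf0]; exact hv) i hin
  refine ⟨f i, ?_, n - i, fun j => f (i + j), ⟨fun _ _ => Set.mem_univ _, fun j hj => ?_⟩, rfl, ?_⟩
  · exact side_of m (f i) (f (i + 1)) (hf.2 i hlt).1 hev hPi (hafter (i + 1) (by omega) (by omega))
  · have hs := hf.2 (i + j) (by omega)
    exact ⟨hs, not_in_of m _ _ hs.1 (hafter (i + j + 1) (by omega) (by omega))⟩
  · show f (i + (n - i)) = z
    rw [Nat.add_sub_cancel' hin, hfn]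

private theorem Fw_union (r : ℤ × ℤ → ℤ × ℤ → Prop) (S T : Set (ℤ × ℤ)) :
    Fw r (S ∪ T) = Fw r S ∪ Fw r T := by
  ext z
  constructor
  · rintro ⟨a, ha | ha, h⟩
    · exact Or.inl ⟨a, ha, h⟩
    · exact Or.inr ⟨a, ha, h⟩
  · rintro (⟨a, ha, h⟩ | ⟨a, ha, h⟩)
    · exact ⟨a, Or.inl ha, h⟩
    · exact ⟨a, Or.inr ha, h⟩

private theorem expl_union (p : ℝ≥0) (hp : p ≤ 1) (m : ℤ) (S T : Set (ℤ × ℤ)) (hS : ∀ a ∈ S, Ev a)
    (hT : ∀ a ∈ T, Ev a) :
    Pr p hp {ω | (Fw (PSo m ω) S).Finite} * Pr p hp {ω | (Fw (PSo m ω) T).Finite} ≤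
      Pr p hp {ω | (Fw (PSo m ω) (S ∪ T)).Finite} := by
  refine (expl p hp m S T hS hT).trans (Pr_mono p hp ?_)
  rintro ω ⟨h1, h2⟩
  show (Fw (PSo m ω) (S ∪ T)).Finite
  rw [Fw_union]
  exact h1.union h2

/-- Some even point of the square has an infinite cluster. -/
private def Em (m : ℕ) : Set (ℤ × ℤ → Bool) :=
  {ω | ∃ v : ℤ × ℤ, (Ev v ∧ v ∈ Rect (-(m : ℤ)) (m + 1) (-(m : ℤ)) (m + 1)) ∧
    {z : ℤ × ℤ | Conn (PS ω) Set.univ v z}.Infinite}

private theorem Em_mono : Monotone Em := by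
  intro a b hab ω hω
  obtain ⟨v, ⟨hv, h1, h2, h3, h4⟩, hi⟩ := hω
  have hab' : (a : ℤ) ≤ b := by exact_mod_cast hab
  exact ⟨v, ⟨hv, by omega, by omega, by omega, by omega⟩, hi⟩

private theorem Em_union : (⋃ m, Em m) =
    {ω | ∃ v : ℤ × ℤ, Ev v ∧ {z : ℤ × ℤ | Conn (PS ω) Set.univ v z}.Infinite} := by
  ext ω
  constructor
  · intro h
    obtain ⟨m, v, ⟨hv, -⟩, hi⟩ := Set.mem_iUnion.1 h
    exact ⟨v, hv, hi⟩
  · rintro ⟨v, hv, hi⟩
    refine Set.mem_iUnion.2 ⟨v.1.natAbs + v.2.natAbs, v, ⟨hv, ?_, ?_, ?_, ?_⟩, hi⟩ <;> omega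

private theorem exists_m (p : ℝ≥0) (hp : p ≤ 1) (h : 0 < th p hp) (c : ℝ) (hc : c < 1) :
    ∃ m : ℕ, c < Pr p hp (Em m) := by
  have h1 : Filter.Tendsto (fun m => mu p hp (Em m)) Filter.atTop
      (nhds (mu p hp (⋃ m, Em m))) := tendsto_measure_iUnion_atTop Em_mono
  have h2 : Filter.Tendsto (fun m => Pr p hp (Em m)) Filter.atTop
      (nhds (Pr p hp (⋃ m, Em m))) := by
    unfold Pr Measure.real
    exact (ENNReal.tendsto_toReal (measure_ne_top _ _)).comp h1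
  rw [Em_union, exists_inf p hp h] at h2
  exact (h2.eventually (lt_mem_nhds hc)).exists

theorem sides (p : ℝ≥0) (hp : p ≤ 1) (h : 0 < th p hp) :
    ∃ m : ℕ, 7 / 8 ≤ Pr p hp {ω | (Fw (PSo m ω) (sB 0 m)).Infinite} ∨
      7 / 8 ≤ Pr p hp {ω | (Fw (PSo m ω) (sT 0 m)).Infinite} ∨
      7 / 8 ≤ Pr p hp {ω | (Fw (PSo m ω) (sL 0 m)).Infinite} ∨
      7 / 8 ≤ Pr p hp {ω | (Fw (PSo m ω) (sR 0 m)).Infinite} := by
  obtain ⟨m, hm⟩ := exists_m p hp h (1 - (1 / 8) ^ 4) (by norm_num)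
  refine ⟨m, ?_⟩
  have hB : ∀ a ∈ sB 0 (m : ℤ), Ev a := by
    rintro a ⟨-, -, -, h⟩
    unfold Ev; omega
  have hT : ∀ a ∈ sT 0 (m : ℤ), Ev a := by
    rintro a ⟨-, -, -, h⟩
    unfold Ev; omega
  have hL : ∀ a ∈ sL 0 (m : ℤ), Ev a := by
    rintro a ⟨-, -, -, h⟩
    unfold Ev; omega
  have hR : ∀ a ∈ sR 0 (m : ℤ), Ev a := by
    rintro a ⟨-, -, -, h⟩
    unfold Ev; omega
  have hBT : ∀ a ∈ sB 0 (m : ℤ) ∪ sT 0 m, Ev a := by
    rintro a (h | h)
    · exact hB a h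
    · exact hT a h
  have hBTL : ∀ a ∈ sB 0 (m : ℤ) ∪ sT 0 m ∪ sL 0 m, Ev a := by
    rintro a (h | h)
    · exact hBT a h
    · exact hL a h
  have e1 := expl_union p hp m _ _ hB hT
  have e2 := expl_union p hp m _ _ hBT hL
  have e3 := expl_union p hp m _ _ hBTL hR
  -- complement formula
  have hc : ∀ S : Set (ℤ × ℤ), Pr p hp {ω | (Fw (PSo m ω) S).Infinite} =
      1 - Pr p hp {ω | (Fw (PSo m ω) S).Finite} := by
    intro S
    rw [← Pr_compl p hp (meas_fin (PSo m) (meas_PSo m) S)]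
    rfl
  have hall : Pr p hp {ω | (Fw (PSo m ω) (sB 0 m ∪ sT 0 m ∪ sL 0 m ∪ sR 0 m)).Finite} <
      (1 / 8) ^ 4 := by
    have h1 : Pr p hp (Em m) ≤
        Pr p hp {ω | (Fw (PSo m ω) (sB 0 m ∪ sT 0 m ∪ sL 0 m ∪ sR 0 m)).Infinite} := by
      refine Pr_mono p hp ?_
      rintro ω ⟨v, ⟨hv, h1, h2, h3, h4⟩, hi⟩
      exact union_side m ω v hv h1 h2 h3 h4 hi
    rw [hc] at h1
    linarith
  rw [hc, hc, hc, hc]
  set b := Pr p hp {ω | (Fw (PSo m ω) (sB 0 m)).Finite}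
  set t := Pr p hp {ω | (Fw (PSo m ω) (sT 0 m)).Finite}
  set l := Pr p hp {ω | (Fw (PSo m ω) (sL 0 m)).Finite}
  set r := Pr p hp {ω | (Fw (PSo m ω) (sR 0 m)).Finite}
  have hb0 : 0 ≤ b := Pr_nonneg _ _ _
  have ht0 : 0 ≤ t := Pr_nonneg _ _ _
  have hl0 : 0 ≤ l := Pr_nonneg _ _ _
  have hr0 : 0 ≤ r := Pr_nonneg _ _ _
  by_contra hcon
  push Not at hcon
  obtain ⟨c1, c2, c3, c4⟩ := hcon
  have d1 : 1 / 8 < b := by linarith
  have d2 : 1 / 8 < t := by linarith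
  have d3 : 1 / 8 < l := by linarith
  have d4 : 1 / 8 < r := by linarith
  have p1 : (1 / 8) ^ 2 ≤ b * t := by nlinarith
  have p2 : (1 / 8) ^ 3 ≤ b * t * l := by nlinarith
  have p3 : (1 / 8) ^ 4 ≤ b * t * l * r := by nlinarith
  have q1 : b * t * l ≤ Pr p hp {ω | (Fw (PSo m ω) (sB 0 m ∪ sT 0 m ∪ sL 0 m)).Finite} :=
    (mul_le_mul_of_nonneg_right e1 hl0).trans e2
  have q2 : b * t * l * r ≤
      Pr p hp {ω | (Fw (PSo m ω) (sB 0 m ∪ sT 0 m ∪ sL 0 m ∪ sR 0 m)).Finite} :=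
    (mul_le_mul_of_nonneg_right q1 hr0).trans e3
  linarith

end Pool.Agent.Helper50.CD
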