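import Pool.Agent.Helper50.CD.Fill
import Pool.Agent.Helper50.CD.Sides
import Pool.Agent.Helper50.CD.Energy

set_option autoImplicit false

/-!
# CD: percolation implies that the density of circuit edges is smaller than 1/2
-/

namespace Pool.Agent.Helper50.CD

open MeasureTheory
open scoped ENNReal NNReal
open Pool.Agent.Helper95.DG

/-- From the four arms and the pattern to an edge which is on no circuit and on no dual circuit. -/
theorem rho_lt_of_arms (p : ℝ≥0) (hp : p ≤ 1) (h0 : 0 < p) (h1 : p < 1) (m : ℕ)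
    (S1 S2 S3 S4 : Set (ℤ × ℤ)) (pat : ℤ × ℤ → Bool)
    (hA : 1 / 2 ≤ Pr p hp {ω | Arms m S1 S2 S3 S4 ω})
    (hcase : ∀ ω, (∀ c, In m c → ω c = pat c) → Arms m S1 S2 S3 S4 ω →
      ∃ c, In m c ∧ ¬ Rc c ω ∧ ¬ Rd c ω) : rho p hp < 1 / 2 := by
  classical
  have h2 := energy p hp h0 h1 m {ω | Arms m S1 S2 S3 S4 ω} (meas_arms m S1 S2 S3 S4)
    (dep_arms m S1 S2 S3 S4) pat (by linarith)
  obtain ⟨F, hF⟩ : ∃ F : Finset (ℤ × ℤ), ∀ c, c ∈ F ↔ In m c := by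
    refine ⟨(Finset.Icc (-(m : ℤ)) m) ×ˢ (Finset.Icc (-(m : ℤ)) m), fun c => ?_⟩
    rw [Finset.mem_product, Finset.mem_Icc, Finset.mem_Icc]
    unfold In
    tauto
  by_contra hcon
  have h3 : ∀ c, Pr p hp {ω | ¬ Rc c ω ∧ ¬ Rd c ω} = 0 := by
    intro c
    by_contra hne
    exact hcon (rho_lt p hp c (lt_of_le_of_ne (Pr_nonneg p hp _) (Ne.symm hne)))
  have h4 : {ω : ℤ × ℤ → Bool | Arms m S1 S2 S3 S4 ω} ∩ {ω | ∀ c, In m c → ω c = pat c} ⊆
      ⋃ c ∈ F, {ω : ℤ × ℤ → Bool | ¬ Rc c ω ∧ ¬ Rd c ω} := by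
    rintro ω ⟨ha, hb⟩
    obtain ⟨c, hc, hn⟩ := hcase ω hb ha
    exact Set.mem_iUnion₂.2 ⟨c, (hF c).2 hc, hn⟩
  have h5 := (Pr_mono p hp h4).trans (Pr_biUnion_le p hp F _)
  rw [Finset.sum_eq_zero (fun c _ => h3 c)] at h5
  linarith

theorem rho_lt_of_th (p : ℝ≥0) (hp : p ≤ 1) (h : 0 < th p hp) : rho p hp < 1 / 2 := by
  rcases eq_or_lt_of_le (show (0 : ℝ≥0) ≤ p from bot_le) with h0 | h0
  · subst h0
    rw [rho_zero]
    norm_num
  rcases eq_or_lt_of_le hp with h1 | h1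
  · subst h1
    rw [rho_one]
    norm_num
  obtain ⟨m, hm | hm | hm | hm⟩ := sides p hp h
  · exact rho_lt_of_arms p hp h0 h1 m _ _ _ _ (fun _ => false) (arms_B p hp m hm)
      (fun ω hb ha => case_B m ω hb ha)
  · exact rho_lt_of_arms p hp h0 h1 m _ _ _ _ (fun _ => true) (arms_T p hp m hm)
      (fun ω hb ha => case_T m ω hb ha)
  · exact rho_lt_of_arms p hp h0 h1 m _ _ _ _ (fun c => !decide ((c.1 + c.2) % 2 = 0))
      (arms_L p hp m hm) (fun ω hb ha => case_L m ω hb ha)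
  · exact rho_lt_of_arms p hp h0 h1 m _ _ _ _ (fun c => decide ((c.1 + c.2) % 2 = 0))
      (arms_R p hp m hm) (fun ω hb ha => case_R m ω hb ha)

end Pool.Agent.Helper50.CD
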