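import Pool.Agent.Helper50.CD.Defs2
import Pool.Agent.Helper95.DG.Cross

set_option autoImplicit false

/-!
# CD-P: the potential of a closed dual walk

`pot`: for a closed dual walk there is an integer valued function of finite support on the points which does not
decrease along primal steps (between even points) and increases along the primal step of every cell used by the
walk. For `(h, g)` it is the number of signed crossings of the level `h + 1/2` by the closed walk right of `g`.
-/

namespace Pool.Agent.Helper50.CD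

open Pool.Agent.Helper95.DG

/-- The four ways a dual step uses a cell. -/
private lemma use_cases (ω : ℤ × ℤ → Bool) (x y : ℤ × ℤ) (h g : ℤ) (hxy : DS ω x y)
    (hc : cell x y = (h, g)) :
    (ω (h, g) = true → (x.1 = h ∧ x.2 = g ∧ y.1 = h + 1 ∧ y.2 = g + 1) ∨
      (x.1 = h + 1 ∧ x.2 = g ∧ y.1 = h ∧ y.2 = g + 1)) ∧
    (ω (h, g) = false → (x.1 = h ∧ x.2 = g + 1 ∧ y.1 = h + 1 ∧ y.2 = g) ∨
      (x.1 = h + 1 ∧ x.2 = g + 1 ∧ y.1 = h ∧ y.2 = g)) := by
  obtain ⟨⟨h1, h2⟩, h3⟩ := hxy
  rw [hc] at h3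
  unfold cell at hc
  simp only [Prod.mk.injEq] at hc
  constructor
  · intro hb
    have := h3.1 hb
    omega
  · intro hb
    have : ¬ y.2 = x.2 + 1 := by
      intro h4
      have := h3.2 h4
      rw [hb] at this
      exact Bool.false_ne_true this
    omega

/-- The potential of a closed dual walk. -/
theorem pot (ω : ℤ × ℤ → Bool) (x y : ℤ × ℤ) (hx : Od x) (hxy : DS ω x y)
    (hyx : Conn (DS ω) Set.univ y x) :
    ∃ U : ℤ × ℤ → ℤ, {z | U z ≠ 0}.Finite ∧
      (∀ u w, Ev u → PS ω u w → U u ≤ U w) ∧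
      (∀ u w, Ev u → PS ω u w → cell u w = cell x y → U u < U w) := by
  obtain ⟨n, δ', hδ', hδ0', hδn'⟩ := hyx
  obtain ⟨δ, hd1, hd2⟩ : ∃ δ : ℕ → ℤ × ℤ, (∀ j ≤ n, δ j = δ' j) ∧ δ (n + 1) = y := by
    refine ⟨fun j => if j ≤ n then δ' j else y, fun j hj => ?_, ?_⟩
    · simp only [hj, if_true]
    · simp only [show ¬ n + 1 ≤ n by omega, if_false]
  have hδ0 : δ 0 = y := by rw [hd1 0 (Nat.zero_le _), hδ0']
  have hδn : δ n = x := by rw [hd1 n le_rfl, hδn']
  have hstep : ∀ j < n + 1, DS ω (δ j) (δ (j + 1)) := by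
    intro j hj
    by_cases hjn : j = n
    · subst hjn
      rw [hδn, hd2]
      exact hxy
    · rw [hd1 j (by omega), hd1 (j + 1) (by omega)]
      exact hδ'.2 j (by omega)
  have hpar : ∀ j ≤ n + 1, ((δ j).1 + (δ j).2 + (0 + 1)) % 2 = 0 := by
    have hy : (y.1 + y.2 + (0 + 1)) % 2 = 0 := by
      have h2 := hxy.1
      unfold Diag at h2
      unfold Od at hx
      omega
    intro j
    induction j with
    | zero => intro _; rw [hδ0]; exact hy
    | succ j ih =>
      intro hj
      have h1 := ih (by omega)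
      have h2 := (hstep j (by omega)).1
      unfold Diag at h2
      omega
  obtain ⟨U, hU⟩ : ∃ U : ℤ → ℤ → ℤ, ∀ i x, U i x = ∑ j ∈ Finset.range (n + 1),
      if min (δ j).1 (δ (j + 1)).1 = i ∧ 2 * x < (δ j).2 + (δ (j + 1)).2 then
        (δ (j + 1)).1 - (δ j).1 else 0 := ⟨_, fun _ _ => rfl⟩
  obtain ⟨A, hA⟩ : ∃ A : ℤ → ℤ → ℤ → ℤ, ∀ h g ε, A h g ε = ∑ j ∈ Finset.range (n + 1),
      if (δ j).1 = h ∧ (δ j).2 = g + ε ∧ (δ (j + 1)).1 = h + 1 ∧ (δ (j + 1)).2 = g then 1
          else 0 := ⟨_, fun _ _ _ => rfl⟩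
  obtain ⟨B, hB⟩ : ∃ B : ℤ → ℤ → ℤ → ℤ, ∀ h g ε, B h g ε = ∑ j ∈ Finset.range (n + 1),
      if (δ j).1 = h + 1 ∧ (δ j).2 = g ∧ (δ (j + 1)).1 = h ∧ (δ (j + 1)).2 = g + ε then 1
          else 0 := ⟨_, fun _ _ _ => rfl⟩
  have key : ∀ h g ε : ℤ, (ε = 1 ∨ ε = -1) → (h + g + 0) % 2 = 0 →
      U (h + 1) (g + ε) - U h g = -ε * (A h g ε - B h g ε) := by
    intro h g ε hε hp
    have htel : ∑ j ∈ Finset.range (n + 1),
        ((if (δ (j + 1)).1 = h + 1 ∧ g + ε < (δ (j + 1)).2 then (1 : ℤ) else 0) -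
          (if (δ j).1 = h + 1 ∧ g + ε < (δ j).2 then (1 : ℤ) else 0)) = 0 := by
      rw [Finset.sum_range_sub (fun j => if (δ j).1 = h + 1 ∧ g + ε < (δ j).2 then (1 : ℤ) else 0),
        hd2, hδ0, sub_self]
    have h3 : U (h + 1) (g + ε) - U h g = U (h + 1) (g + ε) - U h g +
        ∑ j ∈ Finset.range (n + 1),
        ((if (δ (j + 1)).1 = h + 1 ∧ g + ε < (δ (j + 1)).2 then (1 : ℤ) else 0) -
          (if (δ j).1 = h + 1 ∧ g + ε < (δ j).2 then (1 : ℤ) else 0)) := by
      rw [htel, add_zero]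
    rw [h3, hU, hU, hA, hB, ← Finset.sum_sub_distrib, ← Finset.sum_add_distrib,
      ← Finset.sum_sub_distrib, Finset.mul_sum]
    refine Finset.sum_congr rfl fun j hj => ?_
    rw [Finset.mem_range] at hj
    have e1 := hpar j hj.le
    have e3 := (hstep j hj).1
    exact step_id 0 h g ε _ _ _ _ hε hp e1 e3.1 e3.2
  have hA0 : ∀ h g ε, 0 ≤ A h g ε := by
    intro h g ε
    rw [hA]
    exact Finset.sum_nonneg fun j _ => by split_ifs <;> norm_num
  have hB0 : ∀ h g ε, 0 ≤ B h g ε := by
    intro h g ε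
    rw [hB]
    exact Finset.sum_nonneg fun j _ => by split_ifs <;> norm_num
  -- a use of a cell
  have hcell : ∀ j < n + 1, ∀ h g : ℤ, (δ j).1 = h + 1 ∨ (δ j).1 = h → (δ (j + 1)).1 = h + 1 ∨
      (δ (j + 1)).1 = h → (δ j).2 = g + 1 ∨ (δ j).2 = g → (δ (j + 1)).2 = g + 1 ∨
      (δ (j + 1)).2 = g → cell (δ j) (δ (j + 1)) = (h, g) := by
    intro j hj h g h1 h2 h3 h4
    have h5 := (hstep j hj).1
    unfold Diag at h5
    unfold cell
    ext
    · show min _ _ = h
      omega
    · show min _ _ = g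
      omega
  -- a use forces the bit
  have hA1 : ∀ h g, ω (h, g) = true → A h g 1 = 0 := by
    intro h g hb
    rw [hA]
    refine Finset.sum_eq_zero fun j hj => ?_
    rw [Finset.mem_range] at hj
    rw [if_neg]
    rintro ⟨a1, a2, a3, a4⟩
    have e := use_cases ω _ _ h g (hstep j hj) (hcell j hj h g (by omega) (by omega) (by omega)
      (by omega))
    have := e.1 hb
    omega
  have hB1 : ∀ h g, ω (h, g) = false → B h g 1 = 0 := by
    intro h g hb
    rw [hB]
    refine Finset.sum_eq_zero fun j hj => ?_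
    rw [Finset.mem_range] at hj
    rw [if_neg]
    rintro ⟨a1, a2, a3, a4⟩
    have e := use_cases ω _ _ h g (hstep j hj) (hcell j hj h g (by omega) (by omega) (by omega)
      (by omega))
    have := e.2 hb
    omega
  have hA2 : ∀ h g, ω (h, g - 1) = false → A h g (-1) = 0 := by
    intro h g hb
    rw [hA]
    refine Finset.sum_eq_zero fun j hj => ?_
    rw [Finset.mem_range] at hj
    rw [if_neg]
    rintro ⟨a1, a2, a3, a4⟩
    have e := use_cases ω _ _ h (g - 1) (hstep j hj) (hcell j hj h (g - 1) (by omega) (by omega)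
      (by omega) (by omega))
    have := e.2 hb
    omega
  have hB2 : ∀ h g, ω (h, g - 1) = true → B h g (-1) = 0 := by
    intro h g hb
    rw [hB]
    refine Finset.sum_eq_zero fun j hj => ?_
    rw [Finset.mem_range] at hj
    rw [if_neg]
    rintro ⟨a1, a2, a3, a4⟩
    have e := use_cases ω _ _ h (g - 1) (hstep j hj) (hcell j hj h (g - 1) (by omega) (by omega)
      (by omega) (by omega))
    have := e.1 hb
    omega
  -- positivity at the cell of the step `x → y`
  have hAp : ∀ h g ε, ((x.1 = h ∧ x.2 = g + ε ∧ y.1 = h + 1 ∧ y.2 = g) → 1 ≤ A h g ε) := by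
    rintro h g ε hh
    rw [hA]
    have hs := Finset.single_le_sum (f := fun j => if (δ j).1 = h ∧ (δ j).2 = g + ε ∧
      (δ (j + 1)).1 = h + 1 ∧ (δ (j + 1)).2 = g then (1 : ℤ) else 0)
      (fun j _ => by split_ifs <;> norm_num) (Finset.mem_range.2 (Nat.lt_succ_self n))
    refine le_trans ?_ hs
    simp only [hδn, hd2]
    rw [if_pos hh]
  have hBp : ∀ h g ε, ((x.1 = h + 1 ∧ x.2 = g ∧ y.1 = h ∧ y.2 = g + ε) → 1 ≤ B h g ε) := by
    rintro h g ε hh
    rw [hB]
    have hs := Finset.single_le_sum (f := fun j => if (δ j).1 = h + 1 ∧ (δ j).2 = g ∧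
      (δ (j + 1)).1 = h ∧ (δ (j + 1)).2 = g + ε then (1 : ℤ) else 0)
      (fun j _ => by split_ifs <;> norm_num) (Finset.mem_range.2 (Nat.lt_succ_self n))
    refine le_trans ?_ hs
    simp only [hδn, hd2]
    rw [if_pos hh]
  -- the change of `U` along a primal step
  have hmono : ∀ u w : ℤ × ℤ, Ev u → PS ω u w → U u.1 u.2 ≤ U w.1 w.2 ∧
      (cell u w = cell x y → U u.1 u.2 + 1 ≤ U w.1 w.2) := by
    rintro ⟨h, g⟩ ⟨h', g'⟩ hu ⟨⟨hh, hg⟩, hb⟩
    unfold Ev at hu
    simp only at hu hh hg hb ⊢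
    rcases hh with rfl | rfl <;> rcases hg with rfl | rfl
    · have ec : cell (h, g) (h + 1, g + 1) = (h, g) := by
        unfold cell
        ext
        · show min h (h + 1) = h; omega
        · show min g (g + 1) = g; omega
      rw [ec] at hb ⊢
      have hbt := hb.2 rfl
      have hk := key h g 1 (Or.inl rfl) (by omega)
      rw [hA1 h g hbt] at hk
      have h0 := hB0 h g 1
      refine ⟨by omega, fun hc => ?_⟩
      have h5 := (use_cases ω x y h g hxy hc.symm).1 hbt
      have h6 : 1 ≤ B h g 1 := hBp h g 1 (by unfold Od at hx; omega)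
      omega
    · have ec : cell (h, g) (h + 1, g - 1) = (h, g - 1) := by
        unfold cell
        ext
        · show min h (h + 1) = h; omega
        · show min g (g - 1) = g - 1; omega
      rw [ec] at hb ⊢
      have hbt := hb.2 rfl
      have hk := key h g (-1) (Or.inr rfl) (by omega)
      rw [hB2 h g hbt] at hk
      have h0 := hA0 h g (-1)
      rw [show g + -1 = g - 1 by ring] at hk
      refine ⟨by omega, fun hc => ?_⟩
      have h5 := (use_cases ω x y h (g - 1) hxy hc.symm).1 hbt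
      have h6 : 1 ≤ A h g (-1) := hAp h g (-1) (by unfold Od at hx; omega)
      omega
    · have ec : cell (h, g) (h - 1, g + 1) = (h - 1, g + 1 - 1) := by
        unfold cell
        ext
        · show min h (h - 1) = h - 1; omega
        · show min g (g + 1) = g + 1 - 1; omega
      rw [ec] at hb ⊢
      have hbf : ω (h - 1, g + 1 - 1) = false := by
        rw [← Bool.not_eq_true]
        intro h1
        have := hb.1 h1
        omega
      have hk := key (h - 1) (g + 1) (-1) (Or.inr rfl) (by omega)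
      rw [hA2 (h - 1) (g + 1) hbf] at hk
      have h0 := hB0 (h - 1) (g + 1) (-1)
      rw [show g + 1 + -1 = g by ring, show h - 1 + 1 = h by ring] at hk
      refine ⟨by omega, fun hc => ?_⟩
      have h5 := (use_cases ω x y (h - 1) (g + 1 - 1) hxy hc.symm).2 hbf
      have h6 : 1 ≤ B (h - 1) (g + 1) (-1) := hBp (h - 1) (g + 1) (-1) (by unfold Od at hx; omega)
      omega
    · have ec : cell (h, g) (h - 1, g - 1) = (h - 1, g - 1) := by
        unfold cell
        ext
        · show min h (h - 1) = h - 1; omega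
        · show min g (g - 1) = g - 1; omega
      rw [ec] at hb ⊢
      have hbf : ω (h - 1, g - 1) = false := by
        rw [← Bool.not_eq_true]
        intro h1
        have := hb.1 h1
        omega
      have hk := key (h - 1) (g - 1) 1 (Or.inl rfl) (by omega)
      rw [hB1 (h - 1) (g - 1) hbf] at hk
      have h0 := hA0 (h - 1) (g - 1) 1
      rw [show g - 1 + 1 = g by ring, show h - 1 + 1 = h by ring] at hk
      refine ⟨by omega, fun hc => ?_⟩
      have h5 := (use_cases ω x y (h - 1) (g - 1) hxy hc.symm).2 hbf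
      have h6 : 1 ≤ A (h - 1) (g - 1) 1 := hAp (h - 1) (g - 1) 1 (by unfold Od at hx; omega)
      omega
  -- the support
  obtain ⟨M, hM⟩ : ∃ M : ℤ, ∀ j ≤ n + 1, |(δ j).1| ≤ M ∧ |(δ j).2| ≤ M := by
    refine ⟨∑ j ∈ Finset.range (n + 2), (|(δ j).1| + |(δ j).2|), fun j hj => ?_⟩
    have hs := Finset.single_le_sum (f := fun j => |(δ j).1| + |(δ j).2|)
      (fun j _ => by positivity) (Finset.mem_range.2 (show j < n + 2 by omega))
    have h1 := abs_nonneg (δ j).1
    have h2 := abs_nonneg (δ j).2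
    constructor <;> omega
  have hU0 : ∀ i z : ℤ, U i z ≠ 0 → -M ≤ i ∧ i ≤ M ∧ -M ≤ z ∧ z ≤ M := by
    intro i z hne
    by_contra hcon
    apply hne
    rw [hU]
    by_cases hz : z < -M
    · have h1 : ∀ j ∈ Finset.range (n + 1),
          (if min (δ j).1 (δ (j + 1)).1 = i ∧ 2 * z < (δ j).2 + (δ (j + 1)).2 then
            (δ (j + 1)).1 - (δ j).1 else 0) =
          (if i + 1 ≤ (δ (j + 1)).1 then (1 : ℤ) else 0) - (if i + 1 ≤ (δ j).1 then 1 else 0) := by
        intro j hj
        rw [Finset.mem_range] at hj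
        have h2 := (hstep j hj).1
        unfold Diag at h2
        have h3 := hM j (by omega)
        have h4 := hM (j + 1) (by omega)
        rw [abs_le, abs_le] at h3 h4
        split_ifs <;> omega
      rw [Finset.sum_congr rfl h1, Finset.sum_range_sub
        (fun j => if i + 1 ≤ (δ j).1 then (1 : ℤ) else 0), hd2, hδ0, sub_self]
    · refine Finset.sum_eq_zero fun j hj => ?_
      rw [Finset.mem_range] at hj
      rw [if_neg]
      rintro ⟨a1, a2⟩
      have h2 := (hstep j hj).1
      unfold Diag at h2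
      have h3 := hM j (by omega)
      have h4 := hM (j + 1) (by omega)
      rw [abs_le, abs_le] at h3 h4
      apply hcon
      omega
  refine ⟨fun z => U z.1 z.2, ?_, fun u w hu h => (hmono u w hu h).1, fun u w hu h hc => ?_⟩
  · refine Set.Finite.subset (Set.Finite.prod (Set.finite_Icc (-M) M) (Set.finite_Icc (-M) M)) ?_
    intro z hz
    have := hU0 z.1 z.2 hz
    exact ⟨⟨this.1, this.2.1⟩, ⟨this.2.2.1, this.2.2.2⟩⟩
  · have := (hmono u w hu h).2 hc
    show U u.1 u.2 < U w.1 w.2
    omega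

end Pool.Agent.Helper50.CD
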