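import Pool.Agent.Helper50.CD.Cut
import Pool.Agent.Helper50.CD.Excl
import Pool.Agent.Helper95.DG.Fsc

set_option autoImplicit false

/-!
# CD-04: the probabilities

`up_le`: the probability of `Up m` is at most `1/2`. `up_ge`: it is at least `1/2 - (m+1) θ / 2`, where `θ` is
the probability of an infinite cluster of the origin. `rot_up`: the rotation `(h, g) ↦ (1 - g, h)` of the
points, `(i, j) ↦ (-j, i)` of the cells, maps `Up` to `UpD`.
-/

namespace Pool.Agent.Helper50.CD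

open MeasureTheory
open scoped ENNReal NNReal
open Pool.Agent.Helper95.DG

/-- The rotation of the cells. -/
def rot : (ℤ × ℤ) ≃ (ℤ × ℤ) where
  toFun c := (-c.2, c.1)
  invFun c := (c.2, -c.1)
  left_inv c := by simp
  right_inv c := by simp

theorem rot_step (m : ℤ) (ω : ℤ × ℤ → Bool) (u v : ℤ × ℤ) :
    PSo m (fun c => ω (rot c)) u v ↔ DSo m ω (1 - u.2, u.1) (1 - v.2, v.1) := by
  unfold PSo DSo PS DS
  constructor
  · rintro ⟨⟨⟨h1, h2⟩, h3⟩, h4⟩
    have e : cell (1 - u.2, u.1) (1 - v.2, v.1) = rot (cell u v) := by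
      unfold cell rot
      ext
      · show min (1 - u.2) (1 - v.2) = -min u.2 v.2; omega
      · rfl
    refine ⟨⟨⟨?_, h1⟩, ?_⟩, ?_⟩
    · show 1 - v.2 = 1 - u.2 + 1 ∨ 1 - v.2 = 1 - u.2 - 1; omega
    · rw [e]; exact h3
    · rw [e]
      intro hin
      apply h4
      unfold In rot at hin
      unfold In
      simp only [Equiv.coe_fn_mk] at hin
      omega
  · rintro ⟨⟨⟨h1, h2⟩, h3⟩, h4⟩
    have h1' : 1 - v.2 = 1 - u.2 + 1 ∨ 1 - v.2 = 1 - u.2 - 1 := h1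
    have e : cell (1 - u.2, u.1) (1 - v.2, v.1) = rot (cell u v) := by
      unfold cell rot
      ext
      · show min (1 - u.2) (1 - v.2) = -min u.2 v.2; omega
      · rfl
    rw [e] at h3 h4
    refine ⟨⟨⟨h2, ?_⟩, h3⟩, ?_⟩
    · omega
    · intro hin
      apply h4
      unfold In rot
      unfold In at hin
      simp only [Equiv.coe_fn_mk]
      omega

theorem rot_up (m : ℤ) (ω : ℤ × ℤ → Bool) : Up m (fun c => ω (rot c)) ↔ UpD m ω := by
  constructor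
  · rintro ⟨a, b, ⟨ha1, ha2, ha3, ha4⟩, ⟨hb1, hb2, hb3, hb4⟩, hc⟩
    refine ⟨(1 - a.2, a.1), (1 - b.2, b.1), ⟨ha1, ?_, ?_, ?_⟩, ⟨hb1, ?_, ?_, ?_⟩, ?_⟩
    · show -m ≤ 1 - a.2; omega
    · show 1 - a.2 ≤ m + 1; omega
    · show (1 - a.2 + a.1) % 2 = 1; omega
    · show -m ≤ 1 - b.2; omega
    · show 1 - b.2 ≤ m + 1; omega
    · show (1 - b.2 + b.1) % 2 = 1; omega
    · exact conn_map _ _ Set.univ Set.univ (fun z => (1 - z.2, z.1))
        (fun x y hxy => (rot_step m ω x y).1 hxy) (fun _ _ => Set.mem_univ _) a b hc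
  · rintro ⟨x, y, ⟨hx1, hx2, hx3, hx4⟩, ⟨hy1, hy2, hy3, hy4⟩, hc⟩
    refine ⟨(x.2, 1 - x.1), (y.2, 1 - y.1), ⟨hx1, ?_, ?_, ?_⟩, ⟨hy1, ?_, ?_, ?_⟩, ?_⟩
    · show -m ≤ 1 - x.1; omega
    · show 1 - x.1 ≤ m + 1; omega
    · show (x.2 + (1 - x.1)) % 2 = 0; omega
    · show -m ≤ 1 - y.1; omega
    · show 1 - y.1 ≤ m + 1; omega
    · show (y.2 + (1 - y.1)) % 2 = 0; omega
    · refine conn_map (DSo m ω) (PSo m (fun c => ω (rot c))) Set.univ Set.univ
        (fun z => (z.2, 1 - z.1)) (fun u v huv => (rot_step m ω _ _).2 ?_)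
        (fun _ _ => Set.mem_univ _) x y hc
      simp only [sub_sub_cancel]
      exact huv

theorem meas_PSo (m : ℤ) (x y : ℤ × ℤ) : MeasurableSet {ω : ℤ × ℤ → Bool | PSo m ω x y} := by
  unfold PSo
  exact (meas_PS x y).inter (MeasurableSet.const _)

theorem meas_DSo (m : ℤ) (x y : ℤ × ℤ) : MeasurableSet {ω : ℤ × ℤ → Bool | DSo m ω x y} := by
  unfold DSo
  exact (meas_DS x y).inter (MeasurableSet.const _)

theorem meas_Up (m : ℤ) : MeasurableSet {ω : ℤ × ℤ → Bool | Up m ω} := by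
  have h1 := meas_ex_gen (PSo m) (meas_PSo m) Set.univ (fun a b => Bot m a ∧ Top m b)
  have e : {ω : ℤ × ℤ → Bool | Up m ω} =
      {ω | ∃ a b, Bot m a ∧ Top m b ∧ Conn (PSo m ω) Set.univ a b} := rfl
  rw [e]
  simpa only [and_assoc] using h1

theorem meas_UpD (m : ℤ) : MeasurableSet {ω : ℤ × ℤ → Bool | UpD m ω} := by
  have h1 := meas_ex_gen (DSo m) (meas_DSo m) Set.univ (fun a b => Lft m a ∧ Rgt m b)
  have e : {ω : ℤ × ℤ → Bool | UpD m ω} =
      {ω | ∃ a b, Lft m a ∧ Rgt m b ∧ Conn (DSo m ω) Set.univ a b} := rfl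
  rw [e]
  simpa only [and_assoc] using h1

theorem pr_upD (p : ℝ≥0) (hp : p ≤ 1) (m : ℤ) :
    Pr p hp {ω | UpD m ω} = Pr p hp {ω | Up m ω} := by
  rw [← Pr_comp p hp rot (meas_Up m)]
  congr 1
  ext ω
  exact (rot_up m ω).symm

theorem up_le (p : ℝ≥0) (hp : p ≤ 1) (m : ℕ) : Pr p hp {ω | Up m ω} ≤ 1 / 2 := by
  have h1 : {ω : ℤ × ℤ → Bool | UpD m ω} ⊆ {ω : ℤ × ℤ → Bool | Up m ω}ᶜ := by
    intro ω h2 h1
    exact excl m ω h1 h2
  have h2 := Pr_mono p hp h1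
  rw [Pr_compl p hp (meas_Up m), pr_upD] at h2
  linarith

/-- The percolation probability. -/
noncomputable def th (p : ℝ≥0) (hp : p ≤ 1) : ℝ :=
  Pr p hp {ω | {v : ℤ × ℤ | Conn (PS ω) Set.univ (0, 0) v}.Infinite}

theorem up_ge (p : ℝ≥0) (hp : p ≤ 1) (m : ℕ) :
    1 / 2 - (m + 1) * th p hp / 2 ≤ Pr p hp {ω | Up m ω} := by
  classical
  obtain ⟨F, hF⟩ : ∃ F : ℕ → ℤ × ℤ, F = fun t : ℕ => (-(m : ℤ), -(m : ℤ) + 2 * t) := ⟨_, rfl⟩
  have h1 : (Set.univ : Set (ℤ × ℤ → Bool)) ⊆ {ω | Up m ω} ∪ ({ω | UpD m ω} ∪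
      ⋃ t ∈ Finset.range (m + 1),
        {ω : ℤ × ℤ → Bool | {v : ℤ × ℤ | Conn (PS ω) Set.univ (F t) v}.Infinite}) := by
    intro ω _
    by_cases hu : Up m ω
    · exact Or.inl hu
    by_cases hd : UpD m ω
    · exact Or.inr (Or.inl hd)
    right; right
    by_contra hcon
    apply hd
    refine cut m ω ?_ ?_
    · have hsub : Reach m ω ⊆ ⋃ t ∈ Finset.range (m + 1),
          {v : ℤ × ℤ | Conn (PS ω) Set.univ (F t) v} := by
        rintro z ⟨a, ⟨ha1, ha2, ha3, ha4⟩, hc⟩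
        refine Set.mem_iUnion₂.2 ⟨((a.2 + m) / 2).toNat, ?_, ?_⟩
        · rw [Finset.mem_range]; omega
        · have ea : F ((a.2 + m) / 2).toNat = a := by
            rw [hF]
            ext
            · exact ha1.symm
            · show -(m : ℤ) + 2 * (((a.2 + m) / 2).toNat : ℤ) = a.2
              omega
          show Conn (PS ω) Set.univ (F ((a.2 + m) / 2).toNat) z
          rw [ea]
          exact conn_mono _ _ _ _ _ _ (fun u v _ _ h => h.1) (fun _ h => h) hc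
      refine Set.Finite.subset ?_ hsub
      refine Set.Finite.biUnion (Finset.finite_toSet _) fun t ht => ?_
      by_contra hinf
      exact hcon (Set.mem_iUnion₂.2 ⟨t, ht, hinf⟩)
    · intro b hb htop
      obtain ⟨a, ha, hc⟩ := hb
      exact hu ⟨a, b, ha, htop, hc⟩
  have h2 : (1 : ℝ) ≤ Pr p hp {ω | Up m ω} + (Pr p hp {ω | UpD m ω} +
      ∑ t ∈ Finset.range (m + 1), Pr p hp
        {ω : ℤ × ℤ → Bool | {v : ℤ × ℤ | Conn (PS ω) Set.univ (F t) v}.Infinite}) := by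
    have hu1 : Pr p hp Set.univ = 1 := by
      unfold Pr mu
      simp
    rw [← hu1]
    refine (Pr_mono p hp h1).trans ((Pr_union_le p hp _ _).trans ?_)
    gcongr
    refine (Pr_union_le p hp _ _).trans ?_
    gcongr
    exact Pr_biUnion_le p hp _ _
  have h3 : ∀ t ∈ Finset.range (m + 1), Pr p hp
      {ω : ℤ × ℤ → Bool | {v : ℤ × ℤ | Conn (PS ω) Set.univ (F t) v}.Infinite} = th p hp :=
    fun t _ => inf_shift p hp (F t)
  rw [Finset.sum_congr rfl h3, Finset.sum_const, Finset.card_range, pr_upD] at h2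
  rw [nsmul_eq_mul] at h2
  push_cast at h2
  linarith

end Pool.Agent.Helper50.CD
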