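import Pool.Agent.Helper50.CD.Dn
import Pool.Agent.Helper50.CD.Circ
import Pool.Agent.Helper95.DG.Coord

set_option autoImplicit false

/-!
# CD-T: transfer to the coordinates of the problem

Copy the private lemmas `tau`, `tau_inj`, `tau_even`, `tau_odd`, `TT`, `arrow_iff`, `TT_inj`, `TI`, `TT_TI`, `map_law`,
`koenig_path`, `arrow_fin`, `meas_inf` of `Helper95/DG/Coord.lean` (read its header). `TT (x, y) = (x + y, x - y)`,
`arrow_iff η u v : Arrow η u v ↔ PS (fun c => η (tau c)) (TT u) (TT v)`, `map_law : (nu p hp).map (fun η c => η (tau c)) =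
mu p hp`, `cell (TT a) (TT b)` for the endpoints `a, b` of the edge `(x, y, false)` is `(x + y, x - y)`, for `(x, y, true)`
it is `(x + y, x - y - 1)`.
Generalise `conn_iff` to an arbitrary start: for `u v` in the image of `TT`, walks of `Arrow η` from `a` to `b` correspond
to walks of `PS (fun c => η (tau c))` from `TT a` to `TT b` (the points of a walk of `PS` starting at an even point are
even, so they are in the image of `TT`: `TT_TI`).
`tr_th`: both inclusions: an injective infinite path gives an infinite cluster; conversely König (`koenig_path`).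
`tr_up`, `tr_dn`: `InD m a ∧ InD m b ↔ In m (cell (TT a) (TT b))` for neighbours `a, b` (unfold `In`, `cell`, `TT`, `InD`;
omega), `Bot m (TT a) ↔ InD m a ∧ a.1 + a.2 = -m`, `Top m (TT b) ↔ InD m b ∧ b.1 + b.2 = m + 1`.
`tr_rc`: `OnC η e ↔ Rc (cell of e) (fun c => η (tau c))`, then `pr_rc`. From a circuit `f` with `f 0 = a`, `f 1 = b`: the
step `TT a → TT b` and the walk `f 1, ..., f n = f 0`. Conversely let `Conn (PS ω) univ v u` with `PS ω u v`, `u`
even, `cell u v = c`; pull back to a walk of `Arrow η` from `b` to `a`; take one of minimal length `n - 1` (`Nat.find`): it is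
injective on `{0, ..., n-1}` (else cut out a loop), prepend `a`: `f 0 = a`, `f (k+1) = g k`. The two points `u, v` with
`cell u v = c`, `Diag u v`, `u` even are the two even corners of the cell, i.e. `TT` of the endpoints of `e` in one of the
two orders.
-/

namespace Pool.Agent.Helper50.CD

open MeasureTheory
open scoped ENNReal NNReal
open Pool.Agent.Helper95.DG

/-- The diamond. -/
def InD (m : ℕ) (z : ℤ × ℤ) : Prop :=
  -(m : ℤ) ≤ z.1 + z.2 ∧ z.1 + z.2 ≤ m + 1 ∧ -(m : ℤ) ≤ z.1 - z.2 ∧ z.1 - z.2 ≤ m + 1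

/-- The edge with ends `a`, `b` lies on an oriented circuit. -/
def OnC (η : ℤ × ℤ × Bool → Bool) (a b : ℤ × ℤ) : Prop :=
  ∃ (n : ℕ) (f : ℕ → ℤ × ℤ), 0 < n ∧ f n = f 0 ∧ (∀ i < n, ∀ j < n, f i = f j → i = j) ∧
    (∀ k < n, Arrow η (f k) (f (k + 1))) ∧ ((f 0 = a ∧ f 1 = b) ∨ (f 0 = b ∧ f 1 = a))

/-- The edge of a cell. -/
private def tau (c : ℤ × ℤ) : ℤ × ℤ × Bool :=
  if (c.1 + c.2) % 2 = 0 then ((c.1 + c.2) / 2, (c.1 - c.2) / 2, false)
  else ((c.1 + c.2 + 1) / 2, (c.1 - c.2 - 1) / 2, true)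

private lemma tau_inj : Function.Injective tau := by
  rintro ⟨a, b⟩ ⟨c, d⟩ h
  unfold tau at h
  simp only at h
  split_ifs at h with h1 h2 h2
  · simp only [Prod.mk.injEq, and_true] at h
    ext <;> simp only <;> omega
  · simp only [Prod.mk.injEq] at h
    exact absurd h.2.2 (by decide)
  · simp only [Prod.mk.injEq] at h
    exact absurd h.2.2 (by decide)
  · simp only [Prod.mk.injEq, and_true] at h
    ext <;> simp only <;> omega

private lemma tau_even (x y : ℤ) : tau (x + y, x - y) = (x, y, false) := by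
  unfold tau
  simp only
  rw [if_pos (by omega)]
  ext <;> simp only <;> omega

private lemma tau_odd (x y : ℤ) : tau (x + y, x - y - 1) = (x, y, true) := by
  unfold tau
  simp only
  rw [if_neg (by omega)]
  ext <;> simp only <;> omega

/-- The point of the rotated lattice. -/
private def TT (z : ℤ × ℤ) : ℤ × ℤ := (z.1 + z.2, z.1 - z.2)

private lemma arrow_iff (η : ℤ × ℤ × Bool → Bool) (u v : ℤ × ℤ) :
    Arrow η u v ↔ PS (fun c => η (tau c)) (TT u) (TT v) := by
  obtain ⟨x, y⟩ := u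
  obtain ⟨x', y'⟩ := v
  unfold Arrow PS Diag cell TT
  simp only [Prod.mk.injEq]
  constructor
  · rintro (⟨⟨h1, h2⟩, h3⟩ | ⟨⟨h1, h2⟩, h3⟩ | ⟨⟨h1, h2⟩, h3⟩ | ⟨⟨h1, h2⟩, h3⟩)
    · subst h1 h2
      refine ⟨⟨Or.inl (by ring), Or.inl (by ring)⟩, ?_⟩
      have e : (min (x + y') (x + 1 + y'), min (x - y') (x + 1 - y')) = (x + y', x - y') := by
        ext <;> simp only <;> omega
      rw [e, tau_even, h3]
      simp only [true_iff]
      ring
    · subst h1 h2
      refine ⟨⟨Or.inr (by ring), Or.inr (by ring)⟩, ?_⟩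
      have e : (min (x + y') (x - 1 + y'), min (x - y') (x - 1 - y')) =
          ((x - 1) + y', (x - 1) - y') := by
        ext <;> simp only <;> omega
      rw [e, tau_even, h3]
      simp only [Bool.false_eq_true, false_iff]
      omega
    · subst h1 h2
      refine ⟨⟨Or.inl (by ring), Or.inr (by ring)⟩, ?_⟩
      have e : (min (x' + y) (x' + (y + 1)), min (x' - y) (x' - (y + 1))) =
          (x' + y, x' - y - 1) := by
        ext <;> simp only <;> omega
      rw [e, tau_odd, h3]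
      simp only [true_iff]
      ring
    · subst h1 h2
      refine ⟨⟨Or.inr (by ring), Or.inl (by ring)⟩, ?_⟩
      have e : (min (x' + y) (x' + (y - 1)), min (x' - y) (x' - (y - 1))) =
          (x' + (y - 1), x' - (y - 1) - 1) := by
        ext <;> simp only <;> omega
      rw [e, tau_odd, h3]
      simp only [Bool.false_eq_true, false_iff]
      omega
  · rintro ⟨⟨h1 | h1, h2 | h2⟩, h3⟩
    · left
      have hx : x' = x + 1 := by omega
      have hy : y' = y := by omega
      subst hx hy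
      refine ⟨⟨rfl, rfl⟩, ?_⟩
      have e : (min (x + y') (x + 1 + y'), min (x - y') (x + 1 - y')) = (x + y', x - y') := by
        ext <;> simp only <;> omega
      rw [e, tau_even] at h3
      exact h3.mpr h1
    · right; right; left
      have hx : x' = x := by omega
      have hy : y' = y + 1 := by omega
      subst hx hy
      refine ⟨⟨rfl, rfl⟩, ?_⟩
      have e : (min (x' + y) (x' + (y + 1)), min (x' - y) (x' - (y + 1))) =
          (x' + y, x' - y - 1) := by
        ext <;> simp only <;> omega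
      rw [e, tau_odd] at h3
      exact h3.mpr h1
    · right; right; right
      have hx : x' = x := by omega
      have hy : y' = y - 1 := by omega
      subst hx hy
      refine ⟨⟨rfl, rfl⟩, ?_⟩
      have e : (min (x' + y) (x' + (y - 1)), min (x' - y) (x' - (y - 1))) =
          (x' + (y - 1), x' - (y - 1) - 1) := by
        ext <;> simp only <;> omega
      rw [e, tau_odd] at h3
      rw [← Bool.not_eq_true]
      intro h4
      have := h3.mp h4
      omega
    · right; left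
      have hx : x' = x - 1 := by omega
      have hy : y' = y := by omega
      subst hx hy
      refine ⟨⟨rfl, rfl⟩, ?_⟩
      have e : (min (x + y') (x - 1 + y'), min (x - y') (x - 1 - y')) =
          ((x - 1) + y', (x - 1) - y') := by
        ext <;> simp only <;> omega
      rw [e, tau_even] at h3
      rw [← Bool.not_eq_true]
      intro h4
      have := h3.mp h4
      omega

private lemma TT_inj : Function.Injective TT := by
  rintro ⟨a, b⟩ ⟨c, d⟩ h
  unfold TT at h
  simp only [Prod.mk.injEq] at h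
  ext <;> simp only <;> omega

/-- The inverse of `TT`. -/
private def TI (z : ℤ × ℤ) : ℤ × ℤ := ((z.1 + z.2) / 2, (z.1 - z.2) / 2)

private lemma TT_TI (z : ℤ × ℤ) (hz : (z.1 + z.2) % 2 = 0) : TT (TI z) = z := by
  obtain ⟨a, b⟩ := z
  unfold TT TI
  simp only at hz ⊢
  ext <;> simp only <;> omega


private lemma TT_even (a : ℤ × ℤ) : ((TT a).1 + (TT a).2) % 2 = 0 := by
  unfold TT
  simp only
  omega

/-- Walks of a relation on the rotated lattice from an even point. -/
private lemma conn_gen (q r : ℤ × ℤ → ℤ × ℤ → Prop) (hqr : ∀ u v, q u v ↔ r (TT u) (TT v))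
    (hr : ∀ u v, r u v → Diag u v) (a v : ℤ × ℤ) :
    Conn r Set.univ (TT a) v ↔
      ∃ (m : ℕ) (f : ℕ → ℤ × ℤ), f 0 = a ∧ TT (f m) = v ∧ ∀ k < m, q (f k) (f (k + 1)) := by
  constructor
  · rintro ⟨m, g, ⟨_, hg⟩, h0, hm⟩
    have hpar : ∀ k ≤ m, ((g k).1 + (g k).2) % 2 = 0 := by
      intro k
      induction k with
      | zero =>
        intro _
        rw [h0]
        exact TT_even a
      | succ k ih =>
        intro hk
        have h1 := ih (by omega)
        have h2 := hr _ _ (hg k (by omega))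
        unfold Diag at h2
        omega
    refine ⟨m, fun k => TI (g k), ?_, ?_, ?_⟩
    · simp only [h0]
      apply TT_inj
      rw [TT_TI _ (TT_even a)]
    · simp only
      rw [TT_TI _ (hpar m le_rfl), hm]
    · intro k hk
      rw [hqr]
      simp only
      rw [TT_TI _ (hpar k (by omega)), TT_TI _ (hpar (k + 1) (by omega))]
      exact hg k hk
  · rintro ⟨m, f, h0, hm, hf⟩
    refine ⟨m, fun k => TT (f k), ⟨fun i _ => Set.mem_univ _, ?_⟩, ?_, ?_⟩
    · intro i hi
      exact (hqr _ _).mp (hf i hi)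
    · simp only [h0]
    · exact hm

private lemma conn_ar (η : ℤ × ℤ × Bool → Bool) (a v : ℤ × ℤ) :
    Conn (PS (fun c => η (tau c))) Set.univ (TT a) v ↔
      ∃ (m : ℕ) (f : ℕ → ℤ × ℤ), f 0 = a ∧ TT (f m) = v ∧
        ∀ k < m, Arrow η (f k) (f (k + 1)) :=
  conn_gen (Arrow η) (PS (fun c => η (tau c))) (arrow_iff η) (fun _ _ h => h.1) a v

/-- The law of the cells. -/
private lemma map_law (p : ℝ≥0) (hp : p ≤ 1) :
    (nu p hp).map (fun η c => η (tau c)) = mu p hp := by
  unfold nu mu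
  exact Measure.map_infinitePi_infinitePi_of_inj
    (P := fun _ : ℤ × ℤ × Bool => (PMF.bernoulli p hp).toMeasure) tau_inj

private lemma arrow_fin (η : ℤ × ℤ × Bool → Bool) (x : ℤ × ℤ) : {y | Arrow η x y}.Finite := by
  refine (Set.toFinite ({(x.1 + 1, x.2), (x.1 - 1, x.2), (x.1, x.2 + 1), (x.1, x.2 - 1)} :
    Set (ℤ × ℤ))).subset ?_
  rintro y (h | h | h | h)
  · exact Or.inl h.1
  · exact Or.inr (Or.inl h.1)
  · exact Or.inr (Or.inr (Or.inl h.1))
  · exact Or.inr (Or.inr (Or.inr h.1))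


private lemma TT_zero : TT (0, 0) = (0, 0) := rfl

private lemma koenig_path (η : ℤ × ℤ × Bool → Bool)
    (h : {v : ℤ × ℤ | Conn (PS (fun c => η (tau c))) Set.univ (0, 0) v}.Infinite) :
    ∃ f : ℕ → ℤ × ℤ, f 0 = (0, 0) ∧ Function.Injective f ∧ ∀ n : ℕ, Arrow η (f n) (f (n + 1)) := by
  apply Pool.Agent.Helper96.PK.koenig (Arrow η) (arrow_fin η) (0, 0)
  intro hfin
  apply h
  refine (hfin.image TT).subset ?_
  intro v hv
  rw [← TT_zero] at hv
  obtain ⟨m, f, h0, hm, hf⟩ := (conn_ar η (0, 0) v).mp hv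
  refine ⟨f m, ?_, hm⟩
  have hk : ∀ k ≤ m, Relation.ReflTransGen (Arrow η) (0, 0) (f k) := by
    intro k
    induction k with
    | zero =>
      intro _
      rw [h0]
    | succ k ih =>
      intro hk
      exact (ih (by omega)).tail (hf k (by omega))
  exact hk m le_rfl

private lemma meas_inf : MeasurableSet
    {ω : ℤ × ℤ → Bool | {v : ℤ × ℤ | Conn (PS ω) Set.univ (0, 0) v}.Infinite} := by
  have e : {ω : ℤ × ℤ → Bool | {v : ℤ × ℤ | Conn (PS ω) Set.univ (0, 0) v}.Infinite} =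
      ⋂ F : Finset (ℤ × ℤ), ⋃ v : ℤ × ℤ, ⋃ _ : v ∉ F,
        {ω : ℤ × ℤ → Bool | Conn (PS ω) Set.univ (0, 0) v} := by
    ext ω
    simp only [Set.mem_iInter, Set.mem_iUnion, exists_prop]
    constructor
    · intro h F
      obtain ⟨v, hv, hF⟩ := Set.Infinite.exists_notMem_finset h F
      exact ⟨v, hF, hv⟩
    · intro h hfin
      obtain ⟨v, hv, hc⟩ := h hfin.toFinset
      exact hv (hfin.mem_toFinset.mpr hc)
  rw [e]
  exact MeasurableSet.iInter fun F => MeasurableSet.iUnion fun v => MeasurableSet.iUnion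
    fun _ => meas_conn_PS _ _ _


/-- The transfer of an event. -/
private lemma tr_ev (p : ℝ≥0) (hp : p ≤ 1) (A : Set (ℤ × ℤ → Bool)) (hA : MeasurableSet A)
    (B : Set (ℤ × ℤ × Bool → Bool)) (h : ∀ η, η ∈ B ↔ (fun c => η (tau c)) ∈ A) :
    (nu p hp).real B = Pr p hp A := by
  unfold Pr
  rw [← map_law p hp, map_measureReal_apply (by fun_prop) hA]
  congr 1
  ext η
  exact h η

private lemma ind_iff (m : ℕ) (u v : ℤ × ℤ) (h : Diag (TT u) (TT v)) :
    (InD m u ∧ InD m v) ↔ In m (cell (TT u) (TT v)) := by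
  obtain ⟨x, y⟩ := u
  obtain ⟨x', y'⟩ := v
  unfold Diag TT at h
  unfold InD In cell TT
  simp only at h ⊢
  omega

private lemma bot_iff (m : ℕ) (a : ℤ × ℤ) : Bot m (TT a) ↔ InD m a ∧ a.1 + a.2 = -(m : ℤ) := by
  obtain ⟨x, y⟩ := a
  unfold Bot InD TT
  simp only
  omega

private lemma top_iff (m : ℕ) (a : ℤ × ℤ) : Top m (TT a) ↔ InD m a ∧ a.1 + a.2 = (m : ℤ) + 1 := by
  obtain ⟨x, y⟩ := a
  unfold Top InD TT
  simp only
  omega

private lemma pso_iff (m : ℕ) (η : ℤ × ℤ × Bool → Bool) (u v : ℤ × ℤ) :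
    (Arrow η u v ∧ ¬ (InD m u ∧ InD m v)) ↔ PSo m (fun c => η (tau c)) (TT u) (TT v) := by
  unfold PSo
  rw [arrow_iff]
  constructor
  · rintro ⟨h1, h2⟩
    exact ⟨h1, fun h3 => h2 ((ind_iff m u v h1.1).mpr h3)⟩
  · rintro ⟨h1, h2⟩
    exact ⟨h1, fun h3 => h2 ((ind_iff m u v h1.1).mp h3)⟩

private lemma conn_o (m : ℕ) (η : ℤ × ℤ × Bool → Bool) (a v : ℤ × ℤ) :
    Conn (PSo m (fun c => η (tau c))) Set.univ (TT a) v ↔
      ∃ (n : ℕ) (f : ℕ → ℤ × ℤ), f 0 = a ∧ TT (f n) = v ∧
        ∀ k < n, Arrow η (f k) (f (k + 1)) ∧ ¬ (InD m (f k) ∧ InD m (f (k + 1))) :=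
  conn_gen (fun u v => Arrow η u v ∧ ¬ (InD m u ∧ InD m v)) (PSo m (fun c => η (tau c)))
    (pso_iff m η) (fun _ _ h => h.1.1) a v

private lemma meas_Dn' (m : ℕ) : MeasurableSet {ω : ℤ × ℤ → Bool | Dn m ω} := by
  have h := meas_ex_gen (fun ω => PSo m ω) (meas_PSo m) Set.univ (fun u v => Bot m v ∧ Top m u)
  have e : {ω : ℤ × ℤ → Bool | Dn m ω} = {ω : ℤ × ℤ → Bool | ∃ u v : ℤ × ℤ,
      (Bot m v ∧ Top m u) ∧ Conn (PSo m ω) Set.univ u v} := by
    ext ω
    constructor
    · rintro ⟨a, b, ha, hb, hc⟩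
      exact ⟨b, a, ⟨ha, hb⟩, hc⟩
    · rintro ⟨b, a, ⟨ha, hb⟩, hc⟩
      exact ⟨a, b, ha, hb, hc⟩
  rw [e]
  exact h

/-- The two even corners of a cell. -/
private lemma corners (a b u v : ℤ × ℤ) (hab : Diag (TT a) (TT b)) (huv : Diag u v)
    (hu : (u.1 + u.2) % 2 = 0) (hc : cell u v = cell (TT a) (TT b)) :
    (u = TT a ∧ v = TT b) ∨ (u = TT b ∧ v = TT a) := by
  obtain ⟨x, y⟩ := a
  obtain ⟨x', y'⟩ := b
  obtain ⟨u1, u2⟩ := u
  obtain ⟨v1, v2⟩ := v
  unfold Diag TT at hab
  unfold Diag at huv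
  unfold cell TT at hc
  unfold TT
  simp only [Prod.mk.injEq] at hab huv hu hc ⊢
  omega

/-- A shortest walk is injective. -/
private lemma short (r : ℤ × ℤ → ℤ × ℤ → Prop) (a b : ℤ × ℤ)
    (h : ∃ (n : ℕ) (g : ℕ → ℤ × ℤ), g 0 = b ∧ g n = a ∧ ∀ k < n, r (g k) (g (k + 1))) :
    ∃ (n : ℕ) (g : ℕ → ℤ × ℤ), g 0 = b ∧ g n = a ∧ (∀ k < n, r (g k) (g (k + 1))) ∧
      ∀ i ≤ n, ∀ j ≤ n, g i = g j → i = j := by
  classical
  obtain ⟨g, h0, hn, hg⟩ := Nat.find_spec h
  have hmin : ∀ m < Nat.find h, ¬ ∃ g : ℕ → ℤ × ℤ, g 0 = b ∧ g m = a ∧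
      ∀ k < m, r (g k) (g (k + 1)) := fun m hm => Nat.find_min h hm
  obtain ⟨n, hnn⟩ : ∃ n, n = Nat.find h := ⟨_, rfl⟩
  rw [← hnn] at hn hg hmin
  refine ⟨n, g, h0, hn, hg, ?_⟩
  have key : ∀ i j, i < j → j ≤ n → g i ≠ g j := by
    intro i j hij hj he
    apply hmin (n - (j - i)) (by omega)
    refine ⟨fun k => if k ≤ i then g k else g (k + (j - i)), ?_, ?_, ?_⟩
    · simp only [Nat.zero_le, if_true]
      exact h0
    · simp only
      by_cases hc : n - (j - i) ≤ i
      · rw [if_pos hc]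
        have h1 : n - (j - i) = i := by omega
        have h2 : j = n := by omega
        rw [h1, he, h2]
        exact hn
      · rw [if_neg hc]
        have h1 : n - (j - i) + (j - i) = n := by omega
        rw [h1]
        exact hn
    · intro k hk
      simp only
      by_cases h1 : k + 1 ≤ i
      · rw [if_pos (by omega), if_pos h1]
        exact hg k (by omega)
      · rw [if_neg h1]
        by_cases h2 : k ≤ i
        · rw [if_pos h2]
          have h3 : k = i := by omega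
          subst h3
          rw [he]
          have h4 : k + 1 + (j - k) = j + 1 := by omega
          rw [h4]
          exact hg j (by omega)
        · rw [if_neg h2]
          have h4 : k + 1 + (j - i) = k + (j - i) + 1 := by omega
          rw [h4]
          exact hg _ (by omega)
  intro i hi j hj he
  rcases Nat.lt_trichotomy i j with h1 | h1 | h1
  · exact absurd he (key i j h1 hj)
  · exact h1
  · exact absurd he.symm (key j i h1 hi)

private lemma onc_iff (η : ℤ × ℤ × Bool → Bool) (a b : ℤ × ℤ) (hab : Diag (TT a) (TT b)) :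
    OnC η a b ↔ Rc (cell (TT a) (TT b)) (fun c => η (tau c)) := by
  constructor
  · rintro ⟨n, f, hn, hf0, _, hf, hc⟩
    refine ⟨TT (f 0), TT (f 1), TT_even _, ?_, (arrow_iff η _ _).mp (hf 0 hn), ?_⟩
    · rcases hc with ⟨h1, h2⟩ | ⟨h1, h2⟩
      · rw [h1, h2]
      · rw [h1, h2, cell_comm]
    · rw [conn_ar]
      refine ⟨n - 1, fun k => f (k + 1), rfl, ?_, ?_⟩
      · simp only
        have h1 : n - 1 + 1 = n := by omega
        rw [h1, hf0]
      · intro k hk
        exact hf (k + 1) (by omega)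
  · rintro ⟨u, v, hu, hc, hs, hcon⟩
    have key : ∀ a b : ℤ × ℤ, PS (fun c => η (tau c)) (TT a) (TT b) →
        Conn (PS (fun c => η (tau c))) Set.univ (TT b) (TT a) →
        ∃ (n : ℕ) (f : ℕ → ℤ × ℤ), 0 < n ∧ f n = f 0 ∧
          (∀ i < n, ∀ j < n, f i = f j → i = j) ∧
          (∀ k < n, Arrow η (f k) (f (k + 1))) ∧ (f 0 = a ∧ f 1 = b) := by
      intro a b hs hcon
      obtain ⟨m, g, hg0, hgm, hg⟩ := (conn_ar η b (TT a)).mp hcon
      obtain ⟨n, g, hg0, hgn, hg, hinj⟩ := short (Arrow η) a b ⟨m, g, hg0, TT_inj hgm, hg⟩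
      refine ⟨n + 1, fun k => if k = 0 then a else g (k - 1), by omega, ?_, ?_, ?_, ?_⟩
      · simp only [Nat.add_eq_zero_iff, one_ne_zero, and_false, if_false, if_true,
          Nat.add_sub_cancel]
        exact hgn
      · intro i hi j hj he
        simp only at he
        by_cases h1 : i = 0
        · by_cases h2 : j = 0
          · omega
          · rw [if_pos h1, if_neg h2, ← hgn] at he
            have := hinj n le_rfl (j - 1) (by omega) he
            omega
        · by_cases h2 : j = 0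
          · rw [if_neg h1, if_pos h2, ← hgn] at he
            have := hinj (i - 1) (by omega) n le_rfl he
            omega
          · rw [if_neg h1, if_neg h2] at he
            have := hinj (i - 1) (by omega) (j - 1) (by omega) he
            omega
      · intro k hk
        simp only
        rw [if_neg (by omega : ¬ k + 1 = 0), Nat.add_sub_cancel]
        by_cases h1 : k = 0
        · subst h1
          rw [if_pos rfl, hg0]
          exact (arrow_iff η _ _).mpr hs
        · rw [if_neg h1]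
          have h2 := hg (k - 1) (by omega)
          rwa [Nat.sub_add_cancel (by omega : 1 ≤ k)] at h2
      · refine ⟨by simp, ?_⟩
        simp only [one_ne_zero, if_false, Nat.sub_self]
        exact hg0
    rcases corners a b u v hab hs.1 hu hc with ⟨h1, h2⟩ | ⟨h1, h2⟩
    · rw [h1, h2] at hs hcon
      obtain ⟨n, f, h3, h4, h5, h6, h7⟩ := key a b hs hcon
      exact ⟨n, f, h3, h4, h5, h6, Or.inl h7⟩
    · rw [h1, h2] at hs hcon
      obtain ⟨n, f, h3, h4, h5, h6, h7⟩ := key b a hs hcon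
      exact ⟨n, f, h3, h4, h5, h6, Or.inr h7⟩

theorem tr_th (p : ℝ≥0) (hp : p ≤ 1) :
    (nu p hp).real {η | ∃ f : ℕ → ℤ × ℤ, f 0 = (0, 0) ∧ Function.Injective f ∧
      ∀ n : ℕ, Arrow η (f n) (f (n + 1))} = th p hp := by
  unfold th
  refine tr_ev p hp _ meas_inf _ (fun η => ?_)
  constructor
  · rintro ⟨f, h0, hinj, hf⟩
    have h1 : (Set.range (fun k => TT (f k))).Infinite :=
      Set.infinite_range_of_injective (TT_inj.comp hinj)
    refine h1.mono ?_
    rintro v ⟨k, rfl⟩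
    change Conn (PS (fun c => η (tau c))) Set.univ (0, 0) (TT (f k))
    rw [← TT_zero, conn_ar]
    exact ⟨k, f, h0, rfl, fun j _ => hf j⟩
  · intro h
    exact koenig_path η h

theorem tr_up (p : ℝ≥0) (hp : p ≤ 1) (m : ℕ) :
    (nu p hp).real {η | ∃ (n : ℕ) (f : ℕ → ℤ × ℤ), InD m (f 0) ∧ (f 0).1 + (f 0).2 = -(m : ℤ) ∧
      InD m (f n) ∧ (f n).1 + (f n).2 = m + 1 ∧
      ∀ k < n, Arrow η (f k) (f (k + 1)) ∧ ¬ (InD m (f k) ∧ InD m (f (k + 1)))} =
      Pr p hp {ω | Up m ω} := by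
  refine tr_ev p hp _ (meas_Up m) _ (fun η => ?_)
  constructor
  · rintro ⟨n, f, h1, h2, h3, h4, h5⟩
    refine ⟨TT (f 0), TT (f n), (bot_iff m _).mpr ⟨h1, h2⟩, (top_iff m _).mpr ⟨h3, h4⟩, ?_⟩
    rw [conn_o]
    exact ⟨n, f, rfl, rfl, h5⟩
  · rintro ⟨a, b, ha, hb, hc⟩
    have h1 : TT (TI a) = a := TT_TI a ha.2.2.2
    rw [← h1] at hc ha
    obtain ⟨n, f, h2, h3, h4⟩ := (conn_o m η _ _).mp hc
    rw [← h3] at hb
    rw [← h2] at ha
    have h5 := (bot_iff m _).mp ha
    have h6 := (top_iff m _).mp hb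
    exact ⟨n, f, h5.1, h5.2, h6.1, h6.2, h4⟩

theorem tr_dn (p : ℝ≥0) (hp : p ≤ 1) (m : ℕ) :
    (nu p hp).real {η | ∃ (n : ℕ) (f : ℕ → ℤ × ℤ), InD m (f 0) ∧ (f 0).1 + (f 0).2 = m + 1 ∧
      InD m (f n) ∧ (f n).1 + (f n).2 = -(m : ℤ) ∧
      ∀ k < n, Arrow η (f k) (f (k + 1)) ∧ ¬ (InD m (f k) ∧ InD m (f (k + 1)))} =
      Pr p hp {ω | Dn m ω} := by
  refine tr_ev p hp _ (meas_Dn' m) _ (fun η => ?_)
  constructor
  · rintro ⟨n, f, h1, h2, h3, h4, h5⟩
    refine ⟨TT (f n), TT (f 0), (bot_iff m _).mpr ⟨h3, h4⟩, (top_iff m _).mpr ⟨h1, h2⟩, ?_⟩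
    rw [conn_o]
    exact ⟨n, f, rfl, rfl, h5⟩
  · rintro ⟨a, b, ha, hb, hc⟩
    have h1 : TT (TI b) = b := TT_TI b hb.2.2.2
    rw [← h1] at hc hb
    obtain ⟨n, f, h2, h3, h4⟩ := (conn_o m η _ _).mp hc
    rw [← h3] at ha
    rw [← h2] at hb
    have h5 := (bot_iff m _).mp ha
    have h6 := (top_iff m _).mp hb
    exact ⟨n, f, h6.1, h6.2, h5.1, h5.2, h4⟩

theorem tr_rc_h (p : ℝ≥0) (hp : p ≤ 1) (x y : ℤ) :
    (nu p hp).real {η | OnC η (x, y) (x + 1, y)} = rho p hp := by
  rw [← pr_rc p hp (x + y, x - y)]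
  refine tr_ev p hp _ (meas_rc _) _ (fun η => ?_)
  have h1 : Diag (TT (x, y)) (TT (x + 1, y)) := by
    unfold Diag TT
    simp only
    omega
  have h2 : cell (TT (x, y)) (TT (x + 1, y)) = (x + y, x - y) := by
    unfold cell TT
    ext <;> simp only <;> omega
  have h3 := onc_iff η (x, y) (x + 1, y) h1
  rw [h2] at h3
  exact h3

theorem tr_rc_v (p : ℝ≥0) (hp : p ≤ 1) (x y : ℤ) :
    (nu p hp).real {η | OnC η (x, y) (x, y + 1)} = rho p hp := by
  rw [← pr_rc p hp (x + y, x - y - 1)]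
  refine tr_ev p hp _ (meas_rc _) _ (fun η => ?_)
  have h1 : Diag (TT (x, y)) (TT (x, y + 1)) := by
    unfold Diag TT
    simp only
    omega
  have h2 : cell (TT (x, y)) (TT (x, y + 1)) = (x + y, x - y - 1) := by
    unfold cell TT
    ext <;> simp only <;> omega
  have h3 := onc_iff η (x, y) (x, y + 1) h1
  rw [h2] at h3
  exact h3

end Pool.Agent.Helper50.CD
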