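import Pool.Agent.Helper50.CD.Defs2
import Pool.Agent.Helper96.PK.Koenig

set_option autoImplicit false

/-!
# CD-Z: the zero-one law

`zero_one`: an event which for every finite set `F` of cells is determined by the cells outside of `F` has
probability 0 or 1. Proof: Kolmogorov's zero-one law of Mathlib
(`ProbabilityTheory.measure_zero_or_one_of_measurableSet_limsup` with the filter `cofinite` on `ℤ × ℤ`, the
σ-algebras `s c = MeasurableSpace.comap (fun ω => ω c) ⊤`, `ns F = F` for finite sets) : the coordinates are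
independent (`iIndepFun_infinitePi`, see `indep` in `Helper95/DG/Indep.lean`), `limsup s cofinite` is the infimum over
the finite sets `F` of `⨆ c ∉ F, s c = sig Fᶜ`, and `A` is measurable for `sig Fᶜ` by `meas_sig`. ALTERNATIVE without
limsup: let `A` be as above. For every finite `F` and every measurable `B` with `Dep B F`, `A` and `B` are independent
(`indep`). The sets `B` measurable for which `Pr (A ∩ B) = Pr A * Pr B` contain the pi-system of the finite dimensional
cylinders, which generates the σ-algebra, so they are all measurable sets (`MeasurableSpace.induction_on_inter` or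
equality of two finite measures `ext_of_generate_finite`); take `B = A`.

`exists_inf`: if `0 < th` then almost surely some even point has an infinite forward cluster. The event `A` is measurable
(countable union of events `meas_inf v` of `Helper95/DG/Fsc.lean`) and contains the event of `th` (`(0,0)` is even), so by
`zero_one` it is enough that `Dep A Fᶜ` for every finite `F`. Let `ω = ω'` outside of `F` and let `v` be even with an
infinite cluster in `ω`. König (`Pool.Agent.Helper96.PK.koenig`, for the relation `PS ω`, finitely many out-neighbours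
since a step changes both coordinates by 1; `Conn` and `Relation.ReflTransGen` : see how `Helper95/DG/Coord.lean` does
it) gives an injective `f` with `f 0 = v` and steps `PS ω (f n) (f (n+1))`. Only finitely many `n` have
`cell (f n) (f (n+1)) ∈ F` (then `f n` is one of the four corners of a cell of `F`, and `f` is injective). Let `N` be
larger than all of these: then all steps after `N` are steps of `ω'`, so the cluster of `f N` in `ω'` contains all
`f n`, `n ≥ N`; it is infinite, and `f N` is even (parity is kept by the steps).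
-/

namespace Pool.Agent.Helper50.CD

open MeasureTheory
open scoped ENNReal NNReal
open Pool.Agent.Helper95.DG

theorem zero_one (p : ℝ≥0) (hp : p ≤ 1) (A : Set (ℤ × ℤ → Bool)) (hA : MeasurableSet A)
    (hd : ∀ F : Finset (ℤ × ℤ), Dep A ((F : Set (ℤ × ℤ))ᶜ)) : Pr p hp A = 0 ∨ Pr p hp A = 1 := by
  classical
  have h1 : ProbabilityTheory.iIndepFun (fun (c : ℤ × ℤ) (ω : ℤ × ℤ → Bool) => ω c) (mu p hp) := by
    unfold mu
    exact ProbabilityTheory.iIndepFun_infinitePi (fun _ => measurable_id)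
  have h2 : mu p hp A = 0 ∨ mu p hp A = 1 := by
    refine ProbabilityTheory.measure_zero_or_one_of_measurableSet_limsup
      (s := fun c : ℤ × ℤ => MeasurableSpace.comap (fun ω : ℤ × ℤ → Bool => ω c) ⊤)
      (f := Filter.cofinite) (p := fun t => t.Finite) (ns := fun F : Finset (ℤ × ℤ) => (F : Set (ℤ × ℤ)))
      (fun c => (measurable_pi_apply c).comap_le) h1 (fun t ht => ht.compl_mem_cofinite) ?_
      (fun F => F.finite_toSet) (fun c => ⟨{c}, by simp⟩) ?_
    · intro F G
      exact ⟨F ∪ G, by simp, by simp⟩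
    · rw [Filter.hasBasis_cofinite.limsup_eq_iInf_iSup, MeasurableSpace.measurableSet_iInf]
      intro t
      rw [MeasurableSpace.measurableSet_iInf]
      intro ht
      have h3 := meas_sig hA (hd ht.toFinset)
      rw [Set.Finite.coe_toFinset] at h3
      exact h3
  unfold Pr
  rcases h2 with h | h
  · left; simp [measureReal_def, h]
  · right; simp [measureReal_def, h]

private lemma ps_fin (ω : ℤ × ℤ → Bool) (x : ℤ × ℤ) : {y | PS ω x y}.Finite := by
  refine ((((Set.finite_singleton (x.1 - 1, x.2 - 1)).insert (x.1 - 1, x.2 + 1)).insert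
    (x.1 + 1, x.2 - 1)).insert (x.1 + 1, x.2 + 1)).subset ?_
  rintro ⟨a, b⟩ ⟨⟨h1, h2⟩, -⟩
  simp only [Set.mem_insert_iff, Set.mem_singleton_iff, Prod.mk.injEq]
  simp only at h1 h2
  omega

private lemma conn_rtg (r : ℤ × ℤ → ℤ × ℤ → Prop) (u v : ℤ × ℤ) (h : Conn r Set.univ u v) :
    Relation.ReflTransGen r u v := by
  obtain ⟨n, f, ⟨-, h2⟩, h0, hn⟩ := h
  subst h0
  subst hn
  have key : ∀ m ≤ n, Relation.ReflTransGen r (f 0) (f m) := by
    intro m
    induction m with
    | zero => intro _; exact Relation.ReflTransGen.refl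
    | succ m ih =>
      intro hm
      exact (ih (by omega)).tail (h2 m (by omega))
  exact key n le_rfl

private lemma corner (F : Finset (ℤ × ℤ)) :
    {u : ℤ × ℤ | ∃ v, Diag u v ∧ cell u v ∈ F}.Finite := by
  have h : {u : ℤ × ℤ | ∃ v, Diag u v ∧ cell u v ∈ F} ⊆
      ((fun c : ℤ × ℤ => c) '' (F : Set (ℤ × ℤ))) ∪ ((fun c : ℤ × ℤ => (c.1 + 1, c.2)) '' (F : Set (ℤ × ℤ)))
      ∪ ((fun c : ℤ × ℤ => (c.1, c.2 + 1)) '' (F : Set (ℤ × ℤ)))
      ∪ ((fun c : ℤ × ℤ => (c.1 + 1, c.2 + 1)) '' (F : Set (ℤ × ℤ))) := by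
    rintro ⟨a, b⟩ ⟨⟨c, d⟩, ⟨h1, h2⟩, h3⟩
    simp only at h1 h2
    unfold cell at h3
    simp only at h3
    simp only [Set.mem_union, Set.mem_image, Finset.mem_coe]
    rcases h1 with h1 | h1 <;> rcases h2 with h2 | h2
    · left; left; left
      refine ⟨_, h3, ?_⟩
      ext <;> simp only <;> omega
    · left; right
      refine ⟨_, h3, ?_⟩
      ext <;> simp only <;> omega
    · left; left; right
      refine ⟨_, h3, ?_⟩
      ext <;> simp only <;> omega
    · right
      refine ⟨_, h3, ?_⟩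
      ext <;> simp only <;> omega
  refine Set.Finite.subset ?_ h
  exact (((F.finite_toSet.image _).union (F.finite_toSet.image _)).union
    (F.finite_toSet.image _)).union (F.finite_toSet.image _)

private lemma one_dir (F : Finset (ℤ × ℤ)) (ω ω' : ℤ × ℤ → Bool)
    (hω : ∀ c ∈ ((F : Set (ℤ × ℤ))ᶜ), ω c = ω' c)
    (h : ∃ v : ℤ × ℤ, Ev v ∧ {z : ℤ × ℤ | Conn (PS ω) Set.univ v z}.Infinite) :
    ∃ v : ℤ × ℤ, Ev v ∧ {z : ℤ × ℤ | Conn (PS ω') Set.univ v z}.Infinite := by
  obtain ⟨v, hv, hinf⟩ := h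
  obtain ⟨f, h0, hinj, hst⟩ := Pool.Agent.Helper96.PK.koenig (PS ω) (ps_fin ω) v
    (hinf.mono fun z hz => conn_rtg _ _ _ hz)
  have hev : ∀ n, Ev (f n) := by
    intro n
    induction n with
    | zero => rw [h0]; exact hv
    | succ n ih =>
      obtain ⟨⟨h1, h2⟩, -⟩ := hst n
      unfold Ev at ih ⊢
      omega
  have hfin : (f ⁻¹' {u : ℤ × ℤ | ∃ v, Diag u v ∧ cell u v ∈ F}).Finite :=
    (corner F).preimage hinj.injOn
  obtain ⟨N, hN⟩ := hfin.bddAbove
  have hst' : ∀ n, PS ω' (f (N + 1 + n)) (f (N + 1 + n + 1)) := by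
    intro n
    obtain ⟨h1, h2⟩ := hst (N + 1 + n)
    refine ⟨h1, ?_⟩
    rw [← hω _ ?_]
    · exact h2
    · intro hc
      have hm : N + 1 + n ∈ f ⁻¹' {u : ℤ × ℤ | ∃ v, Diag u v ∧ cell u v ∈ F} :=
        ⟨f (N + 1 + n + 1), h1, hc⟩
      have := hN hm
      omega
  refine ⟨f (N + 1), hev _, ?_⟩
  have hi : Function.Injective fun k : ℕ => f (N + 1 + k) := by
    intro a b hab
    have := hinj hab
    omega
  refine (Set.infinite_range_of_injective hi).mono ?_
  rintro _ ⟨k, rfl⟩
  exact ⟨k, fun i => f (N + 1 + i), ⟨fun _ _ => trivial, fun i _ => hst' i⟩, rfl, rfl⟩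

theorem exists_inf (p : ℝ≥0) (hp : p ≤ 1) (h : 0 < th p hp) :
    Pr p hp {ω | ∃ v : ℤ × ℤ, Ev v ∧ {z : ℤ × ℤ | Conn (PS ω) Set.univ v z}.Infinite} = 1 := by
  have hm : MeasurableSet {ω : ℤ × ℤ → Bool |
      ∃ v : ℤ × ℤ, Ev v ∧ {z : ℤ × ℤ | Conn (PS ω) Set.univ v z}.Infinite} := by
    have e : {ω : ℤ × ℤ → Bool |
        ∃ v : ℤ × ℤ, Ev v ∧ {z : ℤ × ℤ | Conn (PS ω) Set.univ v z}.Infinite} =
        ⋃ v : ℤ × ℤ, {ω | Ev v ∧ {z : ℤ × ℤ | Conn (PS ω) Set.univ v z}.Infinite} := by
      ext ω; simp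
    rw [e]
    refine MeasurableSet.iUnion fun v => ?_
    by_cases hv : Ev v
    · simpa [hv] using meas_inf v
    · simp [hv]
  have hdep : ∀ F : Finset (ℤ × ℤ), Dep {ω : ℤ × ℤ → Bool | ∃ v : ℤ × ℤ, Ev v ∧
      {z : ℤ × ℤ | Conn (PS ω) Set.univ v z}.Infinite} ((F : Set (ℤ × ℤ))ᶜ) := by
    intro F ω ω' hω
    exact ⟨one_dir F ω ω' hω, one_dir F ω' ω fun c hc => (hω c hc).symm⟩
  rcases zero_one p hp _ hm hdep with h0 | h1
  · exfalso
    have h2 : th p hp ≤ Pr p hp {ω | ∃ v : ℤ × ℤ, Ev v ∧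
        {z : ℤ × ℤ | Conn (PS ω) Set.univ v z}.Infinite} := by
      unfold th
      apply Pr_mono
      intro ω hω
      exact ⟨(0, 0), by simp [Ev], hω⟩
    rw [h0] at h2
    linarith
  · exact h1

end Pool.Agent.Helper50.CD
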